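import Mathlib

set_option autoImplicit false

/-!
Combinatorial core of the non-embeddability of `ℓ_∞` into `c_0(κ)`:
cofinal families of monotone functions `ℕ → ℕ` modulo finite sets, good nodes, and the
existence of large colour classes on tuples of functions.
-/

namespace Pool.Agent.H621R3.C0

/-- monotone functions from `ℕ` to `ℕ` -/
abbrev P := ℕ →o ℕ

/-- finite initial segments -/
abbrev Node := Σ n : ℕ, (Fin n → ℕ)

/-- restriction of a function to `[0,n)` -/
def res (f : ℕ → ℕ) (n : ℕ) : Node := ⟨n, fun i => f i⟩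

/-- cofinal modulo finite sets -/
def Cof (A : Set P) : Prop := ∀ g : ℕ → ℕ, ∃ f ∈ A, ∃ n, ∀ p, n ≤ p → g p ≤ f p

/-- `t` is a good node for `A`: beyond `t` the set `A` is cofinal for everywhere domination -/
def Good (A : Set P) (t : Node) : Prop :=
  ∀ g : ℕ → ℕ, ∃ f ∈ A, (∀ i : Fin t.1, f i = t.2 i) ∧ ∀ p, t.1 ≤ p → g p ≤ f p

theorem exists_dom {ι : Type*} [Countable ι] (G : ι → ℕ → ℕ) :
    ∃ g : ℕ → ℕ, ∀ i, ∃ n, ∀ p, n ≤ p → G i p ≤ g p := by
  classical
  rcases isEmpty_or_nonempty ι with h | h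
  · exact ⟨fun _ => 0, fun i => (h.false i).elim⟩
  · obtain ⟨e, he⟩ := exists_surjective_nat ι
    refine ⟨fun p => (Finset.range (p + 1)).sup fun k => G (e k) p, fun i => ?_⟩
    obtain ⟨k, rfl⟩ := he i
    refine ⟨k, fun p hp => ?_⟩
    exact Finset.le_sup (f := fun k => G (e k) p) (Finset.mem_range.2 (by omega))

theorem not_cof_iUnion {ι : Type*} [Countable ι] {B : ι → Set P} (h : ∀ i, ¬ Cof (B i)) :
    ¬ Cof (⋃ i, B i) := by
  intro hc
  simp only [Cof, not_forall, not_exists, not_and] at h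
  choose G hG using h
  obtain ⟨g, hg⟩ := exists_dom G
  obtain ⟨f, hf, n, hn⟩ := hc g
  obtain ⟨i, hi⟩ := Set.mem_iUnion.1 hf
  obtain ⟨m, hm⟩ := hg i
  obtain ⟨p, hp, hlt⟩ := hG i f hi (max n m)
  exact hlt ((hm p (le_trans (le_max_right _ _) hp)).trans (hn p (le_trans (le_max_left _ _) hp)))

theorem Cof.mono {A B : Set P} (h : A ⊆ B) (hA : Cof A) : Cof B := fun g => by
  obtain ⟨f, hf, hn⟩ := hA g
  exact ⟨f, h hf, hn⟩

theorem Good.mono {A B : Set P} {t : Node} (h : A ⊆ B) (hA : Good A t) : Good B t := fun g => by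
  obtain ⟨f, hf, hn⟩ := hA g
  exact ⟨f, h hf, hn⟩

theorem Good.diff {A B : Set P} {t : Node} (hA : Good A t) (hB : ¬ Cof B) : Good (A \ B) t := by
  intro g
  simp only [Cof, not_forall, not_exists, not_and] at hB
  obtain ⟨G, hG⟩ := hB
  obtain ⟨f, hf, hft, hfg⟩ := hA (fun p => max (g p) (G p))
  refine ⟨f, ⟨hf, fun hfB => ?_⟩, hft, fun p hp => (le_max_left _ _).trans (hfg p hp)⟩
  obtain ⟨p, hp, hlt⟩ := hG f hfB t.1
  exact hlt ((le_max_right _ _).trans (hfg p hp))

/-- a cofinal family has good nodes of any length -/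
theorem Cof.exists_good {A : Set P} (hA : Cof A) (N : ℕ) : ∃ t : Node, N ≤ t.1 ∧ Good A t := by
  classical
  by_contra hcon
  push Not at hcon
  -- for every node of length at least `N` a function that is not dominated
  have h1 : ∀ t : Node, ∃ G : ℕ → ℕ, N ≤ t.1 → ∀ f ∈ A, (∀ i : Fin t.1, f i = t.2 i) →
      ∃ p, t.1 ≤ p ∧ f p < G p := by
    intro t
    by_cases ht : N ≤ t.1
    · have := hcon t ht
      simp only [Good, not_forall, not_exists, not_and] at this
      obtain ⟨G, hG⟩ := this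
      refine ⟨G, fun _ f hf hft => ?_⟩
      obtain ⟨p, hp, hlt⟩ := hG f hf hft
      exact ⟨p, hp, not_le.1 hlt⟩
    · exact ⟨fun _ => 0, fun h => (ht h).elim⟩
  choose G hG using h1
  obtain ⟨g1, hg1⟩ := exists_dom G
  choose e he using hg1
  let φ : Node → ℕ := fun t => (Finset.range (e t)).sup (G t)
  let Φ : ℕ → ℕ → ℕ := fun n B =>
    (Fintype.piFinset (fun _ : Fin n => Finset.range (B + 1))).sup fun s => φ ⟨n, s⟩
  have hΦ : ∀ n B B', B ≤ B' → Φ n B ≤ Φ n B' := by
    intro n B B' h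
    apply Finset.sup_mono
    apply Fintype.piFinset_subset
    intro i
    exact Finset.range_subset_range.2 (by omega)
  let b : ℕ → ℕ → ℕ → ℕ := fun m B k => Nat.rec B (fun k x => Φ (m + k + 1) x) k
  have hb0 : ∀ m B, b m B 0 = B := fun m B => rfl
  have hb1 : ∀ m B k, b m B (k + 1) = Φ (m + k + 1) (b m B k) := fun m B k => rfl
  obtain ⟨g2, hg2⟩ := exists_dom (fun x : ℕ × ℕ => fun p => b x.1 x.2 (p - x.1) + 1)
  obtain ⟨f, hf, n0, hn0⟩ := hA (fun p => max (g1 p) (g2 p))
  set m := max n0 N with hm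
  -- key inequality
  have key : ∀ n, m ≤ n → f n < φ (res f n) ∨ φ (res f n) = 0 ∧ False ∨ f n < φ (res f n) := by
    intro n hn
    by_contra hlt
    have hlt' : φ (res f n) ≤ f n := by
      by_contra h'
      exact hlt (Or.inl (not_le.1 h'))
    obtain ⟨p, hp, hpG⟩ := hG (res f n) (by show N ≤ n; omega) f hf (fun i => rfl)
    have hp' : n ≤ p := hp
    by_cases hpe : p < e (res f n)
    · have h2 : G (res f n) p ≤ φ (res f n) :=
        Finset.le_sup (f := G (res f n)) (Finset.mem_range.2 hpe)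
      have h3 : f n ≤ f p := f.monotone hp'
      omega
    · have h2 := he (res f n) p (not_lt.1 hpe)
      have h3 := hn0 p (by omega)
      have h4 : g1 p ≤ f p := (le_max_left _ _).trans h3
      omega
  have key' : ∀ n, m ≤ n → f n < φ (res f n) := by
    intro n hn
    rcases key n hn with h | ⟨_, h⟩ | h
    · exact h
    · exact h.elim
    · exact h
  have hbound : ∀ k, f (m + k) ≤ b m (f m) k := by
    intro k
    induction k with
    | zero => exact le_of_eq (hb0 m (f m)).symm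
    | succ k ih =>
      rw [hb1]
      have h1 : f (m + (k + 1)) < φ (res f (m + k + 1)) := key' (m + (k + 1)) (by omega)
      have h2 : φ (res f (m + k + 1)) ≤ Φ (m + k + 1) (f (m + k)) := by
        apply Finset.le_sup (f := fun s => φ ⟨m + k + 1, s⟩)
        rw [Fintype.mem_piFinset]
        intro i
        rw [Finset.mem_range]
        have : f i ≤ f (m + k) := f.monotone (by have := i.2; omega)
        omega
      exact (h1.le.trans h2).trans (hΦ _ _ _ ih)
  obtain ⟨n1, hn1⟩ := hg2 (m, f m)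
  have h5 := hn1 (max n1 m) (le_max_left _ _)
  have h6 := hn0 (max n1 m) (by omega)
  have h7 : g2 (max n1 m) ≤ f (max n1 m) := (le_max_right _ _).trans h6
  have h8 := hbound (max n1 m - m)
  have h9 : m + (max n1 m - m) = max n1 m := by omega
  rw [h9] at h8
  simp only at h5
  omega

/-- a sequence defined by choices depending on the history -/
theorem exists_rec_seq {α : Type*} (R : (i : ℕ) → ((j : ℕ) → j < i → α) → α → Prop)
    (h : ∀ i (f : (j : ℕ) → j < i → α), ∃ x, R i f x) :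
    ∃ F : ℕ → α, ∀ i, R i (fun j _ => F j) (F i) := by
  classical
  let F : ℕ → α := WellFounded.fix (C := fun _ => α) Nat.lt_wfRel.wf
    (fun i prev => Classical.choose (h i (fun j hj => prev j hj)))
  refine ⟨F, fun i => ?_⟩
  have hF : F i = Classical.choose (h i (fun j _ => F j)) := by
    show WellFounded.fix _ _ i = _
    rw [WellFounded.fix_eq]
  rw [hF]
  exact Classical.choose_spec (h i (fun j _ => F j))

/-- Core lemma: from a system of families of functions with types, extract a countable pointwise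
bounded subsystem lying above `H` such that each occurring type occurs with infinitely many
colours. -/
theorem core {ι Q S : Type*} [Countable Q] (τ : ι → P → Q → Prop) (s : ι → P → S)
    (hc : ∀ j z x, Good {g | τ j g z} x → ∀ C : Finset S,
      ∃ j', Good {g | τ j' g z ∧ s j' g ∉ C} x)
    (hstart : ∃ j z x, Good {g | τ j g z} x) (H : ℕ → ℕ) :
    ∃ (κ : ℕ → ι × P) (H' : ℕ → ℕ) (n0 : ℕ),
      (∀ i p, (κ i).2 p ≤ H' p) ∧ (∀ i p, n0 ≤ p → H p ≤ (κ i).2 p) ∧
      (∃ i z, τ (κ i).1 (κ i).2 z) ∧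
      ∀ i z, τ (κ i).1 (κ i).2 z →
        {c | ∃ i', τ (κ i').1 (κ i').2 z ∧ s (κ i').1 (κ i').2 = c}.Infinite := by
  classical
  -- generic functions
  let Gen : ι → Set P := fun j =>
    {g | ∀ z k, τ j g z → ∃ k', k ≤ k' ∧ Good {g' | τ j g' z} (res g k')}
  have hGen : ∀ j, ¬ Cof (Gen j)ᶜ := by
    intro j
    have hsub : (Gen j)ᶜ ⊆ ⋃ zk : Q × ℕ,
        {g | τ j g zk.1 ∧ ∀ k', zk.2 ≤ k' → ¬ Good {g' | τ j g' zk.1} (res g k')} := by
      intro g hg
      simp only [Gen, Set.mem_compl_iff, Set.mem_ofPred_eq, not_forall, not_exists, not_and] at hg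
      obtain ⟨z, k, hz, hk⟩ := hg
      exact Set.mem_iUnion.2 ⟨(z, k), hz, hk⟩
    intro hcof
    refine not_cof_iUnion (fun zk => ?_) (hcof.mono hsub)
    intro hc'
    obtain ⟨t, ht, hgood⟩ := hc'.exists_good zk.2
    obtain ⟨g, ⟨hg1, hg2⟩, hgt, -⟩ := hgood (fun _ => 0)
    have hres : res g t.1 = t := by
      rcases t with ⟨n, t⟩
      simp only [res]
      congr 1
      funext i
      exact hgt i
    refine hg2 t.1 ht ?_
    rw [hres]
    exact hgood.mono (fun g' hg' => hg'.1)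
  obtain ⟨j0, z0, x0, hx0⟩ := hstart
  obtain ⟨g0, ⟨hg0τ, hg0G⟩, -, hg0H⟩ := (hx0.diff (hGen j0)) H
  have hg0G' : g0 ∈ Gen j0 := by
    by_contra h
    exact hg0G h
  -- invariant
  let Inv : ι × P → Prop := fun κ => κ.2 ∈ Gen κ.1 ∧ ∀ p, x0.1 ≤ p → H p ≤ κ.2 p
  have step : ∀ (κ : ι × P) (z : Q) (k : ℕ) (C : Finset S), Inv κ → τ κ.1 κ.2 z →
      ∃ κ' : ι × P, Inv κ' ∧ τ κ'.1 κ'.2 z ∧ s κ'.1 κ'.2 ∉ C ∧ ∀ p, p < k → κ'.2 p = κ.2 p := by
    rintro ⟨j, g⟩ z k C ⟨hG, hH⟩ hz
    obtain ⟨k', hk', hgood⟩ := hG z k hz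
    obtain ⟨j', hj'⟩ := hc j z _ hgood C
    obtain ⟨g', ⟨⟨hg'1, hg'2⟩, hg'3⟩, hg't, hg'H⟩ := (hj'.diff (hGen j')) H
    refine ⟨(j', g'), ⟨?_, ?_⟩, hg'1, hg'2, ?_⟩
    · by_contra h
      exact hg'3 h
    · intro p hp
      by_cases hpk : p < k'
      · have h1 : g' p = g p := hg't ⟨p, hpk⟩
        show H p ≤ g' p
        rw [h1]
        exact hH p hp
      · exact hg'H p (not_lt.1 hpk)
    · intro p hp
      exact hg't ⟨p, lt_of_lt_of_le hp hk'⟩
  -- bookkeeping
  haveI : Nonempty Q := ⟨z0⟩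
  obtain ⟨e, he⟩ := exists_surjective_nat (ℕ × Q)
  -- requirement number `i` is `e (Nat.unpair i).1`
  obtain ⟨κ, hκ⟩ := exists_rec_seq (α := ι × P)
    (fun i prev x =>
      (∀ j hj, Inv (prev j hj)) → Inv x ∧
        ((i = 0 → x = (j0, g0)) ∧
        (∀ hi : 0 < i, ∃ a, ∃ ha : a < i, ∀ p, p < i → x.2 p = (prev a ha).2 p) ∧
        ∀ (ha : (e (Nat.unpair i).1).1 < i),
          τ (prev _ ha).1 (prev _ ha).2 (e (Nat.unpair i).1).2 →
            τ x.1 x.2 (e (Nat.unpair i).1).2 ∧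
            ∀ b (hb : b < i), s x.1 x.2 ≠ s (prev b hb).1 (prev b hb).2))
    (by
      intro i prev
      by_cases hinv : ∀ j hj, Inv (prev j hj)
      · rcases Nat.eq_zero_or_pos i with hi | hi
        · subst hi
          refine ⟨(j0, g0), fun _ => ⟨⟨hg0G', hg0H⟩, fun _ => rfl, fun h => ?_, fun h => ?_⟩⟩
          · exact absurd h (lt_irrefl 0)
          · exact absurd h (Nat.not_lt_zero _)
        · by_cases ha : (e (Nat.unpair i).1).1 < i
          · by_cases hτ : τ (prev _ ha).1 (prev _ ha).2 (e (Nat.unpair i).1).2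
            · obtain ⟨κ', h1, h2, h3, h4⟩ := step (prev _ ha) (e (Nat.unpair i).1).2 i
                (Finset.univ.image fun b : Fin i => s (prev b b.2).1 (prev b b.2).2)
                (hinv _ ha) hτ
              refine ⟨κ', fun _ => ⟨h1, fun h => by omega, fun _ => ⟨_, ha, h4⟩, fun _ _ =>
                ⟨h2, fun b hb hs => h3 ?_⟩⟩⟩
              rw [Finset.mem_image]
              exact ⟨⟨b, hb⟩, Finset.mem_univ _, hs.symm⟩
            · refine ⟨prev 0 hi, fun _ => ⟨hinv _ _, fun h => by omega,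
                fun _ => ⟨0, hi, fun p _ => rfl⟩, fun ha' hτ' => (hτ hτ').elim⟩⟩
          · refine ⟨prev 0 hi, fun _ => ⟨hinv _ _, fun h => by omega,
                fun _ => ⟨0, hi, fun p _ => rfl⟩, fun ha' hτ' => (ha ha').elim⟩⟩
      · exact ⟨(j0, g0), fun h => (hinv h).elim⟩)
  have hInv : ∀ i, Inv (κ i) := by
    intro i
    induction i using Nat.strong_induction_on with
    | _ i ih => exact (hκ i (fun j hj => ih j hj)).1
  have hκ' := fun i => (hκ i (fun j _ => hInv j)).2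
  have h0 : κ 0 = (j0, g0) := (hκ' 0).1 rfl
  refine ⟨κ, fun p => (Finset.range (p + 1)).sup fun i => (κ i).2 p, x0.1, ?_, ?_, ?_, ?_⟩
  · intro i p
    have : ∀ i, ∃ a, a < p + 1 ∧ (κ i).2 p = (κ a).2 p := by
      intro i
      induction i using Nat.strong_induction_on with
      | _ i ih =>
        by_cases hip : i < p + 1
        · exact ⟨i, hip, rfl⟩
        · obtain ⟨a, ha, hag⟩ := (hκ' i).2.1 (by omega)
          obtain ⟨a', ha', hag'⟩ := ih a ha
          exact ⟨a', ha', (hag p (by omega)).trans hag'⟩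
    obtain ⟨a, ha, hag⟩ := this i
    rw [hag]
    exact Finset.le_sup (f := fun i => (κ i).2 p) (Finset.mem_range.2 ha)
  · intro i p hp
    exact (hInv i).2 p hp
  · refine ⟨0, z0, ?_⟩
    rw [h0]
    exact hg0τ
  · intro a z haz
    obtain ⟨c, hc⟩ := he (a, z)
    -- the indices where the requirement `(a,z)` is treated
    let I : ℕ → ℕ := fun d => Nat.pair c (a + 1 + d)
    have hI : ∀ d, (Nat.unpair (I d)).1 = c := fun d => by simp [I]
    have hIgt : ∀ d, a < I d := fun d => by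
      have := Nat.right_le_pair c (a + 1 + d)
      simp only [I]
      omega
    have hprop : ∀ d, τ (κ (I d)).1 (κ (I d)).2 z ∧
        ∀ b, b < I d → s (κ (I d)).1 (κ (I d)).2 ≠ s (κ b).1 (κ b).2 := by
      intro d
      have hd : ∀ y : ℕ × Q, e (Nat.unpair (I d)).1 = y → y.1 < I d →
          τ (κ y.1).1 (κ y.1).2 y.2 → τ (κ (I d)).1 (κ (I d)).2 y.2 ∧
            ∀ b, b < I d → s (κ (I d)).1 (κ (I d)).2 ≠ s (κ b).1 (κ b).2 := by
        rintro y rfl h1 h2
        exact (hκ' (I d)).2.2 h1 h2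
      have e1 : e (Nat.unpair (I d)).1 = (a, z) := by rw [hI, hc]
      exact hd (a, z) e1 (hIgt d) haz
    have hImono : StrictMono I := by
      intro d d' hdd
      exact Nat.pair_lt_pair_right c (by omega)
    have hinj : Function.Injective fun d => s (κ (I d)).1 (κ (I d)).2 := by
      intro d d' hdd
      rcases lt_trichotomy d d' with h | h | h
      · exact absurd hdd.symm ((hprop d').2 _ (hImono h))
      · exact h
      · exact absurd hdd ((hprop d).2 _ (hImono h))
    refine (Set.infinite_range_of_injective hinj).mono ?_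
    rintro _ ⟨d, rfl⟩
    exact ⟨I d, (hprop d).1, rfl⟩

/-- tuples of monotone functions -/
def T : ℕ → Type
  | 0 => Unit
  | m + 1 => P × T m

/-- tuples of nodes -/
def Q : ℕ → Type
  | 0 => Unit
  | m + 1 => Node × Q m

/-- tuples of bounding functions -/
def B : ℕ → Type
  | 0 => Unit
  | m + 1 => (ℕ → ℕ) × B m

instance countableQ : (m : ℕ) → Countable (Q m)
  | 0 => inferInstanceAs (Countable Unit)
  | m + 1 => by
    haveI := countableQ m
    exact inferInstanceAs (Countable (Node × Q m))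

/-- `q` is a type of the set `W` of tuples -/
def G : (m : ℕ) → Set (T m) → Q m → Prop
  | 0, W, _ => W.Nonempty
  | m + 1, W, q => Good {f : P | G m {w : T m | ((f, w) : P × T m) ∈ W} q.2} q.1

/-- chains of bounds -/
def Ch : (m : ℕ) → ℕ → (ℕ → ℕ) → B m → T m → Prop
  | 0, _, _, _, _ => True
  | m + 1, n, H, Hs, w => (∀ p, n ≤ p → H p ≤ w.1 p) ∧ (∀ p, w.1 p ≤ Hs.1 p) ∧ Ch m n Hs.1 Hs.2 w.2

theorem Ch.mono : (m : ℕ) → {n n' : ℕ} → (hn : n ≤ n') → {H : ℕ → ℕ} → {Hs : B m} → {w : T m} →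
    Ch m n H Hs w → Ch m n' H Hs w
  | 0, _, _, _, _, _, _, _ => trivial
  | m + 1, _, _, hn, _, _, _, h => ⟨fun p hp => h.1 p (hn.trans hp), h.2.1, Ch.mono m hn h.2.2⟩

/-- Inductive lemma -/
theorem inductive_lemma {S : Type*} : (m : ℕ) → {ι : Type} → (s : ι → S) → (W : ι → Set (T m)) →
    (∃ j q, G m (W j) q) →
    (∀ j q, G m (W j) q → {c | ∃ j', G m (W j') q ∧ s j' = c}.Infinite) →
    ∀ H : ℕ → ℕ, ∃ (n : ℕ) (Hs : B m), {c | ∃ j, (∃ w ∈ W j, Ch m n H Hs w) ∧ s j = c}.Infinite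
  | 0, ι, s, W, hb, hc, H => by
    obtain ⟨j, q, hj⟩ := hb
    refine ⟨0, (), (hc j q hj).mono ?_⟩
    rintro c ⟨j', hj', rfl⟩
    obtain ⟨w, hw⟩ := hj'
    exact ⟨j', ⟨w, hw, trivial⟩, rfl⟩
  | m + 1, ι, s, W, hb, hc, H => by
    classical
    obtain ⟨κ, H', n0, h1, h2, h3, h4⟩ := core (ι := ι) (Q := Q m) (S := S)
      (fun j g z => G m {w : T m | ((g, w) : P × T m) ∈ W j} z) (fun j _ => s j)
      (by
        intro j z x hx C
        have hinf := hc j ((x, z) : Node × Q m) hx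
        obtain ⟨c, ⟨j', hj', rfl⟩, hcC⟩ := hinf.exists_notMem_finset C
        refine ⟨j', Good.mono ?_ hj'⟩
        intro g hg
        exact ⟨hg, hcC⟩)
      (by
        obtain ⟨j, q, hj⟩ := hb
        exact ⟨j, q.2, q.1, hj⟩) H
    obtain ⟨n, Hs, hinf⟩ := inductive_lemma m (ι := ℕ) (fun i => s (κ i).1)
      (fun i => {w : T m | (((κ i).2, w) : P × T m) ∈ W (κ i).1}) h3 h4 H'
    refine ⟨max n n0, (H', Hs), hinf.mono ?_⟩
    rintro c ⟨i, ⟨w, hw, hch⟩, rfl⟩
    refine ⟨(κ i).1, ⟨((κ i).2, w), hw, ?_, ?_, ?_⟩, rfl⟩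
    · intro p hp
      exact h2 i p ((le_max_right _ _).trans hp)
    · exact h1 i
    · exact Ch.mono m (le_max_left _ _) hch

/-- the step function associated with a tuple -/
def F : (m : ℕ) → T m → ℕ × ℕ → ℕ
  | 0, _, _ => 0
  | m + 1, w, x => if x.2 < w.1 x.1 then m + 1 else F m w.2 x

theorem F_le : (m : ℕ) → (w : T m) → (x : ℕ × ℕ) → F m w x ≤ m
  | 0, _, _ => le_rfl
  | m + 1, w, x => by
    simp only [F]
    split_ifs
    · exact le_rfl
    · exact (F_le m w.2 x).trans (Nat.le_succ m)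

/-- initial segments of tuples -/
def Res (n : ℕ) : ℕ → Type
  | 0 => Unit
  | m + 1 => (Fin n → ℕ) × Res n m

/-- restriction of a tuple to `[0,n)` -/
def rst (n : ℕ) : (m : ℕ) → T m → Res n m
  | 0, _ => ()
  | m + 1, w => ((fun i => w.1 i), rst n m w.2)

theorem rst_finite (n : ℕ) : (m : ℕ) → (H : ℕ → ℕ) → (Hs : B m) →
    (rst n m '' {a | Ch m n H Hs a}).Finite
  | 0, _, _ => by
    refine (Set.finite_singleton (() : Unit)).subset ?_
    rintro x -
    rfl
  | m + 1, H, Hs => by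
    have ih := rst_finite n m Hs.1 Hs.2
    have hfin : (Set.pi Set.univ fun i : Fin n => Set.Iic (Hs.1 i)).Finite :=
      Set.Finite.pi fun i => Set.finite_Iic _
    refine (hfin.prod ih).subset ?_
    rintro x ⟨a, ha, rfl⟩
    refine ⟨?_, ?_⟩
    · intro i _
      exact ha.2.1 i
    · exact ⟨a.2, ha.2.2, rfl⟩

theorem F_of_Ch : (m : ℕ) → (n : ℕ) → (H : ℕ → ℕ) → (Hs : B m) → (w : T m) → Ch m n H Hs w →
    ∀ x : ℕ × ℕ, n ≤ x.1 → x.2 < H x.1 → F m w x = m
  | 0, _, _, _, _, _, _, _, _ => rfl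
  | m + 1, n, H, Hs, w, h, x, hx, hxH => by
    have := h.1 x.1 hx
    simp only [F]
    rw [if_pos (lt_of_lt_of_le hxH this)]

theorem F_close (n : ℕ) : (m : ℕ) → (H : ℕ → ℕ) → (Hs : B m) → (a b : T m) →
    Ch m n H Hs a → Ch m n H Hs b → rst n m a = rst n m b → ∀ x, F m a x ≤ F m b x + 1
  | 0, _, _, _, _, _, _, _, _ => Nat.zero_le _
  | m + 1, H, Hs, a, b, ha, hb, hab, x => by
    have h1 : (fun i : Fin n => a.1 i) = fun i : Fin n => b.1 i := congrArg Prod.fst hab
    have h2 : rst n m a.2 = rst n m b.2 := congrArg Prod.snd hab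
    have ih := F_close n m Hs.1 Hs.2 a.2 b.2 ha.2.2 hb.2.2 h2 x
    simp only [F]
    split_ifs with h3 h4 h4
    · omega
    · -- `x.2 < a.1 x.1` but not `x.2 < b.1 x.1`, so `n ≤ x.1`
      have hn : n ≤ x.1 := by
        by_contra hlt
        have := congrFun h1 ⟨x.1, not_le.1 hlt⟩
        simp only at this
        rw [this] at h3
        exact h4 h3
      have h5 : x.2 < Hs.1 x.1 := lt_of_lt_of_le h3 (ha.2.1 x.1)
      rw [F_of_Ch m n Hs.1 Hs.2 b.2 hb.2.2 x hn h5]
    · have := F_le m a.2 x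
      omega
    · exact ih

/-- colourings which are finite on unit balls are finite on chains -/
theorem finite_on_Ch {S : Type*} (m : ℕ) (c : T m → S)
    (hc : ∀ a0 : T m, (c '' {a | ∀ x, F m a x ≤ F m a0 x + 1 ∧ F m a0 x ≤ F m a x + 1}).Finite)
    (n : ℕ) (H : ℕ → ℕ) (Hs : B m) : (c '' {a | Ch m n H Hs a}).Finite := by
  classical
  have hfin := rst_finite n m H Hs
  have hsub : c '' {a | Ch m n H Hs a} ⊆
      ⋃ y ∈ rst n m '' {a | Ch m n H Hs a}, c '' {a | Ch m n H Hs a ∧ rst n m a = y} := by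
    rintro _ ⟨a, ha, rfl⟩
    simp only [Set.mem_iUnion]
    exact ⟨rst n m a, ⟨a, ha, rfl⟩, a, ⟨ha, rfl⟩, rfl⟩
  refine Set.Finite.subset (hfin.biUnion ?_) hsub
  rintro y ⟨a0, ha0, rfl⟩
  refine (hc a0).subset (Set.image_mono ?_)
  rintro a ⟨ha, hr⟩ x
  exact ⟨F_close n m H Hs a a0 ha ha0 hr x, F_close n m H Hs a0 a ha0 ha hr.symm x⟩

/-- large colour classes exist -/
theorem large_class {S : Type*} : (m : ℕ) → (c : T m → S) →
    (∀ a0 : T m, (c '' {a | ∀ x, F m a x ≤ F m a0 x + 1 ∧ F m a0 x ≤ F m a x + 1}).Finite) →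
      ∃ s q, G m {a | c a = s} q
  | 0, c, _ => ⟨c (), (), (), rfl⟩
  | m + 1, c, hc => by
    classical
    -- the sections
    have hsec : ∀ f : P, ∃ s q, G m {w : T m | c ((f, w) : P × T m) = s} q := by
      intro f
      refine large_class m (fun w : T m => c ((f, w) : P × T m)) ?_
      intro a0
      refine (hc ((f, a0) : P × T m)).subset ?_
      rintro _ ⟨w, hw, rfl⟩
      refine ⟨((f, w) : P × T m), ?_, rfl⟩
      intro x
      simp only [F]
      split_ifs with h
      · omega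
      · exact hw x
    choose s q hsq using hsec
    by_contra hcon
    push Not at hcon
    have hnc : ∀ (y : S) (z : Q m), ¬ Cof {f : P | G m {w : T m | c ((f, w) : P × T m) = y} z} := by
      intro y z hcof
      obtain ⟨t, -, ht⟩ := hcof.exists_good 0
      exact hcon y ((t, z) : Node × Q m) ht
    have hnc' : ∀ y : S, ¬ Cof {f : P | s f = y} := by
      intro y hcof
      refine not_cof_iUnion (hnc y) (hcof.mono ?_)
      intro f hf
      refine Set.mem_iUnion.2 ⟨q f, ?_⟩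
      have hf' : s f = y := hf
      subst hf'
      exact hsq f
    -- apply the core lemma with one index
    obtain ⟨κ, H', n0, h1, h2, h3, h4⟩ := core (ι := Unit) (Q := Q m) (S := S)
      (fun _ f z => G m {w : T m | c ((f, w) : P × T m) = s f} z) (fun _ f => s f)
      (by
        intro j z x hx C
        refine ⟨(), ?_⟩
        have hC : ¬ Cof (⋃ y : C, {f : P | s f = y}) := not_cof_iUnion fun y => hnc' y
        refine (hx.diff hC).mono ?_
        rintro f ⟨hf1, hf2⟩
        refine ⟨hf1, fun hfC => hf2 ?_⟩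
        exact Set.mem_iUnion.2 ⟨⟨s f, hfC⟩, rfl⟩)
      (by
        have hall : Cof (⋃ z : Q m, {f : P | G m {w : T m | c ((f, w) : P × T m) = s f} z}) := by
          intro g
          refine ⟨⟨fun p => (Finset.range (p + 1)).sup g, ?_⟩, ?_, 0, ?_⟩
          · intro p p' hpp
            exact Finset.sup_mono (Finset.range_subset_range.2 (by omega))
          · exact Set.mem_iUnion.2 ⟨q _, hsq _⟩
          · intro p _
            exact Finset.le_sup (f := g) (Finset.mem_range.2 (Nat.lt_succ_self p))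
        have : ∃ z : Q m, Cof {f : P | G m {w : T m | c ((f, w) : P × T m) = s f} z} := by
          by_contra hno
          push Not at hno
          exact not_cof_iUnion hno hall
        obtain ⟨z, hz⟩ := this
        obtain ⟨t, -, ht⟩ := hz.exists_good 0
        exact ⟨(), z, t, ht⟩) (fun _ => 0)
    obtain ⟨n, Hs, hinf⟩ := inductive_lemma m (ι := ℕ) (fun i => s (κ i).2)
      (fun i => {w : T m | c (((κ i).2, w) : P × T m) = s (κ i).2}) h3 h4 H'
    have hfin := finite_on_Ch (m + 1) c hc n (fun _ => 0) ((H', Hs) : (ℕ → ℕ) × B m)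
    refine hinf (hfin.subset ?_)
    rintro _ ⟨i, ⟨w, hw, hch⟩, rfl⟩
    refine ⟨(((κ i).2, w) : P × T m), ⟨fun p _ => Nat.zero_le _, h1 i, hch⟩, hw⟩

/-- the maximum of a tuple -/
def mx : (m : ℕ) → T m → ℕ → ℕ
  | 0, _, _ => 0
  | m + 1, w, p => max (w.1 p) (mx m w.2 p)

theorem F_mx : (m : ℕ) → (w : T m) → (p : ℕ) → F m w (p, mx m w p) = 0
  | 0, _, _ => rfl
  | m + 1, w, p => by
    have : ∀ (m : ℕ) (w : T m) (p k : ℕ), mx m w p ≤ k → F m w (p, k) = 0 := by
      intro m
      induction m with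
      | zero => intros; rfl
      | succ m ih =>
        intro w p k hk
        have h1 : w.1 p ≤ k := (le_max_left _ _).trans hk
        have h2 : mx m w.2 p ≤ k := (le_max_right _ _).trans hk
        simp only [F]
        rw [if_neg (not_lt.2 h1)]
        exact ih w.2 p k h2
    exact this (m + 1) w p _ le_rfl

theorem G_nonempty : (m : ℕ) → (W : Set (T m)) → (q : Q m) → G m W q → W.Nonempty
  | 0, _, _, h => h
  | m + 1, W, q, h => by
    obtain ⟨f, hf, -, -⟩ := h (fun _ => 0)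
    obtain ⟨w, hw⟩ := G_nonempty m _ _ hf
    exact ⟨_, hw⟩

/-- two tuples with the same colour at large distance -/
theorem far_pair {S : Type*} (m : ℕ) (c : T (m + 1) → S)
    (hc : ∀ a0 : T (m + 1), (c '' {a | ∀ x, F (m + 1) a x ≤ F (m + 1) a0 x + 1 ∧
      F (m + 1) a0 x ≤ F (m + 1) a x + 1}).Finite) :
    ∃ a b : T (m + 1), c a = c b ∧ ∃ x, F (m + 1) a x = 0 ∧ F (m + 1) b x = m + 1 := by
  obtain ⟨s, q, hq⟩ := large_class (m + 1) c hc
  obtain ⟨a, ha⟩ := G_nonempty _ _ _ hq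
  obtain ⟨f, hf, -, hfg⟩ := hq (fun p => mx (m + 1) a p + 1)
  obtain ⟨w, hw⟩ := G_nonempty _ _ _ hf
  refine ⟨a, ((f, w) : P × T m), ?_, (q.1.1, mx (m + 1) a q.1.1), F_mx _ _ _, ?_⟩
  · exact (show c a = s from ha).trans (show c ((f, w) : P × T m) = s from hw).symm
  · have h1 := hfg q.1.1 le_rfl
    simp only [F]
    exact if_pos (by show mx (m + 1) a q.1.1 < f q.1.1; omega)

end Pool.Agent.H621R3.C0
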