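import Mathlib
import Pool.Agent.H621R3.C0Core

set_option autoImplicit false
open scoped BoundedContinuousFunction

namespace Pool.Agent.H621R3.C0

/-- the bounded sequence associated with a tuple -/
noncomputable def E (m : ℕ) (a : T m) : ℕ →ᵇ ℝ :=
  BoundedContinuousFunction.ofNormedAddCommGroupDiscrete
    (fun k => ((F m a (Nat.unpair k) : ℕ) : ℝ)) m (by
      intro k
      rw [Real.norm_eq_abs, abs_of_nonneg (Nat.cast_nonneg _)]
      exact_mod_cast F_le m a _)

theorem E_apply (m : ℕ) (a : T m) (k : ℕ) : E m a k = ((F m a (Nat.unpair k) : ℕ) : ℝ) := rfl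

theorem dist_E_le (m : ℕ) (a b : T m) (h : ∀ x, F m a x ≤ F m b x + 1 ∧ F m b x ≤ F m a x + 1) :
    dist (E m a) (E m b) ≤ 1 := by
  rw [BoundedContinuousFunction.dist_le (by norm_num)]
  intro k
  rw [E_apply, E_apply, Real.dist_eq, abs_le]
  obtain ⟨h1, h2⟩ := h (Nat.unpair k)
  have h1' : ((F m a (Nat.unpair k) : ℕ) : ℝ) ≤ (F m b (Nat.unpair k) : ℕ) + 1 := by
    exact_mod_cast h1
  have h2' : ((F m b (Nat.unpair k) : ℕ) : ℝ) ≤ (F m a (Nat.unpair k) : ℕ) + 1 := by
    exact_mod_cast h2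
  constructor <;> linarith

theorem le_dist_E (m : ℕ) (a b : T m) (x : ℕ × ℕ) (h1 : F m a x = 0) (h2 : F m b x = m) :
    (m : ℝ) ≤ dist (E m a) (E m b) := by
  have h := BoundedContinuousFunction.dist_coe_le_dist (f := E m a) (g := E m b)
    (Nat.pair x.1 x.2)
  rw [E_apply, E_apply, Real.dist_eq, Nat.unpair_pair] at h
  rw [h1, h2] at h
  simpa using h

open Classical in
/-- the cell of a real number -/
noncomputable def cell (δ y : ℝ) : Option ℤ := if |y| < 2 * δ then none else some ⌊y / (2 * δ)⌋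

theorem cell_eq {δ y y' : ℝ} (hδ : 0 < δ) (h : cell δ y = cell δ y') : |y - y'| ≤ 4 * δ := by
  unfold cell at h
  split_ifs at h with h1 h2 h2
  · rw [abs_lt] at h1 h2
    rw [abs_le]
    constructor <;> linarith [h1.1, h1.2, h2.1, h2.2]
  · have h3 : ⌊y / (2 * δ)⌋ = ⌊y' / (2 * δ)⌋ := by simpa using h
    have h4 := Int.abs_sub_lt_one_of_floor_eq_floor h3
    have h5 : y / (2 * δ) - y' / (2 * δ) = (y - y') / (2 * δ) := by ring
    rw [h5, abs_div, abs_of_pos (by linarith : (0 : ℝ) < 2 * δ), div_lt_one (by linarith)] at h4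
    linarith

theorem main {Γ : Type*} (f : (ℕ →ᵇ ℝ) → (Γ → ℝ))
    (h0 : ∀ x : ℕ →ᵇ ℝ, ∀ ε : ℝ, 0 < ε → {i : Γ | ε ≤ |f x i|}.Finite)
    (h1 : ∃ S : ℝ, ∀ x y : ℕ →ᵇ ℝ, dist x y ≤ 1 → ∀ i : Γ, |f x i - f y i| ≤ S)
    (h2 : ∀ S : ℝ, ∃ R : ℝ, ∀ x y : ℕ →ᵇ ℝ, (∀ i : Γ, |f x i - f y i| ≤ S) → dist x y ≤ R) :
    False := by
  classical
  obtain ⟨S, hS⟩ := h1
  set δ : ℝ := max S 1 with hδ
  have hδ0 : 0 < δ := lt_of_lt_of_le one_pos (le_max_right _ _)
  have hSδ : ∀ x y : ℕ →ᵇ ℝ, dist x y ≤ 1 → ∀ i : Γ, |f x i - f y i| ≤ δ :=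
    fun x y hxy i => (hS x y hxy i).trans (le_max_left _ _)
  obtain ⟨R, hR⟩ := h2 (4 * δ)
  obtain ⟨r, hr⟩ := exists_nat_gt R
  let c : T (r + 1) → Γ → Option ℤ := fun a i => cell δ (f (E (r + 1) a) i)
  have hc : ∀ a0 : T (r + 1), (c '' {a | ∀ x, F (r + 1) a x ≤ F (r + 1) a0 x + 1 ∧
      F (r + 1) a0 x ≤ F (r + 1) a x + 1}).Finite := by
    intro a0
    set x0 := E (r + 1) a0 with hx0
    have hI : {i : Γ | δ ≤ |f x0 i|}.Finite := h0 x0 δ hδ0
    haveI : Finite {i : Γ | δ ≤ |f x0 i|} := hI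
    -- the possible values
    let V : Γ → Set (Option ℤ) := fun i =>
      insert none (some '' Set.Icc ⌊(-(|f x0 i| + δ)) / (2 * δ)⌋ ⌊(|f x0 i| + δ) / (2 * δ)⌋)
    have hV : ∀ i, (V i).Finite := fun i => ((Set.finite_Icc _ _).image _).insert _
    have hmem : ∀ a ∈ {a : T (r + 1) | ∀ x, F (r + 1) a x ≤ F (r + 1) a0 x + 1 ∧
        F (r + 1) a0 x ≤ F (r + 1) a x + 1}, (∀ i, c a i ∈ V i) ∧
          ∀ i, ¬ δ ≤ |f x0 i| → c a i = none := by
      intro a ha
      have hd : ∀ i, |f (E (r + 1) a) i - f x0 i| ≤ δ := hSδ _ _ (dist_E_le _ a a0 ha)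
      constructor
      · intro i
        have hdi := abs_le.1 (hd i)
        have habs := abs_le.1 (le_refl |f x0 i|)
        by_cases hlt : |f (E (r + 1) a) i| < 2 * δ
        · left
          simp only [c, cell, if_pos hlt]
        · right
          refine ⟨⌊f (E (r + 1) a) i / (2 * δ)⌋, ⟨?_, ?_⟩, ?_⟩
          · apply Int.floor_le_floor
            apply div_le_div_of_nonneg_right _ (by linarith)
            linarith [hdi.1, habs.1]
          · apply Int.floor_le_floor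
            apply div_le_div_of_nonneg_right _ (by linarith)
            linarith [hdi.2, habs.2]
          · simp only [c, cell, if_neg hlt]
      · intro i hi
        have hlt : |f (E (r + 1) a) i| < 2 * δ := by
          have h3 : |f (E (r + 1) a) i| ≤ |f (E (r + 1) a) i - f x0 i| + |f x0 i| := by
            have := abs_add_le (f (E (r + 1) a) i - f x0 i) (f x0 i)
            simpa using this
          have := hd i
          push Not at hi
          linarith
        simp only [c, cell, if_pos hlt]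
    -- restriction to the finite set is injective
    have hfin : (Set.pi Set.univ fun i : {i : Γ | δ ≤ |f x0 i|} => V i).Finite :=
      Set.Finite.pi fun i => hV i
    refine Set.Finite.of_finite_image (f := fun (φ : Γ → Option ℤ)
      (i : {i : Γ | δ ≤ |f x0 i|}) => φ i) (hfin.subset ?_) ?_
    · rintro _ ⟨_, ⟨a, ha, rfl⟩, rfl⟩ i _
      exact (hmem a ha).1 i
    · rintro _ ⟨a, ha, rfl⟩ _ ⟨b, hb, rfl⟩ hab
      funext i
      by_cases hi : δ ≤ |f x0 i|
      · exact congrFun hab ⟨i, hi⟩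
      · rw [(hmem a ha).2 i hi, (hmem b hb).2 i hi]
  obtain ⟨a, b, hab, x, hx1, hx2⟩ := far_pair r c hc
  have h3 : dist (E (r + 1) a) (E (r + 1) b) ≤ R := by
    apply hR
    intro i
    exact cell_eq hδ0 (congrFun hab i)
  have h4 := le_dist_E (r + 1) a b x hx1 hx2
  push_cast at h4
  linarith

end Pool.Agent.H621R3.C0
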