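import Mathlib

set_option autoImplicit false

/-!
Definitions for Lipschitz free `p`-spaces.

A `p`-Banach space (`0 < p ≤ 1`) with `p`-norm `|||y|||` is encoded as a complete normed additive
group `Y` with norm `‖y‖ = |||y|||^p` (subadditive because `|||·|||` is a `p`-norm), which is a real
vector space with `‖c • y‖ = |c|^p ‖y‖`. Conversely for such a `Y` the function
`|||y||| = ‖y‖^(1/p)` is a complete `p`-norm.
-/

namespace Pool.Agent.H621R3.LF

universe u

/-- `Y` is a `p`-Banach space, the norm of `Y` being the `p`-th power of its `p`-norm. -/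
class PBanach (p : ℝ) (Y : Type*) [NormedAddCommGroup Y] [Module ℝ Y] : Prop where
  complete : CompleteSpace Y
  norm_smul : ∀ (c : ℝ) (y : Y), ‖c • y‖ = |c| ^ p * ‖y‖

/-- `F` with the map `δ` is a Lipschitz free `p`-space over the metric space `M` with base point
`base`: `F` is a `p`-Banach space, `δ` is isometric (`|||δ x - δ y||| = d(x,y)`), `δ base = 0`, and
every Lipschitz map `f` (with constant `L`) from `M` into a `p`-Banach space with `f base = 0` has a
unique bounded linear extension through `δ`, which has norm at most `L`. -/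
structure IsLipFree (p : ℝ) {M : Type u} [MetricSpace M] (base : M) {F : Type u}
    [NormedAddCommGroup F] [Module ℝ F] (δ : M → F) : Prop where
  pbanach : PBanach p F
  isometric : ∀ x y, ‖δ x - δ y‖ = dist x y ^ p
  map_base : δ base = 0
  lift : ∀ (Y : Type u) [NormedAddCommGroup Y] [Module ℝ Y], PBanach p Y →
    ∀ (f : M → Y) (L : ℝ), 0 ≤ L → f base = 0 → (∀ x y, ‖f x - f y‖ ≤ (L * dist x y) ^ p) →
      ∃ T : F →L[ℝ] Y, (∀ x, T (δ x) = f x) ∧ ∀ v, ‖T v‖ ≤ L ^ p * ‖v‖
  unique : ∀ (Y : Type u) [NormedAddCommGroup Y] [Module ℝ Y], PBanach p Y →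
    ∀ T T' : F →L[ℝ] Y, (∀ x, T (δ x) = T' (δ x)) → T = T'

/-- The space `ℓ_p(Y)` of sequences `(y_n)` in `Y` with `∑ |||y_n|||^p < ∞`; its norm is
`∑ ‖y_n‖ = ∑ |||y_n|||^p`, the `p`-th power of the `p`-norm of `ℓ_p(Y)`. -/
def EllP (_p : ℝ) (Y : Type*) [NormedAddCommGroup Y] : Type _ := lp (fun _ : ℕ => Y) 1

/-- A net in `X`: uniformly discrete and coarsely dense. -/
def IsNet {X : Type*} [NormedAddCommGroup X] (N : Set X) : Prop :=
  ∃ a b : ℝ, 0 < a ∧ a ≤ b ∧ (∀ x ∈ N, ∀ y ∈ N, x ≠ y → a ≤ ‖x - y‖) ∧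
    ∀ v : X, ∃ y ∈ N, ‖v - y‖ ≤ b

section EllP

variable {p : ℝ} {Y : Type*} [NormedAddCommGroup Y]

noncomputable instance : NormedAddCommGroup (EllP p Y) :=
  (lp.normedAddCommGroup : NormedAddCommGroup (lp (fun _ : ℕ => Y) 1))

instance : CoeFun (EllP p Y) fun _ => ℕ → Y := ⟨fun f => f.1⟩

theorem EllP.ext {f g : EllP p Y} (h : ∀ n, f n = g n) : f = g := Subtype.ext (funext h)

theorem EllP.summable (f : EllP p Y) : Summable fun n => ‖f n‖ := by
  have h := (lp.memℓp (E := fun _ : ℕ => Y) (p := 1) f).summable (by norm_num)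
  simp only [ENNReal.toReal_one, Real.rpow_one] at h
  exact h

/-- the sequence space element with given coordinates -/
def EllP.mk' (f : ℕ → Y) (hf : Summable fun n => ‖f n‖) : EllP p Y :=
  ⟨f, memℓp_gen (by simpa using hf)⟩

theorem EllP.mk'_apply (f : ℕ → Y) (hf : Summable fun n => ‖f n‖) (n : ℕ) :
    (EllP.mk' f hf : EllP p Y) n = f n := rfl

theorem EllP.norm_eq (f : EllP p Y) : ‖f‖ = ∑' n, ‖f n‖ := by
  have h := lp.norm_eq_tsum_rpow (E := fun _ : ℕ => Y) (p := 1) (by norm_num) f
  simp only [ENNReal.toReal_one, Real.rpow_one, div_one] at h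
  exact h

theorem EllP.add_apply (f g : EllP p Y) (n : ℕ) : (f + g) n = f n + g n := rfl
theorem EllP.sub_apply (f g : EllP p Y) (n : ℕ) : (f - g) n = f n - g n := rfl
theorem EllP.zero_apply (n : ℕ) : (0 : EllP p Y) n = 0 := rfl

variable [Module ℝ Y] [PBanach p Y]

noncomputable instance : SMul ℝ (EllP p Y) :=
  ⟨fun c f => EllP.mk' (fun n => c • f n) (by
    simp only [PBanach.norm_smul (p := p)]
    exact f.summable.mul_left _)⟩

theorem EllP.smul_apply (c : ℝ) (f : EllP p Y) (n : ℕ) : (c • f) n = c • f n := rfl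

noncomputable instance : Module ℝ (EllP p Y) where
  one_smul f := EllP.ext fun n => one_smul ℝ (f n)
  mul_smul c d f := EllP.ext fun n => mul_smul c d (f n)
  smul_zero c := EllP.ext fun _ => smul_zero c
  smul_add c f g := EllP.ext fun n => smul_add c (f n) (g n)
  add_smul c d f := EllP.ext fun n => add_smul c d (f n)
  zero_smul f := EllP.ext fun n => zero_smul ℝ (f n)

instance : PBanach p (EllP p Y) where
  complete := by
    have : CompleteSpace Y := PBanach.complete p
    exact inferInstanceAs (CompleteSpace (lp (fun _ : ℕ => Y) 1))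
  norm_smul c f := by
    rw [EllP.norm_eq, EllP.norm_eq, ← tsum_mul_left]
    exact tsum_congr fun n => PBanach.norm_smul c (f n)

end EllP

end Pool.Agent.H621R3.LF
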