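import Mathlib
import Pool.Agent.H621R3.LFDefs

set_option autoImplicit false
set_option linter.unusedSectionVars false

/-!
Operators on `ℓ_p(Y)` and the Pelczynski decomposition.
-/

namespace Pool.Agent.H621R3.LF

variable {p : ℝ} {Y Z : Type*} [NormedAddCommGroup Y] [Module ℝ Y]
  [NormedAddCommGroup Z] [Module ℝ Z]

/-- a bounded linear map -/
def mkC (T : Y →ₗ[ℝ] Z) (C : ℝ) (h : ∀ y, ‖T y‖ ≤ C * ‖y‖) : Y →L[ℝ] Z :=
  ⟨T, AddMonoidHomClass.continuous_of_bound T C h⟩

theorem mkC_apply (T : Y →ₗ[ℝ] Z) (C : ℝ) (h : ∀ y, ‖T y‖ ≤ C * ‖y‖) (y : Y) :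
    mkC T C h y = T y := rfl

/-- a continuous linear map between `p`-Banach spaces is bounded -/
theorem exists_bound (hp : 0 < p) [PBanach p Y] [PBanach p Z] (T : Y →L[ℝ] Z) :
    ∃ C : ℝ, 0 ≤ C ∧ ∀ y, ‖T y‖ ≤ C * ‖y‖ := by
  have hc := T.continuous.tendsto 0
  rw [map_zero, Metric.tendsto_nhds_nhds] at hc
  obtain ⟨d, hd, hT⟩ := hc 1 one_pos
  refine ⟨2 / d, by positivity, fun y => ?_⟩
  rcases eq_or_ne y 0 with rfl | hy
  · simp
  have hy' : 0 < ‖y‖ := norm_pos_iff.2 hy
  -- scale `y` to norm `d/2`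
  set c : ℝ := (d / 2 / ‖y‖) ^ (1 / p) with hc
  have hcp : |c| ^ p = d / 2 / ‖y‖ := by
    rw [abs_of_nonneg (by positivity), hc, ← Real.rpow_mul (by positivity), one_div,
      inv_mul_cancel₀ hp.ne', Real.rpow_one]
  have h1 : ‖c • y‖ = d / 2 := by
    rw [PBanach.norm_smul (p := p), hcp]
    field_simp
  have h2 := hT (x := c • y) (by rw [dist_zero_right, h1]; linarith)
  rw [dist_zero_right, map_smul, PBanach.norm_smul (p := p), hcp] at h2
  have h3 : d / 2 / ‖y‖ * ‖T y‖ = ‖T y‖ * (d / (2 * ‖y‖)) := by field_simp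
  rw [h3] at h2
  have h4 : ‖T y‖ < 1 / (d / (2 * ‖y‖)) := by
    rw [lt_div_iff₀ (by positivity)]
    exact h2
  have h5 : 1 / (d / (2 * ‖y‖)) = 2 / d * ‖y‖ := by field_simp
  rw [h5] at h4
  exact h4.le

section

variable [PBanach p Y] [PBanach p Z]

theorem EllP.norm_coord_le (f : EllP p Y) (n : ℕ) : ‖f n‖ ≤ ‖f‖ := by
  rw [EllP.norm_eq]
  exact f.summable.le_tsum n (fun _ _ => norm_nonneg _)

/-- coordinates -/
noncomputable def coord (n : ℕ) : EllP p Y →L[ℝ] Y :=
  mkC { toFun := fun f => f n, map_add' := fun _ _ => rfl, map_smul' := fun _ _ => rfl } 1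
    (fun f => by rw [one_mul]; exact f.norm_coord_le n)

theorem coord_apply (n : ℕ) (f : EllP p Y) : coord n f = f n := rfl

/-- a bounded linear map into `ℓ_p(Z)` from its coordinates -/
noncomputable def mkSeq (T : ℕ → (Y →L[ℝ] Z)) (C : ℝ)
    (h : ∀ y, Summable (fun n => ‖T n y‖) ∧ ∑' n, ‖T n y‖ ≤ C * ‖y‖) : Y →L[ℝ] EllP p Z :=
  mkC { toFun := fun y => EllP.mk' (fun n => T n y) (h y).1
        map_add' := fun y y' => EllP.ext fun n => map_add (T n) y y'
        map_smul' := fun c y => EllP.ext fun n => map_smul (T n) c y } C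
    (fun y => by
      rw [EllP.norm_eq]
      exact (h y).2)

theorem mkSeq_apply (T : ℕ → (Y →L[ℝ] Z)) (C : ℝ)
    (h : ∀ y, Summable (fun n => ‖T n y‖) ∧ ∑' n, ‖T n y‖ ≤ C * ‖y‖) (y : Y) (n : ℕ) :
    (mkSeq T C h y : EllP p Z) n = T n y := rfl

/-- a bounded linear map out of `ℓ_p(Y)` from uniformly bounded maps -/
noncomputable def sumMap (S : ℕ → (Y →L[ℝ] Z)) (C : ℝ) (h : ∀ n y, ‖S n y‖ ≤ C * ‖y‖) :
    EllP p Y →L[ℝ] Z :=
  have hs : ∀ f : EllP p Y, Summable fun n => ‖S n (f n)‖ := fun f =>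
    (f.summable.mul_left C).of_nonneg_of_le (fun _ => norm_nonneg _) fun n => h n (f n)
  have : CompleteSpace Z := PBanach.complete p
  mkC { toFun := fun f => ∑' n, S n (f n)
        map_add' := fun f g => by
          rw [← (hs f).of_norm.tsum_add (hs g).of_norm]
          exact tsum_congr fun n => map_add (S n) (f n) (g n)
        map_smul' := fun c f => by
          have hcont : Continuous fun z : Z => c • z := by
            have : Continuous ((LinearMap.lsmul ℝ Z c).toAddMonoidHom) :=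
              AddMonoidHomClass.continuous_of_bound (LinearMap.lsmul ℝ Z c).toAddMonoidHom
                (|c| ^ p) (fun z => (PBanach.norm_smul c z).le)
            exact this
          have h1 := ((hs f).of_norm.hasSum).map (LinearMap.lsmul ℝ Z c).toAddMonoidHom hcont
          have h2 : (∑' n, S n ((c • f) n)) = c • ∑' n, S n (f n) := by
            refine HasSum.tsum_eq ?_
            refine h1.congr_fun ?_
            intro n
            exact (map_smul (S n) c (f n))
          exact h2 } C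
    (fun f => by
      have h1 : ‖∑' n, S n (f n)‖ ≤ ∑' n, ‖S n (f n)‖ := norm_tsum_le_tsum_norm (hs f)
      refine h1.trans ?_
      rw [EllP.norm_eq, ← tsum_mul_left]
      exact (hs f).tsum_le_tsum (fun n => h n (f n)) (f.summable.mul_left C))

theorem sumMap_apply (S : ℕ → (Y →L[ℝ] Z)) (C : ℝ) (h : ∀ n y, ‖S n y‖ ≤ C * ‖y‖)
    (f : EllP p Y) : sumMap S C h f = ∑' n, S n (f n) := rfl

/-- coordinate embeddings -/
noncomputable def inj (i : ℕ) : Y →L[ℝ] EllP p Y :=
  mkSeq (fun n => if n = i then ContinuousLinearMap.id ℝ Y else 0) 1 (fun y => by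
    have h : ∀ n, n ≠ i → ‖(if n = i then ContinuousLinearMap.id ℝ Y else 0 : Y →L[ℝ] Y) y‖ = 0 := by
      intro n hn
      rw [if_neg hn]
      simp
    refine ⟨summable_of_ne_finset_zero (s := {i}) (fun n hn => h n (by simpa using hn)), ?_⟩
    rw [tsum_eq_single i h, if_pos rfl]
    simp)

theorem inj_apply (i : ℕ) (y : Y) (n : ℕ) :
    (inj i y : EllP p Y) n = if n = i then y else 0 := by
  unfold inj
  rw [mkSeq_apply]
  split_ifs <;> rfl

theorem norm_inj (i : ℕ) (y : Y) : ‖(inj i y : EllP p Y)‖ = ‖y‖ := by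
  rw [EllP.norm_eq, tsum_eq_single i]
  · rw [inj_apply, if_pos rfl]
  · intro n hn
    rw [inj_apply, if_neg hn, norm_zero]

/-- the sum of the coordinate embeddings -/
theorem hasSum_inj (f : EllP p Y) : HasSum (fun i => (inj i (f i) : EllP p Y)) f := by
  have hs : Summable fun i => (inj i (f i) : EllP p Y) := by
    have : CompleteSpace (EllP p Y) := PBanach.complete p
    refine Summable.of_norm ?_
    simp only [norm_inj]
    exact f.summable
  have h1 : ∑' i, (inj i (f i) : EllP p Y) = f := by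
    refine EllP.ext fun n => ?_
    have h2 : coord n (∑' i, (inj i (f i) : EllP p Y)) = ∑' i, coord n (inj i (f i) : EllP p Y) :=
      (coord (p := p) (Y := Y) n).map_tsum hs
    rw [coord_apply] at h2
    rw [h2, tsum_eq_single n]
    · rw [coord_apply, inj_apply, if_pos rfl]
    · intro i hi
      rw [coord_apply, inj_apply, if_neg (Ne.symm hi)]
  have h3 := hs.hasSum
  rw [h1] at h3
  exact h3

/-- two maps out of `ℓ_p(Y)` which agree on the coordinate embeddings are equal -/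
theorem ext_inj {T T' : EllP p Y →L[ℝ] Z} (h : ∀ i y, T (inj i y) = T' (inj i y)) : T = T' := by
  ext f
  have h1 := (hasSum_inj f).mapL T
  have h2 := (hasSum_inj f).mapL T'
  simp only [h] at h1
  exact h1.unique h2

theorem sumMap_inj (S : ℕ → (Y →L[ℝ] Z)) (C : ℝ) (h : ∀ n y, ‖S n y‖ ≤ C * ‖y‖) (i : ℕ) (y : Y) :
    sumMap S C h (inj i y : EllP p Y) = S i y := by
  rw [sumMap_apply, tsum_eq_single i]
  · rw [inj_apply, if_pos rfl]
  · intro n hn
    rw [inj_apply, if_neg hn, map_zero]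

/-- coordinatewise application of an operator -/
noncomputable def mapE (hp : 0 < p) (Q : Y →L[ℝ] Z) : EllP p Y →L[ℝ] EllP p Z :=
  mkSeq (fun n => Q.comp (coord n)) (exists_bound hp Q).choose (fun f => by
    have hC := (exists_bound hp Q).choose_spec.2
    have h1 : Summable fun n => (exists_bound hp Q).choose * ‖f n‖ := f.summable.mul_left _
    have h2 : Summable fun n => ‖(Q.comp (coord n)) f‖ :=
      h1.of_nonneg_of_le (fun _ => norm_nonneg _) fun n => hC (f n)
    refine ⟨h2, ?_⟩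
    rw [EllP.norm_eq, ← tsum_mul_left]
    exact h2.tsum_le_tsum (fun n => hC (f n)) h1)

theorem mapE_apply (hp : 0 < p) (Q : Y →L[ℝ] Z) (f : EllP p Y) (n : ℕ) :
    (mapE hp Q f : EllP p Z) n = Q (f n) := rfl

/-- left shift -/
noncomputable def shiftL : EllP p Y →L[ℝ] EllP p Y :=
  mkSeq (fun n => coord (n + 1)) 1 (fun f => by
    have h1 : Summable fun n => ‖f (n + 1)‖ := (summable_nat_add_iff 1).2 f.summable
    refine ⟨h1, ?_⟩
    rw [one_mul, EllP.norm_eq, f.summable.tsum_eq_zero_add]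
    have := norm_nonneg (f 0)
    show ∑' n, ‖f (n + 1)‖ ≤ _
    linarith)

theorem shiftL_apply (f : EllP p Y) (n : ℕ) : (shiftL f : EllP p Y) n = f (n + 1) := rfl

/-- right shift -/
noncomputable def shiftR : EllP p Y →L[ℝ] EllP p Y :=
  mkSeq (fun n => match n with
    | 0 => 0
    | n + 1 => coord n) 1 (fun f => by
    have h1 : Summable fun n : ℕ => ‖(match n with
        | 0 => (0 : EllP p Y →L[ℝ] Y)
        | n + 1 => coord n) f‖ := by
      rw [← summable_nat_add_iff 1]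
      exact f.summable
    refine ⟨h1, ?_⟩
    rw [one_mul, h1.tsum_eq_zero_add, EllP.norm_eq]
    simp only [zero_apply, norm_zero, zero_add]
    exact le_rfl)

theorem shiftR_zero (f : EllP p Y) : (shiftR f : EllP p Y) 0 = 0 := rfl

theorem shiftR_succ (f : EllP p Y) (n : ℕ) : (shiftR f : EllP p Y) (n + 1) = f n := rfl

/-- **Pelczynski decomposition**: if `ℓ_p(Y)` is isomorphic to a complemented subspace of `Y`, then
`Y` is isomorphic to `ℓ_p(Y)`. -/
theorem pelczynski (hp : 0 < p) (S : EllP p Y →L[ℝ] Y) (R : Y →L[ℝ] EllP p Y)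
    (hRS : ∀ w, R (S w) = w) : Nonempty (Y ≃L[ℝ] EllP p Y) := by
  let Q : Y →L[ℝ] Y := S.comp R
  let mQ : EllP p Y →L[ℝ] EllP p Y := mapE hp Q
  have hQ : ∀ y, Q y = S (R y) := fun _ => rfl
  have hQQ : ∀ y, Q (Q y) = Q y := fun y => by rw [hQ, hQ, hRS]
  have hmQ : ∀ (w : EllP p Y) n, mQ w n = Q (w n) := fun _ _ => rfl
  let Ψ : Y →L[ℝ] EllP p Y :=
    (inj 0).comp (ContinuousLinearMap.id ℝ Y - Q) + (shiftR.comp (ContinuousLinearMap.id ℝ _ - mQ) + mQ).comp R
  let Θ : EllP p Y →L[ℝ] Y :=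
    S.comp (mQ + shiftL.comp (ContinuousLinearMap.id ℝ _ - mQ)) +
      (ContinuousLinearMap.id ℝ Y - Q).comp (coord 0)
  have hΨ0 : ∀ y, Ψ y 0 = (y - Q y) + Q (R y 0) := by
    intro y
    show ((inj 0 (y - Q y) : EllP p Y) 0) + ((shiftR (R y - mQ (R y)) : EllP p Y) 0 + mQ (R y) 0) = _
    rw [inj_apply, if_pos rfl, shiftR_zero, hmQ, zero_add]
  have hΨs : ∀ y n, Ψ y (n + 1) = (R y n - Q (R y n)) + Q (R y (n + 1)) := by
    intro y n
    show ((inj 0 (y - Q y) : EllP p Y) (n + 1)) +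
      ((shiftR (R y - mQ (R y)) : EllP p Y) (n + 1) + mQ (R y) (n + 1)) = _
    rw [inj_apply, if_neg (Nat.succ_ne_zero n), shiftR_succ, hmQ, zero_add]
    rfl
  let W : EllP p Y → EllP p Y := fun u => mQ u + shiftL (u - mQ u)
  have hW : ∀ u n, W u n = Q (u n) + (u (n + 1) - Q (u (n + 1))) := fun u n => rfl
  have hΘ : ∀ u, Θ u = S (W u) + (u 0 - Q (u 0)) := fun u => rfl
  have h1 : ∀ y, Θ (Ψ y) = y := by
    intro y
    have hQ0 : Q (Ψ y 0) = Q (R y 0) := by
      rw [hΨ0, map_add, map_sub, hQQ, hQQ, sub_self, zero_add]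
    have hQs : ∀ n, Q (Ψ y (n + 1)) = Q (R y (n + 1)) := by
      intro n
      rw [hΨs, map_add, map_sub, hQQ, hQQ, sub_self, zero_add]
    have hQn : ∀ n, Q (Ψ y n) = Q (R y n) := by
      intro n
      cases n with
      | zero => exact hQ0
      | succ n => exact hQs n
    have hWy : W (Ψ y) = R y := by
      refine EllP.ext fun n => ?_
      rw [hW, hQn, hQs, hΨs]
      abel
    rw [hΘ, hWy, hQ0, hΨ0, ← hQ]
    abel
  have h2 : ∀ u, Ψ (Θ u) = u := by
    intro u
    have hR : R (Θ u) = W u := by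
      rw [hΘ, map_add, map_sub, hRS, hQ, hRS, sub_self, add_zero]
    have hQΘ : Q (Θ u) = S (W u) := by rw [hQ, hR]
    have hQW : ∀ n, Q (W u n) = Q (u n) := by
      intro n
      rw [hW, map_add, map_sub, hQQ, hQQ, sub_self, add_zero]
    refine EllP.ext fun n => ?_
    cases n with
    | zero =>
      rw [hΨ0, hQΘ, hR, hQW, hΘ]
      abel
    | succ n =>
      rw [hΨs, hR, hQW, hQW, hW]
      abel
  exact ⟨ContinuousLinearEquiv.equivOfInverse Ψ Θ h1 h2⟩

end

end Pool.Agent.H621R3.LF
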