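import Mathlib
import Pool.Agent.H621R3.LFDefs

set_option autoImplicit false
set_option linter.unusedSectionVars false

/-!
Existence of Lipschitz free `p`-spaces.
-/

namespace Pool.Agent.H621R3.LF

universe u

open UniformSpace

section Gauge

variable {p : ℝ} {M : Type u} [MetricSpace M]

/-- admissible `p`-th powers of `p`-seminorms on finitely supported functions -/
structure Good (p : ℝ) (base : M) (q : (M →₀ ℝ) → ℝ) : Prop where
  nonneg : ∀ v, 0 ≤ q v
  add_le : ∀ v w, q (v + w) ≤ q v + q w
  smul : ∀ (c : ℝ) v, q (c • v) = |c| ^ p * q v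
  le : ∀ x y, q (Finsupp.single x 1 - Finsupp.single y 1) ≤ dist x y ^ p
  map_base : q (Finsupp.single base 1) = 0

theorem good_zero (base : M) : Good p base (fun _ => 0) where
  nonneg _ := le_rfl
  add_le _ _ := by simp
  smul _ _ := by simp
  le _ _ := by positivity
  map_base := rfl

instance (base : M) : Nonempty {q : (M →₀ ℝ) → ℝ // Good p base q} := ⟨⟨_, good_zero base⟩⟩

theorem Good.single_le {base : M} {q : (M →₀ ℝ) → ℝ} (h : Good p base q) (x : M) (c : ℝ) :
    q (Finsupp.single x c) ≤ |c| ^ p * dist x base ^ p := by
  have h1 : (Finsupp.single x c : M →₀ ℝ) = c • Finsupp.single x 1 := by simp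
  rw [h1, h.smul]
  refine mul_le_mul_of_nonneg_left ?_ (by positivity)
  have h2 : (Finsupp.single x 1 : M →₀ ℝ) =
      (Finsupp.single x 1 - Finsupp.single base 1) + Finsupp.single base 1 := by abel
  rw [h2]
  have h3 := h.add_le (Finsupp.single x 1 - Finsupp.single base 1) (Finsupp.single base 1)
  have h4 := h.le x base
  rw [h.map_base] at h3
  linarith

theorem gauge_bdd (hp : 0 < p) (base : M) (v : M →₀ ℝ) :
    BddAbove (Set.range fun q : {q : (M →₀ ℝ) → ℝ // Good p base q} => q.1 v) := by
  have h : ∃ B : ℝ, ∀ q : {q : (M →₀ ℝ) → ℝ // Good p base q}, q.1 v ≤ B := by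
    induction v using Finsupp.induction_linear with
    | zero =>
      refine ⟨0, fun q => ?_⟩
      have h1 := q.2.smul 0 0
      rw [abs_zero, Real.zero_rpow hp.ne', zero_mul, smul_zero] at h1
      exact h1.le
    | add f g hf hg =>
      obtain ⟨B, hB⟩ := hf
      obtain ⟨B', hB'⟩ := hg
      exact ⟨B + B', fun q => (q.2.add_le f g).trans (add_le_add (hB q) (hB' q))⟩
    | single a c => exact ⟨_, fun q => q.2.single_le a c⟩
  obtain ⟨B, hB⟩ := h
  exact ⟨B, by rintro _ ⟨q, rfl⟩; exact hB q⟩

/-- the largest admissible function -/
noncomputable def gauge' (p : ℝ) (base : M) (v : M →₀ ℝ) : ℝ :=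
  ⨆ q : {q : (M →₀ ℝ) → ℝ // Good p base q}, q.1 v

theorem Good.le_gauge (hp : 0 < p) {base : M} {q : (M →₀ ℝ) → ℝ} (h : Good p base q)
    (v : M →₀ ℝ) : q v ≤ gauge' p base v :=
  le_ciSup (gauge_bdd hp base v) ⟨q, h⟩

theorem good_gauge (hp : 0 < p) (base : M) : Good p base (gauge' p base) where
  nonneg v := (good_zero base).le_gauge hp v
  add_le v w := by
    refine ciSup_le fun q => ?_
    exact (q.2.add_le v w).trans (add_le_add (q.2.le_gauge hp v) (q.2.le_gauge hp w))
  smul c v := by
    unfold gauge'
    rw [Real.mul_iSup_of_nonneg (by positivity)]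
    exact iSup_congr fun q => q.2.smul c v
  le x y := ciSup_le fun q => q.2.le x y
  map_base := by
    refine le_antisymm (ciSup_le fun q => q.2.map_base.le) ?_
    exact (good_zero base).le_gauge hp _

/-- pulling back along a Lipschitz map -/
theorem good_of_lip {base : M} {Y : Type*} [NormedAddCommGroup Y] [Module ℝ Y]
    [PBanach p Y] (f : M → Y) (h0 : f base = 0) (hf : ∀ x y, ‖f x - f y‖ ≤ dist x y ^ p) :
    Good p base (fun v => ‖Finsupp.linearCombination ℝ f v‖) where
  nonneg _ := norm_nonneg _
  add_le v w := by
    rw [map_add]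
    exact norm_add_le _ _
  smul c v := by rw [map_smul, PBanach.norm_smul (p := p)]
  le x y := by
    rw [map_sub, Finsupp.linearCombination_single, Finsupp.linearCombination_single, one_smul,
      one_smul]
    exact hf x y
  map_base := by rw [Finsupp.linearCombination_single, h0, smul_zero, norm_zero]

theorem good_dist (hp : 0 < p) (hp1 : p ≤ 1) (base y : M) :
    Good p base (fun v =>
      |Finsupp.linearCombination ℝ (fun z => dist z y - dist base y) v| ^ p) where
  nonneg _ := by positivity
  add_le v w := by
    rw [map_add]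
    refine (Real.rpow_le_rpow (abs_nonneg _) (abs_add_le _ _) hp.le).trans ?_
    exact Real.rpow_add_le_add_rpow (abs_nonneg _) (abs_nonneg _) hp.le hp1
  smul c v := by
    rw [map_smul, smul_eq_mul, abs_mul, Real.mul_rpow (abs_nonneg _) (abs_nonneg _)]
  le x z := by
    rw [map_sub, Finsupp.linearCombination_single, Finsupp.linearCombination_single, one_smul,
      one_smul, sub_sub_sub_cancel_right]
    exact Real.rpow_le_rpow (abs_nonneg _) (abs_dist_sub_le x z y) hp.le
  map_base := by
    rw [Finsupp.linearCombination_single, sub_self, smul_zero, abs_zero, Real.zero_rpow hp.ne']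

theorem gauge_neg (hp : 0 < p) (base : M) (v : M →₀ ℝ) : gauge' p base (-v) = gauge' p base v := by
  have h1 := (good_gauge hp base).smul (-1) v
  rw [abs_neg, abs_one, Real.one_rpow, one_mul, neg_one_smul] at h1
  exact h1

theorem gauge_isometric (hp : 0 < p) (hp1 : p ≤ 1) (base x y : M) :
    gauge' p base (Finsupp.single x 1 - Finsupp.single y 1) = dist x y ^ p := by
  refine le_antisymm ((good_gauge hp base).le x y) ?_
  have h1 := (good_dist hp hp1 base y).le_gauge hp (Finsupp.single x 1 - Finsupp.single y 1)
  rw [map_sub, Finsupp.linearCombination_single, Finsupp.linearCombination_single, one_smul,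
    one_smul, sub_sub_sub_cancel_right, dist_self, sub_zero, abs_of_nonneg dist_nonneg] at h1
  exact h1

end Gauge

section Space

variable {p : ℝ} {M : Type u} [MetricSpace M]

/-- finitely supported functions with the `p`-norm -/
def PreFree (p : ℝ) (_hp : 0 < p) (_base : M) : Type u := M →₀ ℝ

variable {hp : 0 < p} {base : M}

noncomputable instance : AddCommGroup (PreFree p hp base) :=
  inferInstanceAs (AddCommGroup (M →₀ ℝ))
noncomputable instance : Module ℝ (PreFree p hp base) := inferInstanceAs (Module ℝ (M →₀ ℝ))

noncomputable instance : SeminormedAddCommGroup (PreFree p hp base) :=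
  AddGroupSeminorm.toSeminormedAddCommGroup
    { toFun := gauge' p base
      map_zero' := by
        have h1 := (good_gauge hp base).smul 0 0
        rw [abs_zero, Real.zero_rpow hp.ne', zero_mul, smul_zero] at h1
        exact h1
      add_le' := (good_gauge hp base).add_le
      neg' := fun v => gauge_neg hp base v }

theorem PreFree.norm_eq (v : PreFree p hp base) : ‖v‖ = gauge' p base v := rfl

theorem PreFree.norm_smul' (c : ℝ) (v : PreFree p hp base) : ‖c • v‖ = |c| ^ p * ‖v‖ :=
  (good_gauge hp base).smul c v

instance : UniformContinuousConstSMul ℝ (PreFree p hp base) where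
  uniformContinuous_const_smul c := by
    have h : LipschitzWith (Real.toNNReal (|c| ^ p)) fun v : PreFree p hp base => c • v := by
      refine LipschitzWith.of_dist_le_mul fun v w => ?_
      rw [dist_eq_norm, dist_eq_norm, ← smul_sub, PreFree.norm_smul',
        Real.coe_toNNReal _ (by positivity)]
    exact h.uniformContinuous

theorem continuous_csmul {Y : Type*} [NormedAddCommGroup Y] [Module ℝ Y] [PBanach p Y] (c : ℝ) :
    Continuous fun y : Y => c • y := by
  have h : LipschitzWith (Real.toNNReal (|c| ^ p)) fun v : Y => c • v := by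
    refine LipschitzWith.of_dist_le_mul fun v w => ?_
    rw [dist_eq_norm, dist_eq_norm, ← smul_sub, PBanach.norm_smul (p := p),
      Real.coe_toNNReal _ (by positivity)]
  exact h.continuous

/-- the identity map -/
def toPF (hp : 0 < p) (base : M) (v : M →₀ ℝ) : PreFree p hp base := v

/-- the embedding of the finitely supported functions -/
noncomputable def emb (hp : 0 < p) (base : M) (v : M →₀ ℝ) : Completion (PreFree p hp base) :=
  (toPF hp base v : Completion (PreFree p hp base))

theorem emb_zero : emb hp base 0 = 0 := Completion.coe_zero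
theorem emb_add (v w : M →₀ ℝ) : emb hp base (v + w) = emb hp base v + emb hp base w :=
  Completion.coe_add (toPF hp base v) (toPF hp base w)
theorem emb_sub (v w : M →₀ ℝ) : emb hp base (v - w) = emb hp base v - emb hp base w :=
  Completion.coe_sub (toPF hp base v) (toPF hp base w)
theorem emb_smul (c : ℝ) (v : M →₀ ℝ) : emb hp base (c • v) = c • emb hp base v :=
  Completion.coe_smul c (toPF hp base v)
theorem norm_emb (v : M →₀ ℝ) : ‖emb hp base v‖ = gauge' p base v :=
  Completion.norm_coe (toPF hp base v)

theorem emb_induction {P : Completion (PreFree p hp base) → Prop}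
    (v : Completion (PreFree p hp base)) (hc : IsClosed {v | P v}) (h : ∀ w, P (emb hp base w)) :
    P v :=
  Completion.induction_on v hc h

/-- the canonical embedding -/
noncomputable def dirac (hp : 0 < p) (base : M) (x : M) : Completion (PreFree p hp base) :=
  emb hp base (Finsupp.single x 1)

instance : PBanach p (Completion (PreFree p hp base)) where
  complete := inferInstance
  norm_smul c v := by
    refine Completion.induction_on v ?_ ?_
    · refine isClosed_eq ?_ ?_
      · exact continuous_norm.comp (continuous_const_smul c)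
      · exact continuous_const.mul continuous_norm
    · intro v
      rw [← Completion.coe_smul, Completion.norm_coe, Completion.norm_coe, PreFree.norm_smul']

theorem coe_induction {Y : Type*} [NormedAddCommGroup Y] [Module ℝ Y]
    (T T' : Completion (PreFree p hp base) →L[ℝ] Y)
    (h : ∀ x, T (dirac hp base x) = T' (dirac hp base x)) : T = T' := by
  ext v
  refine emb_induction v (isClosed_eq T.continuous T'.continuous) ?_
  intro w
  induction w using Finsupp.induction_linear with
  | zero => rw [emb_zero, map_zero, map_zero]
  | add f g hf hg => rw [emb_add, map_add, map_add, hf, hg]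
  | single a c =>
    have h1 : (Finsupp.single a c : M →₀ ℝ) = c • Finsupp.single a 1 := by simp
    rw [h1, emb_smul, map_smul, map_smul]
    congr 1
    exact h a

theorem lin_bound {Y : Type*} [NormedAddCommGroup Y] [Module ℝ Y] [PBanach p Y] (hp : 0 < p)
    (f : M → Y) (L : ℝ) (hL : 0 ≤ L) (h0 : f base = 0)
    (hf : ∀ x y, ‖f x - f y‖ ≤ (L * dist x y) ^ p) (v : M →₀ ℝ) :
    ‖Finsupp.linearCombination ℝ f v‖ ≤ L ^ p * gauge' p base v := by
  rcases hL.eq_or_lt with h | hLpos
  · subst h
    have hz : ∀ x, f x = 0 := by
      intro x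
      have := hf x base
      rw [zero_mul, Real.zero_rpow hp.ne', h0, sub_zero] at this
      simpa using this
    have : Finsupp.linearCombination ℝ f v = 0 := by
      rw [Finsupp.linearCombination_apply]
      exact Finset.sum_eq_zero fun x _ => by
        show v x • f x = 0
        rw [hz, smul_zero]
    rw [this, norm_zero]
    have := (good_gauge hp base).nonneg v
    positivity
  · have hg : Good p base (fun v => ‖Finsupp.linearCombination ℝ (fun x => L⁻¹ • f x) v‖) := by
      refine good_of_lip _ (by rw [h0, smul_zero]) fun x y => ?_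
      rw [← smul_sub, PBanach.norm_smul (p := p)]
      refine (mul_le_mul_of_nonneg_left (hf x y) (by positivity)).trans (le_of_eq ?_)
      rw [abs_of_pos (by positivity), ← Real.mul_rpow (by positivity) (by positivity)]
      congr 1
      field_simp
    have h1 := hg.le_gauge hp v
    have h2 : Finsupp.linearCombination ℝ (fun x => L⁻¹ • f x) v =
        L⁻¹ • Finsupp.linearCombination ℝ f v := by
      rw [Finsupp.linearCombination_apply, Finsupp.linearCombination_apply, Finsupp.smul_sum]
      refine Finset.sum_congr rfl fun x _ => ?_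
      exact smul_comm _ _ _
    rw [h2, PBanach.norm_smul (p := p)] at h1
    have h3 : L ^ p * (|L⁻¹| ^ p * ‖Finsupp.linearCombination ℝ f v‖) =
        ‖Finsupp.linearCombination ℝ f v‖ := by
      rw [← mul_assoc, ← Real.mul_rpow hL (abs_nonneg _), abs_of_pos (by positivity),
        mul_inv_cancel₀ hLpos.ne', Real.one_rpow, one_mul]
    rw [← h3]
    exact mul_le_mul_of_nonneg_left h1 (by positivity)

theorem exists_extension {Y : Type*} [NormedAddCommGroup Y] [Module ℝ Y] [PBanach p Y]
    (f : M → Y) (L : ℝ) (hL : 0 ≤ L) (h0 : f base = 0)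
    (hf : ∀ x y, ‖f x - f y‖ ≤ (L * dist x y) ^ p) :
    ∃ T : Completion (PreFree p hp base) →L[ℝ] Y,
      (∀ x, T (dirac hp base x) = f x) ∧ ∀ v, ‖T v‖ ≤ L ^ p * ‖v‖ := by
  have : CompleteSpace Y := PBanach.complete p
  let T0 : PreFree p hp base →+ Y :=
    (Finsupp.linearCombination ℝ f : (M →₀ ℝ) →ₗ[ℝ] Y).toAddMonoidHom
  have hT0 : ∀ v : PreFree p hp base, ‖T0 v‖ ≤ L ^ p * ‖v‖ := fun v =>
    lin_bound hp f L hL h0 hf v
  have hc : Continuous T0 := AddMonoidHomClass.continuous_of_bound T0 _ hT0
  let T1 : Completion (PreFree p hp base) →+ Y := T0.extension hc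
  have hT1 : Continuous T1 := T0.continuous_extension hc
  have hcoe : ∀ v : M →₀ ℝ, T1 (emb hp base v) = Finsupp.linearCombination ℝ f v :=
    fun v => T0.extension_coe hc (toPF hp base v)
  let T : Completion (PreFree p hp base) →L[ℝ] Y :=
    { toFun := T1
      map_add' := T1.map_add
      map_smul' := fun c v => by
        refine emb_induction (P := fun v => T1 (c • v) = (RingHom.id ℝ) c • T1 v) v ?_ ?_
        · exact isClosed_eq (hT1.comp (continuous_const_smul c))
            ((continuous_csmul (p := p) c).comp hT1)
        · intro v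
          rw [← emb_smul, hcoe, hcoe, map_smul, RingHom.id_apply]
      cont := hT1 }
  refine ⟨T, fun x => ?_, fun v => ?_⟩
  · show T1 _ = _
    unfold dirac
    rw [hcoe, Finsupp.linearCombination_single, one_smul]
  · show ‖T1 v‖ ≤ _
    refine emb_induction (P := fun v => ‖T1 v‖ ≤ L ^ p * ‖v‖) v ?_ ?_
    · exact isClosed_le (continuous_norm.comp hT1) (continuous_const.mul continuous_norm)
    · intro v
      rw [hcoe, norm_emb]
      exact lin_bound hp f L hL h0 hf v

/-- every pointed metric space has a Lipschitz free `p`-space -/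
theorem exists_lipFree {p : ℝ} (hp : 0 < p) (hp1 : p ≤ 1) {M : Type u} [MetricSpace M] (base : M) :
    ∃ (F : Type u) (_ : NormedAddCommGroup F) (_ : Module ℝ F) (_ : PBanach p F) (δ : M → F),
      IsLipFree p base δ := by
  refine ⟨Completion (PreFree p hp base), inferInstance, inferInstance, inferInstance,
    dirac hp base, ?_⟩
  exact
    { pbanach := inferInstance
      isometric := fun x y => by
        unfold dirac
        rw [← emb_sub, norm_emb]
        exact gauge_isometric hp hp1 base x y
      map_base := by
        rw [← norm_eq_zero]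
        unfold dirac
        rw [norm_emb]
        exact (good_gauge hp base).map_base
      lift := fun Y _ _ hY f L hL h0 hf => exists_extension f L hL h0 hf
      unique := fun Y _ _ _ T T' h => coe_induction T T' h }

end Space

end Pool.Agent.H621R3.LF
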