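import Mathlib
import Pool.Agent.H621R3.LFBasic

set_option autoImplicit false
set_option linter.unusedSectionVars false

/-!
Tools for the nets: Lipschitz estimates, the maps `sig`, `tau`, and the cut-off functions.
-/

namespace Pool.Agent.H621R3.LF

universe u

variable {p : ℝ}

/-- a form of the universal property with the `p`-th power of the Lipschitz constant -/
theorem IsLipFree.liftC {M : Type u} [MetricSpace M] {base : M} {F : Type u}
    [NormedAddCommGroup F] [Module ℝ F] {δ : M → F} (hp : 0 < p) (h : IsLipFree p base δ)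
    {Y : Type u} [NormedAddCommGroup Y] [Module ℝ Y] [PBanach p Y] (f : M → Y) (C : ℝ)
    (hC : 0 ≤ C) (h0 : f base = 0) (hf : ∀ x y, ‖f x - f y‖ ≤ C * dist x y ^ p) :
    ∃ T : F →L[ℝ] Y, (∀ x, T (δ x) = f x) ∧ ∀ v, ‖T v‖ ≤ C * ‖v‖ := by
  have h1 : (C ^ (1 / p)) ^ p = C := by
    rw [← Real.rpow_mul hC, one_div, inv_mul_cancel₀ hp.ne', Real.rpow_one]
  obtain ⟨T, hT, hb⟩ := h.lift Y inferInstance f (C ^ (1 / p)) (by positivity) h0 (fun x y => by
    rw [Real.mul_rpow (by positivity) dist_nonneg, h1]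
    exact hf x y)
  rw [h1] at hb
  exact ⟨T, hT, hb⟩

theorem prod_lip (hp : 0 < p) {M Y : Type*} [MetricSpace M] [NormedAddCommGroup Y] [Module ℝ Y]
    [PBanach p Y] (η : M → ℝ) (g : M → Y) (l B C : ℝ) (hl : 0 ≤ l) (hB : 0 ≤ B) (hC : 0 ≤ C)
    (hη1 : ∀ x, |η x| ≤ 1) (hηl : ∀ x y, |η x - η y| ≤ l * dist x y)
    (hg : ∀ x y, ‖g x - g y‖ ≤ C * dist x y ^ p) (hgB : ∀ x, η x ≠ 0 → ‖g x‖ ≤ B ^ p) (x y : M) :
    ‖η x • g x - η y • g y‖ ≤ ((l * B) ^ p + C) * dist x y ^ p := by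
  have key : ∀ x y, η x ≠ 0 →
      ‖η x • g x - η y • g y‖ ≤ ((l * B) ^ p + C) * dist x y ^ p := by
    intro x y hx
    have e : η x • g x - η y • g y = (η x - η y) • g x + η y • (g x - g y) := by
      rw [sub_smul, smul_sub]
      abel
    rw [e]
    refine (norm_add_le _ _).trans ?_
    rw [PBanach.norm_smul (p := p), PBanach.norm_smul (p := p), add_mul]
    refine add_le_add ?_ ?_
    · have h1 : |η x - η y| ^ p ≤ (l * dist x y) ^ p :=
        Real.rpow_le_rpow (abs_nonneg _) (hηl x y) hp.le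
      have h2 : (l * B) ^ p * dist x y ^ p = (l * dist x y) ^ p * B ^ p := by
        rw [Real.mul_rpow hl hB, Real.mul_rpow hl dist_nonneg]
        ring
      rw [h2]
      exact mul_le_mul h1 (hgB x hx) (norm_nonneg _) (by positivity)
    · have h1 : |η y| ^ p ≤ 1 := Real.rpow_le_one (abs_nonneg _) (hη1 y) hp.le
      calc |η y| ^ p * ‖g x - g y‖ ≤ 1 * ‖g x - g y‖ :=
            mul_le_mul_of_nonneg_right h1 (norm_nonneg _)
        _ = ‖g x - g y‖ := one_mul _
        _ ≤ _ := hg x y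
  by_cases hx : η x = 0
  · by_cases hy : η y = 0
    · rw [hx, hy, zero_smul, zero_smul, sub_zero, norm_zero]
      positivity
    · rw [norm_sub_rev, dist_comm]
      exact key y x hy
  · exact key x y hx

theorem overlap {M Z : Type*} [MetricSpace M] [NormedAddCommGroup Z] (h : ℕ → M → Z)
    (T : M → Finset ℕ) (q : ℕ) (C : ℝ) (hC : 0 ≤ C) (hT : ∀ x, (T x).card ≤ q)
    (h0 : ∀ x n, n ∉ T x → h n x = 0) (hh : ∀ n x y, ‖h n x - h n y‖ ≤ C * dist x y ^ p)
    (x y : M) :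
    ‖∑ n ∈ T x, h n x - ∑ n ∈ T y, h n y‖ ≤ (2 * q * C) * dist x y ^ p := by
  classical
  have h1 : ∑ n ∈ T x, h n x = ∑ n ∈ T x ∪ T y, h n x :=
    Finset.sum_subset Finset.subset_union_left (fun n _ hn => h0 x n hn)
  have h2 : ∑ n ∈ T y, h n y = ∑ n ∈ T x ∪ T y, h n y :=
    Finset.sum_subset Finset.subset_union_right (fun n _ hn => h0 y n hn)
  rw [h1, h2, ← Finset.sum_sub_distrib]
  refine (norm_sum_le _ _).trans ?_
  have h3 : ∑ n ∈ T x ∪ T y, ‖h n x - h n y‖ ≤ ∑ _n ∈ T x ∪ T y, C * dist x y ^ p :=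
    Finset.sum_le_sum fun n _ => hh n x y
  refine h3.trans ?_
  rw [Finset.sum_const, nsmul_eq_mul, ← mul_assoc]
  have h4 : ((T x ∪ T y).card : ℝ) ≤ 2 * q := by
    have := (Finset.card_union_le (T x) (T y)).trans (add_le_add (hT x) (hT y))
    have h5 : ((T x ∪ T y).card : ℝ) ≤ ((q + q : ℕ) : ℝ) := by exact_mod_cast this
    push_cast at h5
    linarith
  have h6 : 0 ≤ dist x y ^ p := by positivity
  exact mul_le_mul_of_nonneg_right (mul_le_mul_of_nonneg_right h4 hC) h6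

/-- clipping to `[0,1]` -/
noncomputable def clip (t : ℝ) : ℝ := max 0 (min 1 t)

theorem clip_nonneg (t : ℝ) : 0 ≤ clip t := le_max_left _ _
theorem clip_le_one (t : ℝ) : clip t ≤ 1 := max_le zero_le_one (min_le_left _ _)
theorem clip_of_one_le {t : ℝ} (h : 1 ≤ t) : clip t = 1 := by
  unfold clip
  rw [min_eq_left h, max_eq_right zero_le_one]
theorem clip_of_nonpos {t : ℝ} (h : t ≤ 0) : clip t = 0 := by
  unfold clip
  exact max_eq_left ((min_le_right _ _).trans h)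
theorem abs_clip_sub (s t : ℝ) : |clip s - clip t| ≤ |s - t| := by
  have h1 := abs_max_sub_max_le_abs (min s 1) (min t 1) 0
  have h2 := abs_min_sub_min_le_max s 1 t 1
  rw [sub_self, abs_zero, max_eq_left (abs_nonneg _)] at h2
  unfold clip
  rw [max_comm 0, max_comm 0, min_comm 1 s, min_comm 1 t]
  exact h1.trans h2

section Sim

variable {X : Type u} [NormedAddCommGroup X] [NormedSpace ℝ X] {N : Set X} {a b lam : ℝ}
  {rnd : X → N}

theorem dist_coe' (x y : N) : dist x y = ‖(x : X) - (y : X)‖ := by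
  rw [Subtype.dist_eq, dist_eq_norm]

/-- the similarity `v ↦ x0 + z + lam (v - x0)`, rounded to the net -/
def sig (lam : ℝ) (rnd : X → N) (x0 : N) (z : X) (x : N) : N :=
  rnd ((x0 : X) + z + lam • ((x : X) - x0))

open Classical in
/-- a left inverse of `sig` -/
noncomputable def tau (lam : ℝ) (rnd : X → N) (x0 : N) (z : X) (y : N) : N :=
  if h : ∃ x, sig lam rnd x0 z x = y then h.choose
  else rnd ((x0 : X) + lam⁻¹ • ((y : X) - x0 - z))

theorem sig_near (hr : ∀ v : X, ‖v - (rnd v : X)‖ ≤ b) (x0 : N) (z : X) (x : N) :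
    ‖(sig lam rnd x0 z x : X) - ((x0 : X) + z + lam • ((x : X) - x0))‖ ≤ b := by
  rw [norm_sub_rev]
  exact hr _

theorem tau_near (hr : ∀ v : X, ‖v - (rnd v : X)‖ ≤ b) (hlam : 1 ≤ lam) (x0 : N) (z : X) (y : N) :
    ‖(tau lam rnd x0 z y : X) - ((x0 : X) + lam⁻¹ • ((y : X) - x0 - z))‖ ≤ b := by
  have hb : 0 ≤ b := (norm_nonneg _).trans (hr 0)
  have hl : 0 < lam := by linarith
  unfold tau
  split_ifs with h
  · have h1 := sig_near (lam := lam) hr x0 z h.choose
    rw [h.choose_spec] at h1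
    have h2 : (h.choose : X) - ((x0 : X) + lam⁻¹ • ((y : X) - x0 - z)) =
        -(lam⁻¹ • ((y : X) - ((x0 : X) + z + lam • ((h.choose : X) - x0)))) := by
      have h3 : (y : X) - ((x0 : X) + z + lam • ((h.choose : X) - x0)) =
          ((y : X) - x0 - z) - lam • ((h.choose : X) - x0) := by abel
      rw [h3, smul_sub lam⁻¹ ((y : X) - x0 - z), smul_smul, inv_mul_cancel₀ hl.ne', one_smul]
      abel
    rw [h2, norm_neg, norm_smul, norm_inv, Real.norm_of_nonneg hl.le]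
    calc lam⁻¹ * ‖(y : X) - ((x0 : X) + z + lam • ((h.choose : X) - x0))‖ ≤ 1 * b :=
          mul_le_mul (inv_le_one_of_one_le₀ hlam) h1 (norm_nonneg _) zero_le_one
      _ = b := one_mul b
  · rw [norm_sub_rev]
    exact hr _

theorem sig_lip (hr : ∀ v : X, ‖v - (rnd v : X)‖ ≤ b) (hlam : 1 ≤ lam) (ha : 0 < a)
    (hN : ∀ x ∈ N, ∀ y ∈ N, x ≠ y → a ≤ ‖x - y‖) (x0 : N) (z : X) (x y : N) :
    dist (sig lam rnd x0 z x) (sig lam rnd x0 z y) ≤ (lam + 2 * b / a) * dist x y := by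
  have hb : 0 ≤ b := (norm_nonneg _).trans (hr 0)
  rcases eq_or_ne x y with rfl | hxy
  · simp
  have h1 := sig_near (lam := lam) hr x0 z x
  have h2 := sig_near (lam := lam) hr x0 z y
  have h3 : a ≤ dist x y := by
    rw [dist_coe']
    exact hN _ x.2 _ y.2 (fun h => hxy (Subtype.ext h))
  have h4 : (sig lam rnd x0 z x : X) - sig lam rnd x0 z y =
      ((sig lam rnd x0 z x : X) - ((x0 : X) + z + lam • ((x : X) - x0))) -
      ((sig lam rnd x0 z y : X) - ((x0 : X) + z + lam • ((y : X) - x0))) +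
      lam • ((x : X) - y) := by
    rw [smul_sub, smul_sub, smul_sub]
    abel
  have h5 : ‖lam • ((x : X) - y)‖ = lam * dist x y := by
    rw [norm_smul, Real.norm_of_nonneg (by linarith), dist_coe']
  have h6 : 2 * b ≤ 2 * b / a * dist x y := by
    rw [div_mul_eq_mul_div, le_div_iff₀ ha]
    exact mul_le_mul_of_nonneg_left h3 (by linarith)
  rw [dist_coe' (sig lam rnd x0 z x), h4]
  refine (norm_add_le _ _).trans ?_
  have h7 := norm_sub_le ((sig lam rnd x0 z x : X) - ((x0 : X) + z + lam • ((x : X) - x0)))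
    ((sig lam rnd x0 z y : X) - ((x0 : X) + z + lam • ((y : X) - x0)))
  rw [h5, add_mul]
  linarith

theorem tau_lip (hr : ∀ v : X, ‖v - (rnd v : X)‖ ≤ b) (hlam : 1 ≤ lam) (ha : 0 < a)
    (hN : ∀ x ∈ N, ∀ y ∈ N, x ≠ y → a ≤ ‖x - y‖) (x0 : N) (z : X) (x y : N) :
    dist (tau lam rnd x0 z x) (tau lam rnd x0 z y) ≤ (lam + 2 * b / a) * dist x y := by
  have hb : 0 ≤ b := (norm_nonneg _).trans (hr 0)
  have hl : 0 < lam := by linarith
  rcases eq_or_ne x y with rfl | hxy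
  · simp
  have h1 := tau_near (lam := lam) hr hlam x0 z x
  have h2 := tau_near (lam := lam) hr hlam x0 z y
  have h3 : a ≤ dist x y := by
    rw [dist_coe']
    exact hN _ x.2 _ y.2 (fun h => hxy (Subtype.ext h))
  have h4 : (tau lam rnd x0 z x : X) - tau lam rnd x0 z y =
      ((tau lam rnd x0 z x : X) - ((x0 : X) + lam⁻¹ • ((x : X) - x0 - z))) -
      ((tau lam rnd x0 z y : X) - ((x0 : X) + lam⁻¹ • ((y : X) - x0 - z))) +
      lam⁻¹ • ((x : X) - y) := by
    simp only [smul_sub]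
    abel
  have h5 : ‖lam⁻¹ • ((x : X) - y)‖ ≤ lam * dist x y := by
    rw [norm_smul, norm_inv, Real.norm_of_nonneg hl.le, dist_coe']
    exact mul_le_mul_of_nonneg_right ((inv_le_one_of_one_le₀ hlam).trans hlam) (norm_nonneg _)
  have h6 : 2 * b ≤ 2 * b / a * dist x y := by
    rw [div_mul_eq_mul_div, le_div_iff₀ ha]
    exact mul_le_mul_of_nonneg_left h3 (by linarith)
  rw [dist_coe' (tau lam rnd x0 z x), h4]
  refine (norm_add_le _ _).trans ?_
  have h7 := norm_sub_le ((tau lam rnd x0 z x : X) - ((x0 : X) + lam⁻¹ • ((x : X) - x0 - z)))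
    ((tau lam rnd x0 z y : X) - ((x0 : X) + lam⁻¹ • ((y : X) - x0 - z)))
  rw [add_mul]
  linarith

theorem sig_inj (hr : ∀ v : X, ‖v - (rnd v : X)‖ ≤ b) (hlam : 2 * b < lam * a) (hl : 0 < lam)
    (hN : ∀ x ∈ N, ∀ y ∈ N, x ≠ y → a ≤ ‖x - y‖) (x0 : N) (z : X) (x y : N)
    (h : sig lam rnd x0 z x = sig lam rnd x0 z y) : x = y := by
  by_contra hxy
  have h3 : a ≤ ‖(x : X) - y‖ := hN _ x.2 _ y.2 (fun h => hxy (Subtype.ext h))
  have h1 := sig_near (lam := lam) hr x0 z x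
  have h2 := sig_near (lam := lam) hr x0 z y
  rw [h] at h1
  have h4 : lam • ((x : X) - y) =
      ((sig lam rnd x0 z y : X) - ((x0 : X) + z + lam • ((y : X) - x0))) -
      ((sig lam rnd x0 z y : X) - ((x0 : X) + z + lam • ((x : X) - x0))) := by
    simp only [smul_sub]
    abel
  have h5 : ‖lam • ((x : X) - y)‖ = lam * ‖(x : X) - y‖ := by
    rw [norm_smul, Real.norm_of_nonneg hl.le]
  rw [h4] at h5
  have h7 := norm_sub_le ((sig lam rnd x0 z y : X) - ((x0 : X) + z + lam • ((y : X) - x0)))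
    ((sig lam rnd x0 z y : X) - ((x0 : X) + z + lam • ((x : X) - x0)))
  have h8 : lam * a ≤ lam * ‖(x : X) - y‖ := mul_le_mul_of_nonneg_left h3 hl.le
  linarith

theorem tau_sig (hr : ∀ v : X, ‖v - (rnd v : X)‖ ≤ b) (hlam : 2 * b < lam * a) (hl : 0 < lam)
    (hN : ∀ x ∈ N, ∀ y ∈ N, x ≠ y → a ≤ ‖x - y‖) (x0 : N) (z : X) (x : N) :
    tau lam rnd x0 z (sig lam rnd x0 z x) = x := by
  have h : ∃ x', sig lam rnd x0 z x' = sig lam rnd x0 z x := ⟨x, rfl⟩
  unfold tau
  rw [dif_pos h]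
  exact sig_inj hr hlam hl hN x0 z _ _ h.choose_spec

/-- the image of `sig` is close to `x0 + z` -/
theorem sig_close (hr : ∀ v : X, ‖v - (rnd v : X)‖ ≤ b) (hl : 0 < lam) (x0 : N) (z : X) (x : N) :
    ‖(sig lam rnd x0 z x : X) - x0 - z‖ ≤ lam * dist x x0 + b := by
  have h1 := sig_near (lam := lam) hr x0 z x
  have h2 : (sig lam rnd x0 z x : X) - x0 - z =
      ((sig lam rnd x0 z x : X) - ((x0 : X) + z + lam • ((x : X) - x0))) +
        lam • ((x : X) - x0) := by abel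
  rw [h2]
  refine (norm_add_le _ _).trans ?_
  rw [norm_smul, Real.norm_of_nonneg hl.le, dist_coe']
  linarith

theorem tau_close (hr : ∀ v : X, ‖v - (rnd v : X)‖ ≤ b) (hlam : 1 ≤ lam) (x0 : N) (z : X) (y : N) :
    dist (tau lam rnd x0 z y) x0 ≤ ‖(y : X) - x0 - z‖ + b := by
  have hl : 0 < lam := by linarith
  have h1 := tau_near (lam := lam) hr hlam x0 z y
  have h2 : (tau lam rnd x0 z y : X) - x0 =
      ((tau lam rnd x0 z y : X) - ((x0 : X) + lam⁻¹ • ((y : X) - x0 - z))) +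
        lam⁻¹ • ((y : X) - x0 - z) := by abel
  rw [dist_coe', h2]
  refine (norm_add_le _ _).trans ?_
  rw [norm_smul, norm_inv, Real.norm_of_nonneg hl.le]
  have h3 : lam⁻¹ * ‖(y : X) - x0 - z‖ ≤ 1 * ‖(y : X) - x0 - z‖ :=
    mul_le_mul_of_nonneg_right (inv_le_one_of_one_le₀ hlam) (norm_nonneg _)
  linarith

end Sim

end Pool.Agent.H621R3.LF
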