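import Mathlib
import Pool.Agent.H621R3.LFNet1

set_option autoImplicit false
set_option linter.unusedSectionVars false

/-!
Cut-off functions.
-/

namespace Pool.Agent.H621R3.LF

universe u

section Cut

variable {X : Type u} [NormedAddCommGroup X] [NormedSpace ℝ X] {N : Set X}

/-- `D_n = K 8^n` -/
def DD (K : ℝ) (n : ℕ) : ℝ := K * 8 ^ n

theorem DD_pos {K : ℝ} (hK : 0 < K) (n : ℕ) : 0 < DD K n := by
  unfold DD
  positivity

/-- cut-off function around `x0 + D_n u` -/
noncomputable def theta (K : ℝ) (u : X) (x0 : N) (n : ℕ) (y : N) : ℝ :=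
  clip (2 - 8 * ‖(y : X) - x0 - DD K n • u‖ / DD K n)

theorem theta_abs (K : ℝ) (u : X) (x0 : N) (n : ℕ) (y : N) : |theta K u x0 n y| ≤ 1 := by
  unfold theta
  rw [abs_of_nonneg (clip_nonneg _)]
  exact clip_le_one _

theorem theta_lip {K : ℝ} (hK : 0 < K) (u : X) (x0 : N) (n : ℕ) (x y : N) :
    |theta K u x0 n x - theta K u x0 n y| ≤ 8 / DD K n * dist x y := by
  have hD := DD_pos hK n
  unfold theta
  refine (abs_clip_sub _ _).trans ?_
  have e : (2 - 8 * ‖(x : X) - x0 - DD K n • u‖ / DD K n) -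
      (2 - 8 * ‖(y : X) - x0 - DD K n • u‖ / DD K n) =
      8 / DD K n * (‖(y : X) - x0 - DD K n • u‖ - ‖(x : X) - x0 - DD K n • u‖) := by ring
  rw [e, abs_mul, abs_of_pos (by positivity)]
  refine mul_le_mul_of_nonneg_left ?_ (by positivity)
  refine (abs_norm_sub_norm_le _ _).trans (le_of_eq ?_)
  rw [dist_coe', norm_sub_rev]
  congr 1
  abel

theorem theta_ne {K : ℝ} (hK : 0 < K) {u : X} {x0 : N} {n : ℕ} {y : N}
    (h : theta K u x0 n y ≠ 0) : ‖(y : X) - x0 - DD K n • u‖ ≤ DD K n / 4 := by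
  have hD := DD_pos hK n
  by_contra hc
  push Not at hc
  refine h (clip_of_nonpos ?_)
  have h1 : 2 ≤ 8 * ‖(y : X) - x0 - DD K n • u‖ / DD K n := by
    rw [le_div_iff₀ hD]
    linarith
  linarith

theorem theta_one {K : ℝ} (hK : 0 < K) {u : X} {x0 : N} {n : ℕ} {y : N}
    (h : ‖(y : X) - x0 - DD K n • u‖ ≤ DD K n / 8) : theta K u x0 n y = 1 := by
  have hD := DD_pos hK n
  refine clip_of_one_le ?_
  have h1 : 8 * ‖(y : X) - x0 - DD K n • u‖ / DD K n ≤ 1 := by
    rw [div_le_iff₀ hD]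
    linarith
  linarith

theorem theta_lt_absurd {K : ℝ} (hK : 0 < K) {u : X} (hu : ‖u‖ = 1) {x0 : N} {n m : ℕ} {y : N}
    (hn : theta K u x0 n y ≠ 0) (hm : theta K u x0 m y ≠ 0) (hnm : n < m) : False := by
  have hDn := DD_pos hK n
  have hDm := DD_pos hK m
  have h1 := theta_ne hK hn
  have h2 := theta_ne hK hm
  have h3 : 8 * DD K n ≤ DD K m := by
    unfold DD
    have h4 : (8 : ℝ) ^ (n + 1) ≤ 8 ^ m := pow_le_pow_right₀ (by norm_num) hnm
    have h5 : 8 * (K * 8 ^ n) = K * 8 ^ (n + 1) := by ring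
    rw [h5]
    exact mul_le_mul_of_nonneg_left h4 hK.le
  have h6 : ‖(DD K m - DD K n) • u‖ = DD K m - DD K n := by
    rw [norm_smul, hu, mul_one, Real.norm_of_nonneg (by linarith)]
  have h7 : (DD K m - DD K n) • u =
      ((y : X) - x0 - DD K n • u) - ((y : X) - x0 - DD K m • u) := by
    rw [sub_smul]
    abel
  have h8 := norm_sub_le ((y : X) - x0 - DD K n • u) ((y : X) - x0 - DD K m • u)
  rw [← h7, h6] at h8
  linarith

theorem theta_unique {K : ℝ} (hK : 0 < K) {u : X} (hu : ‖u‖ = 1) {x0 : N} {n m : ℕ} {y : N}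
    (hn : theta K u x0 n y ≠ 0) (hm : theta K u x0 m y ≠ 0) : n = m := by
  rcases lt_trichotomy n m with h | h | h
  · exact (theta_lt_absurd hK hu hn hm h).elim
  · exact h
  · exact (theta_lt_absurd hK hu hm hn h).elim

theorem theta_base {K : ℝ} (hK : 0 < K) {u : X} (hu : ‖u‖ = 1) (x0 : N) (n : ℕ) :
    theta K u x0 n x0 = 0 := by
  by_contra h
  have h1 := theta_ne hK h
  have hD := DD_pos hK n
  rw [sub_self, zero_sub, norm_neg, norm_smul, hu, mul_one, Real.norm_of_nonneg hD.le] at h1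
  linarith

open Classical in
/-- the set of the active indices -/
noncomputable def TT (K : ℝ) (u : X) (x0 : N) (y : N) : Finset ℕ :=
  if h : ∃ n, theta K u x0 n y ≠ 0 then {h.choose} else ∅

theorem TT_card (K : ℝ) (u : X) (x0 : N) (y : N) : (TT K u x0 y).card ≤ 1 := by
  unfold TT
  split_ifs <;> simp

theorem TT_of_ne {K : ℝ} (hK : 0 < K) {u : X} (hu : ‖u‖ = 1) {x0 : N} {n : ℕ} {y : N}
    (hn : theta K u x0 n y ≠ 0) : TT K u x0 y = {n} := by
  have h : ∃ n, theta K u x0 n y ≠ 0 := ⟨n, hn⟩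
  unfold TT
  rw [dif_pos h, theta_unique hK hu h.choose_spec hn]

theorem TT_out {K : ℝ} (hK : 0 < K) {u : X} (hu : ‖u‖ = 1) {x0 : N} {n : ℕ} {y : N}
    (hn : n ∉ TT K u x0 y) : theta K u x0 n y = 0 := by
  by_contra h
  rw [TT_of_ne hK hu h] at hn
  simp at hn

end Cut

section Part

variable {M : Type u} [MetricSpace M]

/-- cut-off functions around the base point -/
noncomputable def psi (x0 : M) : ℕ → M → ℝ
  | 0, _ => 0
  | k + 1, x => clip (2 - dist x x0 / 2 ^ k)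

theorem psi_succ (x0 : M) (k : ℕ) (x : M) : psi x0 (k + 1) x = clip (2 - dist x x0 / 2 ^ k) := rfl

theorem psi_zero (x0 x : M) : psi x0 0 x = 0 := rfl

/-- the dyadic partition of unity -/
noncomputable def eta (x0 : M) (k : ℕ) (x : M) : ℝ := psi x0 (k + 1) x - psi x0 k x

theorem psi_nonneg (x0 : M) (k : ℕ) (x : M) : 0 ≤ psi x0 k x := by
  cases k with
  | zero => exact le_rfl
  | succ k => exact clip_nonneg _

theorem psi_le_one (x0 : M) (k : ℕ) (x : M) : psi x0 k x ≤ 1 := by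
  cases k with
  | zero => exact zero_le_one
  | succ k => exact clip_le_one _

theorem psi_succ_lip (x0 : M) (k : ℕ) (x y : M) :
    |psi x0 (k + 1) x - psi x0 (k + 1) y| ≤ 1 / 2 ^ k * dist x y := by
  rw [psi_succ, psi_succ]
  refine (abs_clip_sub _ _).trans ?_
  have e : (2 - dist x x0 / 2 ^ k) - (2 - dist y x0 / 2 ^ k) =
      1 / 2 ^ k * (dist y x0 - dist x x0) := by ring
  rw [e, abs_mul, abs_of_pos (by positivity)]
  refine mul_le_mul_of_nonneg_left ?_ (by positivity)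
  rw [dist_comm x y]
  exact abs_dist_sub_le y x x0

theorem psi_lip (x0 : M) (k : ℕ) (x y : M) :
    |psi x0 k x - psi x0 k y| ≤ 2 / 2 ^ k * dist x y := by
  cases k with
  | zero =>
    rw [psi_zero, psi_zero, sub_self, abs_zero]
    positivity
  | succ k =>
    refine (psi_succ_lip x0 k x y).trans (le_of_eq ?_)
    rw [pow_succ]
    field_simp

theorem eta_lip (x0 : M) (k : ℕ) (x y : M) :
    |eta x0 k x - eta x0 k y| ≤ 3 / 2 ^ k * dist x y := by
  have h1 := psi_succ_lip x0 k x y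
  have h2 := psi_lip x0 k x y
  unfold eta
  have e : psi x0 (k + 1) x - psi x0 k x - (psi x0 (k + 1) y - psi x0 k y) =
      (psi x0 (k + 1) x - psi x0 (k + 1) y) - (psi x0 k x - psi x0 k y) := by ring
  rw [e]
  refine (abs_sub _ _).trans ?_
  have e2 : 3 / 2 ^ k * dist x y = 1 / 2 ^ k * dist x y + 2 / 2 ^ k * dist x y := by ring
  rw [e2]
  exact add_le_add h1 h2

theorem eta_abs (x0 : M) (k : ℕ) (x : M) : |eta x0 k x| ≤ 1 := by
  have h1 := psi_nonneg x0 k x
  have h2 := psi_le_one x0 k x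
  have h3 := psi_nonneg x0 (k + 1) x
  have h4 := psi_le_one x0 (k + 1) x
  unfold eta
  rw [abs_le]
  constructor <;> linarith

theorem psi_eq_zero {x0 : M} {k : ℕ} {x : M} (h : (2 : ℝ) ^ k ≤ dist x x0) : psi x0 k x = 0 := by
  cases k with
  | zero => rfl
  | succ k =>
    rw [psi_succ]
    refine clip_of_nonpos ?_
    have h1 : 2 ≤ dist x x0 / 2 ^ k := by
      rw [le_div_iff₀ (by positivity)]
      rw [pow_succ] at h
      linarith
    linarith

theorem psi_succ_eq_one {x0 : M} {k : ℕ} {x : M} (h : dist x x0 ≤ 2 ^ k) :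
    psi x0 (k + 1) x = 1 := by
  rw [psi_succ]
  refine clip_of_one_le ?_
  have h1 : dist x x0 / 2 ^ k ≤ 1 := by
    rw [div_le_iff₀ (by positivity)]
    linarith
  linarith

theorem eta_ne {x0 : M} {k : ℕ} {x : M} (h : eta x0 k x ≠ 0) : dist x x0 ≤ 2 ^ (k + 1) := by
  by_contra hc
  push Not at hc
  refine h ?_
  unfold eta
  have h1 : (2 : ℝ) ^ k ≤ 2 ^ (k + 1) := pow_le_pow_right₀ (by norm_num) (Nat.le_succ k)
  rw [psi_eq_zero hc.le, psi_eq_zero (h1.trans hc.le), sub_self]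

theorem exists_level (x0 x : M) : ∃ j : ℕ, dist x x0 < 2 ^ (j + 1) := by
  obtain ⟨n, hn⟩ := pow_unbounded_of_one_lt (dist x x0) (one_lt_two)
  exact ⟨n, hn.trans_le (pow_le_pow_right₀ (by norm_num) (Nat.le_succ n))⟩

open Classical in
/-- the dyadic level -/
noncomputable def lev (x0 x : M) : ℕ := Nat.find (exists_level x0 x)

theorem lev_spec (x0 x : M) : dist x x0 < 2 ^ (lev x0 x + 1) := by
  classical
  exact Nat.find_spec (exists_level x0 x)

theorem lev_min {x0 x : M} {k : ℕ} (h : k < lev x0 x) : (2 : ℝ) ^ (k + 1) ≤ dist x x0 := by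
  classical
  exact not_lt.1 (Nat.find_min (exists_level x0 x) h)

theorem psi_lev (x0 x : M) : psi x0 (lev x0 x) x = 0 := by
  rcases Nat.eq_zero_or_pos (lev x0 x) with h | h
  · rw [h]
    rfl
  · refine psi_eq_zero ?_
    have := lev_min (x0 := x0) (x := x) (k := lev x0 x - 1) (by omega)
    rwa [Nat.sub_add_cancel h] at this

theorem eta_out {x0 x : M} {k : ℕ} (h : k ∉ ({lev x0 x, lev x0 x + 1} : Finset ℕ)) :
    eta x0 k x = 0 := by
  simp only [Finset.mem_insert, Finset.mem_singleton, not_or] at h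
  unfold eta
  rcases lt_or_ge k (lev x0 x) with hk | hk
  · have h1 := lev_min hk
    have h2 : (2 : ℝ) ^ k ≤ 2 ^ (k + 1) := pow_le_pow_right₀ (by norm_num) (Nat.le_succ k)
    rw [psi_eq_zero h1, psi_eq_zero (h2.trans h1), sub_self]
  · obtain ⟨m, rfl⟩ : ∃ m, k = m + 1 := ⟨k - 1, by omega⟩
    have h1 := (lev_spec x0 x).le
    have h2 : (2 : ℝ) ^ (lev x0 x + 1) ≤ 2 ^ m := pow_le_pow_right₀ (by norm_num) (by omega)
    have h3 : (2 : ℝ) ^ m ≤ 2 ^ (m + 1) := pow_le_pow_right₀ (by norm_num) (by omega)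
    rw [psi_succ_eq_one (h1.trans h2), psi_succ_eq_one ((h1.trans h2).trans h3), sub_self]

theorem eta_sum (x0 x : M) : ∑ k ∈ ({lev x0 x, lev x0 x + 1} : Finset ℕ), eta x0 k x = 1 := by
  rw [Finset.sum_pair (by omega)]
  unfold eta
  rw [psi_lev, psi_succ_eq_one (k := lev x0 x + 1) (lev_spec x0 x).le]
  ring

end Part

end Pool.Agent.H621R3.LF
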