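import Mathlib
import Pool.Agent.H621R3.LFNet2

set_option autoImplicit false
set_option linter.unusedSectionVars false

/-!
Free `p`-spaces over nets are isomorphic to their `ℓ_p`-sums.
-/

namespace Pool.Agent.H621R3.LF

universe u

theorem net_iso {X : Type u} [NormedAddCommGroup X] [NormedSpace ℝ X] {N : Set X} (hN : IsNet N)
    (x0 : N) {p : ℝ} (hp : 0 < p) {F : Type u} [NormedAddCommGroup F] [Module ℝ F]
    [PBanach p F] (δ : N → F) (h : IsLipFree p x0 δ) : Nonempty (F ≃L[ℝ] EllP p F) := by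
  obtain ⟨a, b, ha, hab, hsep, hdense⟩ := hN
  rcases subsingleton_or_nontrivial X with hX | hX
  · have hδ : ∀ x, δ x = 0 := by
      intro x
      have : x = x0 := Subsingleton.elim _ _
      rw [this, h.map_base]
    have hid : ContinuousLinearMap.id ℝ F = 0 :=
      h.unique F inferInstance _ _ (fun x => by rw [hδ]; simp)
    have h0 : ∀ v : F, v = 0 := fun v => by
      have := congrArg (fun T : F →L[ℝ] F => T v) hid
      simpa using this
    refine pelczynski hp 0 0 (fun w => ?_)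
    refine EllP.ext fun n => ?_
    rw [h0 (w n)]
    rfl
  choose rnd0 hrnd0 hrnd1 using hdense
  let rnd : X → N := fun v => ⟨rnd0 v, hrnd0 v⟩
  have hr : ∀ v : X, ‖v - (rnd v : X)‖ ≤ b := hrnd1
  have hb : 0 < b := ha.trans_le hab
  obtain ⟨lam, hlam⟩ : ∃ lam, lam = 2 * b / a + 1 := ⟨_, rfl⟩
  have hlam1 : 1 ≤ lam := by
    rw [hlam]
    have : 0 ≤ 2 * b / a := by positivity
    linarith
  have hlam0 : 0 < lam := by linarith
  have hlam2 : 2 * b < lam * a := by
    rw [hlam, add_mul, div_mul_cancel₀ _ ha.ne']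
    linarith
  obtain ⟨K, hK⟩ : ∃ K, K = 8 * (2 * lam + b) := ⟨_, rfl⟩
  have hK0 : 0 < K := by rw [hK]; positivity
  obtain ⟨u, hu⟩ : ∃ u : X, ‖u‖ = 1 := exists_norm_eq X zero_le_one
  obtain ⟨L, hL⟩ : ∃ L, L = lam + 2 * b / a := ⟨_, rfl⟩
  have hL0 : 0 ≤ L := by rw [hL]; positivity
  let sg : ℕ → N → N := fun n => sig lam rnd x0 (DD K n • u)
  let tu : ℕ → N → N := fun n => tau lam rnd x0 (DD K n • u)
  have hsgl : ∀ n x y, dist (sg n x) (sg n y) ≤ L * dist x y := by
    intro n x y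
    rw [hL]
    exact sig_lip hr hlam1 ha hsep x0 _ x y
  have htul : ∀ n x y, dist (tu n x) (tu n y) ≤ L * dist x y := by
    intro n x y
    rw [hL]
    exact tau_lip hr hlam1 ha hsep x0 _ x y
  have htusg : ∀ n x, tu n (sg n x) = x := fun n x => tau_sig hr hlam2 hlam0 hsep x0 _ x
  -- the cut-off function is one on the relevant part of the image
  have hone : ∀ i k x, dist x x0 ≤ 2 ^ (k + 1) →
      theta K u x0 (Nat.pair i k) (sg (Nat.pair i k) x) = 1 := by
    intro i k x hx
    refine theta_one hK0 ?_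
    refine (sig_close hr hlam0 x0 _ x).trans ?_
    have h1 : lam * dist x x0 ≤ lam * 2 ^ (k + 1) := mul_le_mul_of_nonneg_left hx hlam0.le
    have h2 : (2 : ℝ) ^ k ≤ 8 ^ (Nat.pair i k) := by
      calc (2 : ℝ) ^ k ≤ 8 ^ k := pow_le_pow_left₀ (by norm_num) (by norm_num) k
        _ ≤ 8 ^ (Nat.pair i k) := pow_le_pow_right₀ (by norm_num) (Nat.right_le_pair i k)
    have h3 : (1 : ℝ) ≤ 8 ^ (Nat.pair i k) := one_le_pow₀ (by norm_num)
    unfold DD
    rw [hK]
    have h4 : lam * 2 ^ (k + 1) ≤ 2 * lam * 8 ^ (Nat.pair i k) := by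
      rw [pow_succ]
      nlinarith
    have h5 : b ≤ b * 8 ^ (Nat.pair i k) := by nlinarith
    nlinarith
  have hδ : ∀ x, ‖δ x‖ = dist x x0 ^ p := by
    intro x
    have := h.isometric x x0
    rwa [h.map_base, sub_zero] at this
  -- the maps `s_i`
  let T : N → Finset ℕ := fun x => {lev x0 x, lev x0 x + 1}
  let g : ℕ → ℕ → N → F := fun i k x => δ (sg (Nat.pair i k) x) - δ (sg (Nat.pair i k) x0)
  let s : ℕ → N → F := fun i x => ∑ k ∈ T x, eta x0 k x • g i k x
  have hLp : 0 ≤ L ^ p := by positivity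
  have hg : ∀ i k x y, ‖g i k x - g i k y‖ ≤ L ^ p * dist x y ^ p := by
    intro i k x y
    have e : g i k x - g i k y = δ (sg (Nat.pair i k) x) - δ (sg (Nat.pair i k) y) := by
      show δ (sg (Nat.pair i k) x) - δ (sg (Nat.pair i k) x0) -
        (δ (sg (Nat.pair i k) y) - δ (sg (Nat.pair i k) x0)) = _
      abel
    rw [e, h.isometric, ← Real.mul_rpow hL0 dist_nonneg]
    exact Real.rpow_le_rpow dist_nonneg (hsgl _ x y) hp.le
  have hg0 : ∀ i k, g i k x0 = 0 := fun i k => sub_self _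
  have hgB : ∀ i k x, eta x0 k x ≠ 0 → ‖g i k x‖ ≤ (L * 2 ^ (k + 1)) ^ p := by
    intro i k x hx
    have h1 := hg i k x x0
    rw [hg0, sub_zero, ← Real.mul_rpow hL0 dist_nonneg] at h1
    exact h1.trans (Real.rpow_le_rpow (by positivity)
      (mul_le_mul_of_nonneg_left (eta_ne hx) hL0) hp.le)
  have hprod : ∀ i k x y, ‖eta x0 k x • g i k x - eta x0 k y • g i k y‖ ≤
      ((6 * L) ^ p + L ^ p) * dist x y ^ p := by
    intro i k x y
    have h1 := prod_lip hp (eta x0 k) (g i k) (3 / 2 ^ k) (L * 2 ^ (k + 1)) (L ^ p) (by positivity)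
      (by positivity) hLp (eta_abs x0 k) (eta_lip x0 k) (hg i k) (hgB i k) x y
    have h2 : 3 / 2 ^ k * (L * 2 ^ (k + 1)) = 6 * L := by
      rw [pow_succ]
      field_simp
      ring
    rwa [h2] at h1
  have hs0 : ∀ i, s i x0 = 0 := by
    intro i
    show ∑ k ∈ T x0, eta x0 k x0 • g i k x0 = 0
    refine Finset.sum_eq_zero fun k _ => ?_
    rw [hg0, smul_zero]
  have hsl : ∀ i x y, ‖s i x - s i y‖ ≤
      (2 * (2 : ℕ) * ((6 * L) ^ p + L ^ p)) * dist x y ^ p := fun i =>
    overlap (fun k x => eta x0 k x • g i k x) T 2 _ (by positivity)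
      (fun x => Finset.card_le_two)
      (fun x k hk => by
        show eta x0 k x • g i k x = 0
        rw [eta_out hk, zero_smul]) (hprod i)
  choose S hS hSb using fun i => h.liftC hp (s i) _ (by positivity) (hs0 i) (hsl i)
  -- the map `ρ`
  let hh : ℕ → N → EllP p F := fun n y =>
    inj (Nat.unpair n).1 (theta K u x0 n y • δ (tu n y))
  let rho : N → EllP p F := fun y => ∑ n ∈ TT K u x0 y, hh n y
  have hhl : ∀ n x y, ‖hh n x - hh n y‖ ≤ ((8 : ℝ) ^ p + L ^ p) * dist x y ^ p := by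
    intro n x y
    have hD := DD_pos hK0 n
    have e : hh n x - hh n y = inj (Nat.unpair n).1
        (theta K u x0 n x • δ (tu n x) - theta K u x0 n y • δ (tu n y)) := by
      rw [map_sub]
    rw [e, norm_inj]
    have h1 := prod_lip hp (theta K u x0 n) (fun y => δ (tu n y)) (8 / DD K n) (DD K n) (L ^ p)
      (by positivity) hD.le hLp (theta_abs K u x0 n) (theta_lip hK0 u x0 n)
      (fun x y => by
        rw [h.isometric, ← Real.mul_rpow hL0 dist_nonneg]
        exact Real.rpow_le_rpow dist_nonneg (htul n x y) hp.le)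
      (fun x hx => by
        rw [hδ]
        refine Real.rpow_le_rpow dist_nonneg ?_ hp.le
        refine (tau_close hr hlam1 x0 _ x).trans ?_
        have h2 := theta_ne hK0 hx
        have h3 : b ≤ DD K n / 8 := by
          unfold DD
          have h4 : (1 : ℝ) ≤ 8 ^ n := one_le_pow₀ (by norm_num)
          rw [hK]
          nlinarith
        linarith) x y
    rwa [div_mul_cancel₀ _ hD.ne'] at h1
  have hrl : ∀ x y, ‖rho x - rho y‖ ≤ (2 * (1 : ℕ) * ((8 : ℝ) ^ p + L ^ p)) * dist x y ^ p :=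
    overlap hh (TT K u x0) 1 _ (by positivity) (TT_card K u x0)
      (fun x n hn => by
        show inj (Nat.unpair n).1 (theta K u x0 n x • δ (tu n x)) = 0
        rw [TT_out hK0 hu hn, zero_smul, map_zero]) hhl
  have hr0 : rho x0 = 0 := by
    show ∑ n ∈ TT K u x0 x0, hh n x0 = 0
    refine Finset.sum_eq_zero fun n _ => ?_
    show inj (Nat.unpair n).1 (theta K u x0 n x0 • δ (tu n x0)) = 0
    rw [theta_base hK0 hu, zero_smul, map_zero]
  obtain ⟨R, hR, hRb⟩ := h.liftC hp rho _ (by positivity) hr0 hrl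
  -- `ρ` on the images
  have hrs : ∀ i k x, dist x x0 ≤ 2 ^ (k + 1) → rho (sg (Nat.pair i k) x) = inj i (δ x) := by
    intro i k x hx
    have h1 := hone i k x hx
    have h2 : TT K u x0 (sg (Nat.pair i k) x) = {Nat.pair i k} :=
      TT_of_ne hK0 hu (by rw [h1]; exact one_ne_zero)
    show ∑ n ∈ TT K u x0 (sg (Nat.pair i k) x), hh n (sg (Nat.pair i k) x) = _
    rw [h2, Finset.sum_singleton]
    show inj (Nat.unpair (Nat.pair i k)).1
      (theta K u x0 (Nat.pair i k) (sg (Nat.pair i k) x) •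
        δ (tu (Nat.pair i k) (sg (Nat.pair i k) x))) = _
    rw [h1, one_smul, htusg, Nat.unpair_pair]
  have hRg : ∀ i k x, dist x x0 ≤ 2 ^ (k + 1) → R (g i k x) = inj i (δ x) := by
    intro i k x hx
    show R (δ (sg (Nat.pair i k) x) - δ (sg (Nat.pair i k) x0)) = _
    rw [map_sub, hR, hR, hrs i k x hx, hrs i k x0 (by rw [dist_self]; positivity), h.map_base,
      map_zero, sub_zero]
  have hRS : ∀ i, R.comp (S i) = inj i := by
    intro i
    refine h.unique _ inferInstance _ _ fun x => ?_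
    show R (S i (δ x)) = _
    rw [hS]
    show R (∑ k ∈ T x, eta x0 k x • g i k x) = _
    rw [map_sum]
    have h1 : ∀ k ∈ T x, R (eta x0 k x • g i k x) = eta x0 k x • (inj i (δ x) : EllP p F) := by
      intro k _
      rw [map_smul]
      by_cases hk : eta x0 k x = 0
      · rw [hk, zero_smul, zero_smul]
      · rw [hRg i k x (eta_ne hk)]
    rw [Finset.sum_congr rfl h1, ← Finset.sum_smul, eta_sum, one_smul]
  refine pelczynski hp (sumMap S _ hSb) R (fun w => ?_)
  have h2 : R.comp (sumMap S _ hSb) = ContinuousLinearMap.id ℝ (EllP p F) := by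
    refine ext_inj fun i y => ?_
    show R (sumMap S _ hSb (inj i y)) = inj i y
    rw [sumMap_inj, ← hRS i]
    rfl
  have h3 := congrArg (fun T : EllP p F →L[ℝ] EllP p F => T w) h2
  exact h3

end Pool.Agent.H621R3.LF
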