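import Mathlib

/-!
# Star-finite coverings by closed balls: the ray lemma and big balls
-/

set_option autoImplicit false

open Set Metric Filter Topology

namespace Pool.Agent.H621R3.SF

variable {E : Type*} [NormedAddCommGroup E] [NormedSpace ℝ E] {ι : Type*}

/-- neighbours of a ball -/
def Nb (c : ι → E) (r : ι → ℝ) (i : ι) : Set ι :=
  {j : ι | (closedBall (c i) (r i) ∩ closedBall (c j) (r j)).Nonempty}

/-- the singular points: the covering is not locally finite there -/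
def Sg (c : ι → E) (r : ι → ℝ) : Set E :=
  {x | ∀ U ∈ 𝓝 x, ¬ {i : ι | (closedBall (c i) (r i) ∩ U).Nonempty}.Finite}

theorem mem_nb_self {c : ι → E} {r : ι → ℝ} (hr : ∀ i, 0 < r i) (i : ι) : i ∈ Nb c r i :=
  ⟨c i, mem_closedBall_self (hr i).le, mem_closedBall_self (hr i).le⟩

theorem nb_of_mem {c : ι → E} {r : ι → ℝ} {i j : ι} {y : E} (hi : y ∈ closedBall (c i) (r i))
    (hj : y ∈ closedBall (c j) (r j)) : j ∈ Nb c r i := ⟨y, hi, hj⟩

theorem nb_symm {c : ι → E} {r : ι → ℝ} {i j : ι} (h : j ∈ Nb c r i) : i ∈ Nb c r j := by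
  obtain ⟨y, h1, h2⟩ := h
  exact ⟨y, h2, h1⟩

/-- a common zero of finitely many functionals -/
theorem exists_ker (hE : ¬ FiniteDimensional ℝ E) {κ : Type*} (T : Set κ) (hT : T.Finite)
    (f : κ → (E →L[ℝ] ℝ)) : ∃ w : E, w ≠ 0 ∧ ∀ k ∈ T, f k w = 0 := by
  by_contra hcon
  push Not at hcon
  apply hE
  haveI : Finite T := hT
  let L : E →ₗ[ℝ] (T → ℝ) := LinearMap.pi (fun k : T => (f k : E →ₗ[ℝ] ℝ))
  have hinj : Function.Injective L := by
    rw [← LinearMap.ker_eq_bot, LinearMap.ker_eq_bot']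
    intro w hw
    by_contra hw0
    obtain ⟨k, hk, hkw⟩ := hcon w hw0
    apply hkw
    exact congrFun hw ⟨k, hk⟩
  exact FiniteDimensional.of_injective L hinj

/-- **General ray lemma**: a ray that leaves the union of a ball and its neighbours before time `T`
and does not enter before time `T` any second neighbour not containing its origin meets a singular
point in a ball containing its origin. -/
theorem ray_gen {c : ι → E} {r : ι → ℝ} (hr : ∀ i, 0 < r i)
    (hcov : ∀ y : E, ∃ i, y ∈ closedBall (c i) (r i)) (hsf : ∀ i, (Nb c r i).Finite) (y w : E)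
    {i : ι} (hi : y ∈ closedBall (c i) (r i)) {T : ℝ} (hT : 0 ≤ T)
    (hexit : ∀ j ∈ Nb c r i, y + T • w ∉ closedBall (c j) (r j))
    (hnever : ∀ k ∈ (⋃ j ∈ Nb c r i, Nb c r j), ∀ t : ℝ, 0 ≤ t → t ≤ T →
      y + t • w ∈ closedBall (c k) (r k) → y ∈ closedBall (c k) (r k)) :
    ∃ j, y ∈ closedBall (c j) (r j) ∧ ∃ t, 0 ≤ t ∧ t ≤ T ∧ y + t • w ∈ Sg c r ∧
      y + t • w ∈ closedBall (c j) (r j) := by
  classical
  set K : Set E := ⋃ j ∈ Nb c r i, closedBall (c j) (r j) with hK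
  have hKc : IsClosed K := (hsf i).isClosed_biUnion (fun j _ => isClosed_closedBall)
  have hyK : y ∈ K := mem_biUnion (mem_nb_self hr i) hi
  -- exit set
  set A : Set ℝ := {t : ℝ | 0 ≤ t ∧ y + t • w ∉ K} with hA
  have hTA : T ∈ A := by
    refine ⟨hT, fun h => ?_⟩
    rw [hK] at h
    simp only [mem_iUnion, exists_prop] at h
    obtain ⟨j, hj, hj'⟩ := h
    exact hexit j hj hj'
  have hAne : A.Nonempty := ⟨T, hTA⟩
  have hAbd : BddBelow A := ⟨0, fun t ht => ht.1⟩
  set t0 := sInf A with ht0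
  have ht0n : 0 ≤ t0 := le_csInf hAne (fun t ht => ht.1)
  have ht0T : t0 ≤ T := csInf_le hAbd hTA
  have hcont : Continuous (fun t : ℝ => y + t • w) := by fun_prop
  set q := y + t0 • w with hq
  have hqcl : q ∈ closure Kᶜ := by
    have h1 : t0 ∈ closure A := csInf_mem_closure hAne hAbd
    have h2 : (fun t : ℝ => y + t • w) t0 ∈ closure ((fun t : ℝ => y + t • w) '' A) :=
      image_closure_subset_closure_image hcont ⟨t0, h1, rfl⟩
    refine closure_mono ?_ h2
    rintro _ ⟨t, ht, rfl⟩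
    exact ht.2
  have hqK : q ∈ K := by
    rcases ht0n.eq_or_lt with h | h
    · rw [hq, ← h]; simpa using hyK
    · have h1 : t0 ∈ closure (Ico 0 t0) := by
        rw [closure_Ico h.ne]
        exact ⟨h.le, le_rfl⟩
      have h2 : (fun t : ℝ => y + t • w) t0 ∈ closure ((fun t : ℝ => y + t • w) '' (Ico 0 t0)) :=
        image_closure_subset_closure_image hcont ⟨t0, h1, rfl⟩
      have h3 : (fun t : ℝ => y + t • w) '' (Ico 0 t0) ⊆ K := by
        rintro _ ⟨t, ht, rfl⟩
        by_contra hcon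
        have := csInf_le hAbd (show t ∈ A from ⟨ht.1, hcon⟩)
        exact absurd ht.2 (not_lt.mpr this)
      exact hKc.closure_subset (closure_mono h3 h2)
  -- the exit point is singular
  have hqS : q ∈ Sg c r := by
    by_contra hns
    simp only [Sg, mem_ofPred_eq, not_forall, not_not] at hns
    obtain ⟨U, hU, hfin⟩ := hns
    set J : Set ι := {j | (closedBall (c j) (r j) ∩ U).Nonempty} \ Nb c r i with hJ
    have hJf : J.Finite := hfin.subset sdiff_subset
    have hcl : IsClosed (⋃ j ∈ J, closedBall (c j) (r j)) :=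
      hJf.isClosed_biUnion (fun j _ => isClosed_closedBall)
    have hsub : Kᶜ ∩ U ⊆ ⋃ j ∈ J, closedBall (c j) (r j) := by
      rintro z ⟨hz1, hz2⟩
      obtain ⟨j, hj⟩ := hcov z
      refine mem_biUnion ⟨⟨z, hj, hz2⟩, fun hjn => hz1 (mem_biUnion hjn hj)⟩ hj
    have hq' : q ∈ closure (Kᶜ ∩ U) := by
      rw [mem_closure_iff_nhds] at hqcl ⊢
      intro V hV
      obtain ⟨z, hz1, hz2⟩ := hqcl (V ∩ U) (inter_mem hV hU)
      exact ⟨z, hz1.1, hz2, hz1.2⟩
    have hq'' := hcl.closure_subset (closure_mono hsub hq')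
    simp only [mem_iUnion, exists_prop] at hq''
    obtain ⟨j, hjJ, hqj⟩ := hq''
    rw [hK] at hqK
    simp only [mem_iUnion, exists_prop] at hqK
    obtain ⟨j', hj', hqj'⟩ := hqK
    have hk : j ∈ (⋃ j ∈ Nb c r i, Nb c r j) := mem_biUnion hj' (nb_of_mem hqj' hqj)
    have := hnever j hk t0 ht0n ht0T hqj
    exact hjJ.2 (nb_of_mem hi this)
  have hqK' := hqK
  rw [hK] at hqK'
  simp only [mem_iUnion, exists_prop] at hqK'
  obtain ⟨j', hj', hqj'⟩ := hqK'
  have hk : j' ∈ (⋃ j ∈ Nb c r i, Nb c r j) :=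
    mem_biUnion hj' (mem_nb_self hr j')
  exact ⟨j', hnever j' hk t0 ht0n ht0T hqj', t0, ht0n, ht0T, hqS, hqj'⟩

/-- **Ray lemma**: every point lies in a ball that contains a singular point. -/
theorem ray {c : ι → E} {r : ι → ℝ} (hr : ∀ i, 0 < r i) (hE : ¬ FiniteDimensional ℝ E)
    (hcov : ∀ y : E, ∃ i, y ∈ closedBall (c i) (r i)) (hsf : ∀ i, (Nb c r i).Finite) (y : E) :
    ∃ j, y ∈ closedBall (c j) (r j) ∧ ∃ q ∈ Sg c r, q ∈ closedBall (c j) (r j) := by
  classical
  obtain ⟨i, hi⟩ := hcov y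
  have hF2 : (⋃ j ∈ Nb c r i, Nb c r j).Finite := (hsf i).biUnion (fun j _ => hsf j)
  have hn : ∀ k : ι, ∃ g : E →L[ℝ] ℝ, ‖g‖ ≤ 1 ∧ g (y - c k) = ‖y - c k‖ := by
    intro k
    obtain ⟨g, h1, h2⟩ := exists_dual_vector'' ℝ (y - c k)
    exact ⟨g, h1, by simpa using h2⟩
  choose f hf1 hf2 using hn
  obtain ⟨w, hw0, hw⟩ := exists_ker hE _ hF2 f
  have hnever : ∀ k ∈ (⋃ j ∈ Nb c r i, Nb c r j), ∀ t : ℝ,
      y + t • w ∈ closedBall (c k) (r k) → y ∈ closedBall (c k) (r k) := by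
    intro k hk t ht
    rw [mem_closedBall, dist_eq_norm] at ht ⊢
    have h1 : f k (y + t • w - c k) ≤ ‖y + t • w - c k‖ := by
      calc f k (y + t • w - c k) ≤ ‖f k (y + t • w - c k)‖ := Real.le_norm_self _
        _ ≤ ‖f k‖ * ‖y + t • w - c k‖ := (f k).le_opNorm _
        _ ≤ 1 * ‖y + t • w - c k‖ := by gcongr; exact hf1 k
        _ = _ := one_mul _
    have h2 : f k (y + t • w - c k) = ‖y - c k‖ := by
      have : y + t • w - c k = (y - c k) + t • w := by abel
      rw [this, map_add, map_smul, hw k hk, hf2]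
      simp
    linarith
  have hKb : Bornology.IsBounded (⋃ j ∈ Nb c r i, closedBall (c j) (r j)) := by
    rw [Bornology.isBounded_biUnion (hsf i)]
    exact fun j _ => isBounded_closedBall
  obtain ⟨R, hR⟩ := hKb.subset_closedBall y
  have hw' : 0 < ‖w‖ := norm_pos_iff.mpr hw0
  obtain ⟨j, hj, t, -, -, hs, ht⟩ := ray_gen hr hcov hsf y w hi (T := (|R| + 1) / ‖w‖)
    (by positivity) (by
      intro j hj h
      have h1 := hR (mem_biUnion hj h)
      rw [mem_closedBall, dist_eq_norm, add_sub_cancel_left, norm_smul, Real.norm_eq_abs,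
        abs_of_nonneg (by positivity : 0 ≤ (|R| + 1) / ‖w‖), div_mul_cancel₀ _ hw'.ne'] at h1
      have := le_abs_self R
      linarith) (fun k hk t _ _ h => hnever k hk t h)
  exact ⟨j, hj, _, hs, ht⟩

/-- singular points are not interior to balls -/
theorem sg_not_ball {c : ι → E} {r : ι → ℝ} (hsf : ∀ i, (Nb c r i).Finite) {x : E}
    (hx : x ∈ Sg c r) (i : ι) : x ∉ ball (c i) (r i) := by
  intro h
  apply hx (ball (c i) (r i)) (isOpen_ball.mem_nhds h)
  refine (hsf i).subset ?_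
  rintro j ⟨z, hz1, hz2⟩
  exact ⟨z, ball_subset_closedBall hz2, hz1⟩

theorem sg_closed (c : ι → E) (r : ι → ℝ) : IsClosed (Sg c r) := by
  rw [← isOpen_compl_iff, isOpen_iff_mem_nhds]
  intro x hx
  simp only [Sg, mem_compl_iff, mem_ofPred_eq, not_forall, not_not] at hx
  obtain ⟨U, hU, hfin⟩ := hx
  obtain ⟨V, hVU, hVo, hxV⟩ := _root_.mem_nhds_iff.mp hU
  filter_upwards [hVo.mem_nhds hxV] with z hz
  simp only [Sg, mem_compl_iff, mem_ofPred_eq, not_forall, not_not]
  refine ⟨V, hVo.mem_nhds hz, hfin.subset ?_⟩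
  rintro j ⟨a, ha1, ha2⟩
  exact ⟨a, ha1, hVU ha2⟩

theorem countable_index {c : ι → E} {r : ι → ℝ} [TopologicalSpace.SeparableSpace E]
    (hr : ∀ i, 0 < r i) (hsf : ∀ i, (Nb c r i).Finite) : Countable ι := by
  classical
  obtain ⟨D, hDc, hDd⟩ := TopologicalSpace.exists_countable_dense E
  have h : (univ : Set ι) ⊆ ⋃ d ∈ D, {i | d ∈ closedBall (c i) (r i)} := by
    intro i _
    obtain ⟨d, hd1, hd2⟩ := hDd.exists_mem_open isOpen_ball ⟨c i, mem_ball_self (hr i)⟩
    exact mem_biUnion hd1 (ball_subset_closedBall hd2)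
  have h2 : (⋃ d ∈ D, {i | d ∈ closedBall (c i) (r i)}).Countable := by
    refine hDc.biUnion (fun d _ => ?_)
    by_cases hne : {i | d ∈ closedBall (c i) (r i)}.Nonempty
    · obtain ⟨i, hi⟩ := hne
      exact ((hsf i).subset (fun j hj => nb_of_mem hi hj)).countable
    · rw [not_nonempty_iff_eq_empty.mp hne]; exact countable_empty
  exact countable_univ_iff.mp (h2.mono h)

end Pool.Agent.H621R3.SF
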