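import Pool.Agent.H621R3.SF

set_option autoImplicit false

open Set Metric Filter Topology

namespace Pool.Agent.H621R3.SF

variable {E : Type*} [NormedAddCommGroup E] [NormedSpace ℝ E] {ι : Type*}

/-- Baire: a singular point near which all singular points lie in one ball -/
theorem baire_point [CompleteSpace E] [TopologicalSpace.SeparableSpace E] {c : ι → E} {r : ι → ℝ}
    (hr : ∀ i, 0 < r i) (hE : ¬ FiniteDimensional ℝ E)
    (hcov : ∀ y : E, ∃ i, y ∈ closedBall (c i) (r i)) (hsf : ∀ i, (Nb c r i).Finite) :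
    ∃ x ∈ Sg c r, ∃ ρ > 0, ∃ i, ∀ z ∈ Sg c r, dist z x < ρ → z ∈ closedBall (c i) (r i) := by
  haveI : Countable ι := countable_index hr hsf
  have hcl : IsClosed (Sg c r) := sg_closed c r
  haveI : CompleteSpace (Sg c r) := hcl.completeSpace_coe
  haveI : Nonempty (Sg c r) := by
    obtain ⟨j, -, q, hq, -⟩ := ray hr hE hcov hsf 0
    exact ⟨⟨q, hq⟩⟩
  obtain ⟨i, ⟨x, hx⟩⟩ := nonempty_interior_of_iUnion_of_closed
    (f := fun i : ι => {z : Sg c r | (z : E) ∈ closedBall (c i) (r i)})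
    (fun i => isClosed_closedBall.preimage continuous_subtype_val) (by
      rw [eq_univ_iff_forall]
      intro z
      obtain ⟨i, hi⟩ := hcov z
      exact mem_iUnion.mpr ⟨i, hi⟩)
  rw [mem_interior_iff_mem_nhds, Metric.mem_nhds_iff] at hx
  obtain ⟨ρ, hρ, hsub⟩ := hx
  refine ⟨x, x.2, ρ, hρ, i, fun z hz hzx => ?_⟩
  exact hsub (show (⟨z, hz⟩ : Sg c r) ∈ ball x ρ from hzx)

/-- big balls near the Baire point, avoiding given balls -/
theorem next {c : ι → E} {r : ι → ℝ}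
    (hr : ∀ i, 0 < r i) (hE : ¬ FiniteDimensional ℝ E)
    (hcov : ∀ y : E, ∃ i, y ∈ closedBall (c i) (r i)) (hsf : ∀ i, (Nb c r i).Finite)
    {x : E} (hx : x ∈ Sg c r) {ρ : ℝ} (hρ : 0 < ρ) {i₁ : ι}
    (hB : ∀ z ∈ Sg c r, dist z x < ρ → z ∈ closedBall (c i₁) (r i₁))
    {G : Set ι} (hG : G.Finite) (hGx : ∀ g ∈ G, x ∉ closedBall (c g) (r g))
    {ε : ℝ} (hε : 0 < ε) :
    ∃ j, (∃ y ∈ closedBall (c j) (r j), dist y x < ε) ∧ ρ / 4 ≤ r j ∧ j ∉ G ∧
      ∀ g ∈ Nb c r j, x ∉ closedBall (c g) (r g) := by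
  classical
  obtain ⟨i0, hi0⟩ := hcov x
  set I : Set ι := {i | x ∈ closedBall (c i) (r i)} with hI
  have hIf : I.Finite := (hsf i0).subset (fun j hj => nb_of_mem hi0 hj)
  set M : Set ι := ⋃ i ∈ I, Nb c r i with hM
  have hMf : M.Finite := hIf.biUnion (fun i _ => hsf i)
  set H : Set ι := G ∪ {k ∈ M | x ∉ closedBall (c k) (r k)} with hH
  have hHf : H.Finite := hG.union (hMf.subset (fun k hk => hk.1))
  have hHx : ∀ k ∈ H, x ∉ closedBall (c k) (r k) := by
    rintro k (hk | hk)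
    · exact hGx k hk
    · exact hk.2
  have hcl : IsClosed (⋃ k ∈ H, closedBall (c k) (r k)) :=
    hHf.isClosed_biUnion (fun j _ => isClosed_closedBall)
  have hxn : x ∉ ⋃ k ∈ H, closedBall (c k) (r k) := by
    simp only [mem_iUnion, exists_prop, not_exists, not_and]
    exact hHx
  obtain ⟨δ, hδ, hδs⟩ := Metric.isOpen_iff.mp hcl.isOpen_compl x hxn
  set e : ℝ := min δ (min ε (ρ / 2)) with he
  have he0 : 0 < e := lt_min hδ (lt_min hε (by linarith))
  have heδ : e ≤ δ := min_le_left _ _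
  have heε : e ≤ ε := (min_le_right _ _).trans (min_le_left _ _)
  have heρ : e ≤ ρ / 2 := (min_le_right _ _).trans (min_le_right _ _)
  have hinf := hx (ball x e) (ball_mem_nhds x he0)
  obtain ⟨k, hk1, hkM⟩ : ∃ k ∈ {i : ι | (closedBall (c i) (r i) ∩ ball x e).Nonempty}, k ∉ M := by
    by_contra hcon
    push Not at hcon
    exact hinf (hMf.subset hcon)
  obtain ⟨y, hyk, hyx⟩ := hk1
  rw [mem_ball] at hyx
  obtain ⟨j, hyj, q, hqS, hqj⟩ := ray hr hE hcov hsf y
  have hyc : y ∉ ⋃ k ∈ H, closedBall (c k) (r k) := hδs (mem_ball.mpr (hyx.trans_le heδ))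
  have hjH : j ∉ H := fun h => hyc (mem_biUnion h hyj)
  have hxj : x ∉ closedBall (c j) (r j) := fun h =>
    hkM (mem_biUnion (show j ∈ I from h) (nb_of_mem hyj hyk))
  have hjM : j ∉ M := fun h => hjH (Or.inr ⟨h, hxj⟩)
  have hi1 : i₁ ∈ I := hB x hx (by rw [dist_self]; exact hρ)
  refine ⟨j, ⟨y, hyj, hyx.trans_le heε⟩, ?_, fun h => hjH (Or.inl h), ?_⟩
  · have hq : ρ ≤ dist q x := by
      by_contra hcon
      push Not at hcon
      exact hjM (mem_biUnion hi1 (nb_of_mem (hB q hqS hcon) hqj))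
    have h1 : dist q x ≤ dist q y + dist y x := dist_triangle _ _ _
    have h2 : dist q y ≤ dist q (c j) + dist y (c j) := dist_triangle_right _ _ _
    rw [mem_closedBall] at hqj hyj
    linarith
  · intro g hg hxg
    exact hjM (mem_biUnion (show g ∈ I from hxg) (nb_symm hg))

/-- the data of a big ball near `x` -/
def P (c : ι → E) (r : ι → ℝ) (x : E) (ρ : ℝ) (p : ℕ × ι) : Prop :=
  (∃ y ∈ closedBall (c p.2) (r p.2), dist y x < 1 / ((p.1 : ℝ) + 1)) ∧ ρ / 4 ≤ r p.2 ∧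
    ∀ g ∈ Nb c r p.2, x ∉ closedBall (c g) (r g)

theorem big_seq [CompleteSpace E] [TopologicalSpace.SeparableSpace E] {c : ι → E} {r : ι → ℝ}
    (hr : ∀ i, 0 < r i) (hE : ¬ FiniteDimensional ℝ E)
    (hcov : ∀ y : E, ∃ i, y ∈ closedBall (c i) (r i)) (hsf : ∀ i, (Nb c r i).Finite) :
    ∃ (x : E) (s : ℝ) (j : ℕ → ι) (y : ℕ → E), 0 < s ∧ x ∈ Sg c r ∧ y 0 = x ∧
      (∀ n, y n ∈ closedBall (c (j n)) (r (j n))) ∧ (∀ n, dist (y n) x ≤ 2 / ((n : ℝ) + 1)) ∧
      (∀ n, s ≤ r (j n)) ∧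
      (∀ m n, m < n → Disjoint (closedBall (c (j m)) (r (j m))) (closedBall (c (j n)) (r (j n)))) := by
  classical
  obtain ⟨x, hx, ρ, hρ, i₁, hB⟩ := baire_point hr hE hcov hsf
  have hx1 : x ∈ closedBall (c i₁) (r i₁) := hB x hx (by rw [dist_self]; exact hρ)
  obtain ⟨f, hf1, hf2⟩ := exists_seq_of_forall_finset_exists (P c r x ρ)
    (fun p q : ℕ × ι => p.1 < q.1 ∧ q.2 ∉ Nb c r p.2) (by
      intro s hs
      have hG : (⋃ p ∈ s, Nb c r p.2).Finite :=
        s.finite_toSet.biUnion (fun p _ => hsf p.2)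
      have hGx : ∀ g ∈ (⋃ p ∈ s, Nb c r p.2), x ∉ closedBall (c g) (r g) := by
        intro g hg
        simp only [mem_iUnion, exists_prop] at hg
        obtain ⟨p, hp, hgp⟩ := hg
        exact (hs p hp).2.2 g hgp
      obtain ⟨j, hj1, hj2, hj3, hj4⟩ := next hr hE hcov hsf hx hρ hB hG hGx
        (ε := 1 / (((s.sup Prod.fst + 1 : ℕ) : ℝ) + 1)) (by positivity)
      refine ⟨(s.sup Prod.fst + 1, j), ⟨hj1, hj2, hj4⟩, fun p hp => ⟨?_, fun h => hj3 ?_⟩⟩
      · exact Nat.lt_succ_of_le (Finset.le_sup (f := Prod.fst) hp)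
      · exact mem_biUnion (show p ∈ (s : Set (ℕ × ι)) from hp) h)
  have hmono : ∀ n, n ≤ (f n).1 := by
    have : StrictMono (fun n => (f n).1) := fun m n h => (hf2 m n h).1
    exact this.id_le
  choose y hy1 hy2 using fun n => (hf1 n).1
  have hdis : ∀ m n, m < n →
      Disjoint (closedBall (c (f m).2) (r (f m).2)) (closedBall (c (f n).2) (r (f n).2)) := by
    intro m n h
    rw [Set.disjoint_iff_inter_eq_empty]
    by_contra hne
    exact (hf2 m n h).2 (nonempty_iff_ne_empty.mpr hne)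
  have hdis0 : ∀ n, Disjoint (closedBall (c i₁) (r i₁)) (closedBall (c (f n).2) (r (f n).2)) := by
    intro n
    rw [Set.disjoint_iff_inter_eq_empty]
    by_contra hne
    exact (hf1 n).2.2 i₁ (nb_symm (nonempty_iff_ne_empty.mpr hne)) hx1
  refine ⟨x, min (ρ / 4) (r i₁), fun n => Nat.casesOn n i₁ (fun k => (f k).2),
    fun n => Nat.casesOn n x y, lt_min (by positivity) (hr _), hx, rfl, ?_, ?_, ?_, ?_⟩
  · rintro (_ | n)
    · exact hx1
    · exact hy1 n
  · rintro (_ | n)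
    · show dist x x ≤ _
      rw [dist_self]; positivity
    · refine (hy2 n).le.trans ?_
      have : (n : ℝ) ≤ (f n).1 := by exact_mod_cast hmono n
      rw [div_le_div_iff₀ (by positivity) (by positivity)]
      push_cast
      nlinarith [(Nat.cast_nonneg n : (0 : ℝ) ≤ n)]
  · rintro (_ | n)
    · exact min_le_right _ _
    · exact (min_le_left _ _).trans (hf1 n).2.1
  · rintro (_ | m) (_ | n) h
    · exact absurd h (lt_irrefl _)
    · exact hdis0 n
    · exact absurd h (Nat.not_lt_zero _)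
    · exact hdis m n (Nat.succ_lt_succ_iff.mp h)

/-- **Kottman constant two**, with a unit vector in the sequence. -/
theorem kottman [CompleteSpace E] [TopologicalSpace.SeparableSpace E] {c : ι → E} {r : ι → ℝ}
    (hr : ∀ i, 0 < r i) (hE : ¬ FiniteDimensional ℝ E)
    (hcov : ∀ y : E, ∃ i, y ∈ closedBall (c i) (r i)) (hsf : ∀ i, (Nb c r i).Finite) :
    ∃ v : ℕ → E, ‖v 0‖ = 1 ∧ Tendsto (fun n => ‖v n‖) atTop (𝓝 1) ∧
      ∀ m n, m ≠ n → 2 < ‖v m - v n‖ := by
  obtain ⟨x, s, j, y, hs, -, hy0, hy, hyx, hsr, hdis⟩ := big_seq hr hE hcov hsf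
  set d : ℕ → E := fun n => y n + (s / r (j n)) • (c (j n) - y n) with hd
  have hratio : ∀ n, 0 < s / r (j n) ∧ s / r (j n) ≤ 1 := fun n =>
    ⟨div_pos hs (hr _), (div_le_one (hr _)).mpr (hsr n)⟩
  have hcy : ∀ n, ‖c (j n) - y n‖ ≤ r (j n) := fun n => by
    have := hy n
    rw [mem_closedBall, dist_eq_norm] at this
    rwa [norm_sub_rev]
  have hsub : ∀ n, closedBall (d n) s ⊆ closedBall (c (j n)) (r (j n)) := by
    intro n
    apply closedBall_subset_closedBall'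
    have h1 : dist (d n) (c (j n)) = (1 - s / r (j n)) * ‖c (j n) - y n‖ := by
      rw [dist_eq_norm, hd]
      have : y n + (s / r (j n)) • (c (j n) - y n) - c (j n)
          = -((1 - s / r (j n)) • (c (j n) - y n)) := by
        rw [sub_smul, one_smul]; abel
      simp only [this, norm_neg, norm_smul, Real.norm_eq_abs,
        abs_of_nonneg (sub_nonneg.mpr (hratio n).2)]
    rw [h1]
    have h2 : (1 - s / r (j n)) * ‖c (j n) - y n‖ ≤ (1 - s / r (j n)) * r (j n) :=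
      mul_le_mul_of_nonneg_left (hcy n) (sub_nonneg.mpr (hratio n).2)
    have h3 : (1 - s / r (j n)) * r (j n) = r (j n) - s := by
      rw [sub_mul, one_mul, div_mul_cancel₀ _ (hr _).ne']
    linarith
  have hdy : ∀ n, dist (d n) (y n) ≤ s := by
    intro n
    rw [dist_eq_norm, hd]
    simp only [add_sub_cancel_left, norm_smul, Real.norm_eq_abs, abs_of_pos (hratio n).1]
    calc s / r (j n) * ‖c (j n) - y n‖ ≤ s / r (j n) * r (j n) :=
          mul_le_mul_of_nonneg_left (hcy n) (hratio n).1.le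
      _ = s := div_mul_cancel₀ _ (hr _).ne'
  have hsep : ∀ m n, m < n → 2 * s < dist (d m) (d n) := by
    intro m n hmn
    by_contra hcon
    push Not at hcon
    have hmid : midpoint ℝ (d m) (d n) ∈ closedBall (d m) s ∧
        midpoint ℝ (d m) (d n) ∈ closedBall (d n) s := by
      constructor
      · rw [mem_closedBall, dist_midpoint_left]
        have : ‖(2 : ℝ)‖⁻¹ = 1 / 2 := by norm_num
        rw [this]; linarith
      · rw [mem_closedBall, dist_midpoint_right]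
        have : ‖(2 : ℝ)‖⁻¹ = 1 / 2 := by norm_num
        rw [this]; linarith
    exact Set.disjoint_left.mp (hdis m n hmn) (hsub m hmid.1) (hsub n hmid.2)
  have hsep' : ∀ m n, m ≠ n → 2 < ‖s⁻¹ • (d m - x) - s⁻¹ • (d n - x)‖ := by
    intro m n hmn
    have h0 : 2 * s < dist (d m) (d n) := by
      rcases lt_or_gt_of_ne hmn with h | h
      · exact hsep m n h
      · rw [dist_comm]; exact hsep n m h
    have h1 : s⁻¹ • (d m - x) - s⁻¹ • (d n - x) = s⁻¹ • (d m - d n) := by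
      rw [← smul_sub]; congr 1; abel
    rw [h1, norm_smul, Real.norm_eq_abs, abs_of_pos (inv_pos.mpr hs), inv_mul_eq_div,
      lt_div_iff₀ hs, ← dist_eq_norm]
    exact h0
  have hup' : ∀ n : ℕ, ‖s⁻¹ • (d n - x)‖ ≤ 1 + s⁻¹ * dist (y n) x := by
    intro n
    have h1 : ‖d n - x‖ ≤ s + dist (y n) x := by
      rw [← dist_eq_norm]
      calc dist (d n) x ≤ dist (d n) (y n) + dist (y n) x := dist_triangle _ _ _
        _ ≤ _ := add_le_add (hdy n) le_rfl
    rw [norm_smul, Real.norm_eq_abs, abs_of_pos (inv_pos.mpr hs)]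
    calc s⁻¹ * ‖d n - x‖ ≤ s⁻¹ * (s + dist (y n) x) :=
          mul_le_mul_of_nonneg_left h1 (inv_pos.mpr hs).le
      _ = _ := by rw [mul_add, inv_mul_cancel₀ hs.ne']
  have hup : ∀ n : ℕ, ‖s⁻¹ • (d n - x)‖ ≤ 1 + s⁻¹ * (2 / ((n : ℝ) + 1)) := by
    intro n
    refine (hup' n).trans ?_
    have := mul_le_mul_of_nonneg_left (hyx n) (inv_pos.mpr hs).le
    linarith
  have hlim : Tendsto (fun n : ℕ => 1 + s⁻¹ * (2 / ((n : ℝ) + 1))) atTop (𝓝 1) := by
    have h1 : Tendsto (fun n : ℕ => 2 * (1 / ((n : ℝ) + 1))) atTop (𝓝 (2 * 0)) :=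
      tendsto_one_div_add_atTop_nhds_zero_nat.const_mul _
    have h2 : Tendsto (fun n : ℕ => 1 + s⁻¹ * (2 * (1 / ((n : ℝ) + 1)))) atTop
        (𝓝 (1 + s⁻¹ * (2 * 0))) := (h1.const_mul _).const_add _
    simpa [div_eq_mul_inv] using h2
  have hlow : ∀ n, 1 ≤ ‖s⁻¹ • (d n - x)‖ := by
    intro n
    have h1 : Tendsto (fun m : ℕ => 2 - (1 + s⁻¹ * (2 / ((m : ℝ) + 1)))) atTop (𝓝 (2 - 1)) :=
      tendsto_const_nhds.sub hlim
    have h2 : (2 : ℝ) - 1 ≤ ‖s⁻¹ • (d n - x)‖ := by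
      refine le_of_tendsto h1 ?_
      filter_upwards [eventually_gt_atTop n] with m hm
      have h3 := hsep' m n (ne_of_gt hm)
      have h4 := norm_sub_le (s⁻¹ • (d m - x)) (s⁻¹ • (d n - x))
      have h5 := hup m
      linarith
    linarith
  refine ⟨fun n => s⁻¹ • (d n - x), ?_, ?_, hsep'⟩
  · have h1 := hup' 0
    rw [hy0, dist_self, mul_zero, add_zero] at h1
    exact le_antisymm h1 (hlow 0)
  · exact tendsto_of_tendsto_of_tendsto_of_le_of_le tendsto_const_nhds hlim hlow hup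

end Pool.Agent.H621R3.SF
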