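import Pool.Agent.H621R3.SF2

set_option autoImplicit false

open Set Metric Filter Topology

namespace Pool.Agent.H621R3.SF

variable {E : Type*} [NormedAddCommGroup E] [NormedSpace ℝ E] {ι : Type*}

theorem no_oct [CompleteSpace E] [TopologicalSpace.SeparableSpace E] {c : ι → E} {r : ι → ℝ}
    (hr : ∀ i, 0 < r i) (hE : ¬ FiniteDimensional ℝ E)
    (hcov : ∀ y : E, ∃ i, y ∈ closedBall (c i) (r i)) (hsf : ∀ i, (Nb c r i).Finite)
    {a : ℝ} (ha : 0 < a)
    (hO : ∀ (Y : Finset E) (ε : ℝ), 0 < ε → ∃ w : E, ‖w‖ = 1 ∧ ∀ y ∈ Y, ∀ t : ℝ, 0 ≤ t → t ≤ 1 →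
      ‖y‖ + a * t - ε ≤ ‖y + t • w‖) : False := by
  classical
  obtain ⟨x, hx, ρ, hρ, i₁, hB⟩ := baire_point hr hE hcov hsf
  obtain ⟨i0, hi0⟩ := hcov x
  set I : Set ι := {i | x ∈ closedBall (c i) (r i)} with hI
  have hIf : I.Finite := (hsf i0).subset (fun j hj => nb_of_mem hi0 hj)
  set M : Set ι := ⋃ i ∈ I, Nb c r i with hM
  have hMf : M.Finite := hIf.biUnion (fun i _ => hsf i)
  set H : Set ι := {k ∈ M | x ∉ closedBall (c k) (r k)} with hH
  have hHf : H.Finite := hMf.subset (fun k hk => hk.1)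
  have hcl : IsClosed (⋃ k ∈ H, closedBall (c k) (r k)) :=
    hHf.isClosed_biUnion (fun j _ => isClosed_closedBall)
  have hxn : x ∉ ⋃ k ∈ H, closedBall (c k) (r k) := by
    simp only [mem_iUnion, exists_prop, not_exists, not_and]
    exact fun k hk => hk.2
  obtain ⟨δ, hδ, hδs⟩ := Metric.isOpen_iff.mp hcl.isOpen_compl x hxn
  set e : ℝ := min δ (min (a / 2) (ρ / (2 * (1 + 2 / a)))) with he
  have hpos : 0 < 2 * (1 + 2 / a) := by positivity
  have he0 : 0 < e := lt_min hδ (lt_min (by positivity) (by positivity))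
  have heδ : e ≤ δ := min_le_left _ _
  have hea : e ≤ a / 2 := (min_le_right _ _).trans (min_le_left _ _)
  have heρ : e ≤ ρ / (2 * (1 + 2 / a)) := (min_le_right _ _).trans (min_le_right _ _)
  have hinf := hx (ball x e) (ball_mem_nhds x he0)
  obtain ⟨k, hk1, hkM⟩ : ∃ k ∈ {i : ι | (closedBall (c i) (r i) ∩ ball x e).Nonempty}, k ∉ M := by
    by_contra hcon
    push Not at hcon
    exact hinf (hMf.subset hcon)
  obtain ⟨y, hyk, hyx⟩ := hk1
  rw [mem_ball] at hyx
  have hxj : ∀ j, y ∈ closedBall (c j) (r j) → x ∉ closedBall (c j) (r j) := fun j hyj h =>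
    hkM (mem_biUnion (show j ∈ I from h) (nb_of_mem hyj hyk))
  have hyc : y ∉ ⋃ k ∈ H, closedBall (c k) (r k) := hδs (mem_ball.mpr (hyx.trans_le heδ))
  have hjM : ∀ j, y ∈ closedBall (c j) (r j) → j ∉ M := fun j hyj h =>
    hyc (mem_biUnion (show j ∈ H from ⟨h, hxj j hyj⟩) hyj)
  have hF2 : (⋃ j ∈ Nb c r k, Nb c r j).Finite := (hsf k).biUnion (fun j _ => hsf j)
  -- choice of ε
  have hev : ∀ᶠ ε in 𝓝[>] (0 : ℝ), (∀ j ∈ (⋃ j ∈ Nb c r k, Nb c r j),
      y ∉ closedBall (c j) (r j) → ε < ‖y - c j‖ - r j) ∧ ε < e ∧ 0 < ε := by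
    refine ((eventually_all_finite hF2).mpr fun j _ => ?_).and
      (mem_of_superset (Ioo_mem_nhdsGT he0) ?_)
    · by_cases hyj : y ∈ closedBall (c j) (r j)
      · exact Eventually.of_forall fun ε h => absurd hyj h
      · have h1 : 0 < ‖y - c j‖ - r j := by
          rw [mem_closedBall, dist_eq_norm, not_le] at hyj
          linarith
        filter_upwards [Ioo_mem_nhdsGT h1] with ε hε _
        exact hε.2
    · intro ε hε
      exact ⟨hε.2, hε.1⟩
  obtain ⟨ε, hε1, hε2, hε3⟩ := hev.exists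
  obtain ⟨w, hw1, hw⟩ := hO (hF2.toFinset.image (fun j => y - c j)) ε hε3
  have hw' : ∀ j ∈ (⋃ j ∈ Nb c r k, Nb c r j), ∀ t : ℝ, 0 ≤ t → t ≤ 1 →
      ‖y - c j‖ + a * t - ε ≤ ‖y + t • w - c j‖ := by
    intro j hj t h0 h1
    have := hw (y - c j) (Finset.mem_image.mpr ⟨j, hF2.mem_toFinset.mpr hj, rfl⟩) t h0 h1
    rwa [show y - c j + t • w = y + t • w - c j by abel] at this
  have hT1 : 2 * e / a ≤ 1 := by
    rw [div_le_one ha]; linarith
  have hT0 : 0 ≤ 2 * e / a := by positivity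
  have haT : a * (2 * e / a) = 2 * e := by field_simp
  obtain ⟨j, hyj, t, ht0, htT, hqS, hqj⟩ := ray_gen hr hcov hsf y w hyk (T := 2 * e / a) hT0
    (by
      intro j hj h
      have hj2 : j ∈ (⋃ j ∈ Nb c r k, Nb c r j) := mem_biUnion hj (mem_nb_self hr j)
      have h1 := hw' j hj2 _ hT0 hT1
      rw [haT] at h1
      rw [mem_closedBall, dist_eq_norm] at h
      have h2 : r j - e < ‖y - c j‖ := by
        by_cases hyj : y ∈ closedBall (c j) (r j)
        · have h3 := hxj j hyj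
          rw [mem_closedBall, not_le] at h3
          have h4 : dist x (c j) ≤ dist y x + dist y (c j) := by
            rw [dist_comm y x]; exact dist_triangle _ _ _
          rw [← dist_eq_norm]; linarith
        · rw [mem_closedBall, dist_eq_norm, not_le] at hyj
          linarith
      linarith)
    (by
      intro j hj t h0 hT h
      by_contra hyj
      have h1 := hw' j hj t h0 (hT.trans hT1)
      have h2 := hε1 j hj hyj
      rw [mem_closedBall, dist_eq_norm] at h
      have : 0 ≤ a * t := by positivity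
      linarith)
  have hqx : dist (y + t • w) x < ρ := by
    have h1 : dist (y + t • w) x ≤ dist (y + t • w) y + dist y x := dist_triangle _ _ _
    have h2 : dist (y + t • w) y = t := by
      rw [dist_eq_norm, add_sub_cancel_left, norm_smul, hw1, mul_one, Real.norm_eq_abs,
        abs_of_nonneg ht0]
    have h3 : 2 * e / a + e = e * (1 + 2 / a) := by ring
    have h4 : e * (1 + 2 / a) ≤ ρ / 2 := by
      have h5 : e * (2 * (1 + 2 / a)) ≤ ρ := (le_div_iff₀ hpos).mp heρ
      linarith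
    linarith
  have hi1 : i₁ ∈ I := hB x hx (by rw [dist_self]; exact hρ)
  exact hjM j hyj (mem_biUnion hi1 (nb_of_mem (hB _ hqS hqx) hqj))

end Pool.Agent.H621R3.SF
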