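import Pool.Agent.H130R9.SF4

/-! Local versions of the criteria for star-finite coverings (the first one is helper130's proof of
`no_loc_nlo`, made pointwise). -/

set_option autoImplicit false
set_option linter.all false

open Set Metric Topology Filter
open Pool.Agent.H130R9

namespace Pool.Agent.H621R3.SG

variable {X : Type*} [NormedAddCommGroup X] [NormedSpace ℝ X] {ι : Type*} {c : ι → X} {r : ι → ℝ}

/-- the norm is not locally octahedral at `v` -/
def NLO {X : Type*} [NormedAddCommGroup X] [NormedSpace ℝ X] (v : X) : Prop :=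
  ∃ s > (0:ℝ), ∃ η > (0:ℝ), ∀ u : X, ‖u‖ = 1 → ‖v + s • u‖ + ‖v - s • u‖ ≤ 2 * ‖v‖ + 2 * s - η

/-- growth of the norm at the unit vectors nearly opposite to `v` -/
def SlopeAt {X : Type*} [NormedAddCommGroup X] [NormedSpace ℝ X] (v : X) : Prop :=
  ∃ a > (0:ℝ), ∃ η > (0:ℝ), ∀ Y Z : Finset X, (∀ y ∈ Y, ‖y‖ = 1 ∧ 2 - η ≤ ‖‖v‖⁻¹ • v - y‖) →
    ∀ ε > (0:ℝ), ∃ u : X, ‖u‖ = 1 ∧
      (∀ y ∈ Y, ∀ t : ℝ, 0 ≤ t → t ≤ 1 → 1 + a * t - ε ≤ ‖y + t • u‖) ∧
      (∀ z ∈ Z, ∀ t : ℝ, 0 ≤ t → t ≤ 1 → ‖z‖ - ε ≤ ‖z + t • u‖)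

theorem no_loc_nlo_at (hX : ¬ FiniteDimensional ℝ X) (h : Cov c r) {i₀ : ι} {x₀ : X} {δ : ℝ}
    (L : Loc c r i₀ x₀ δ)
    {w : X} (hw1 : NLO w) (hw2 : dist (x₀ - c i₀) w < min (δ / 8) (r i₀ / 2)) : False := by
  have hδ := L.dpos
  have hR := h.pos i₀
  set b := c i₀ with hb
  set R := r i₀ with hRdef
  set v₀ := x₀ - b with hv₀
  have hv₀R : ‖v₀‖ = R := by rw [hv₀, ← dist_eq_norm]; exact L.dist_eq
  obtain ⟨s', hs', η', hη', hw⟩ := hw1
  have hwd : ‖w - v₀‖ < min (δ / 8) (R / 2) := by rw [← dist_eq_norm, dist_comm]; exact hw2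
  have hwd1 : ‖w - v₀‖ < δ / 8 := hwd.trans_le (min_le_left _ _)
  have hwd2 : ‖w - v₀‖ < R / 2 := hwd.trans_le (min_le_right _ _)
  have hwR : |R - ‖w‖| ≤ ‖w - v₀‖ := by
    have h1 := abs_norm_sub_norm_le v₀ w
    rw [norm_sub_rev v₀ w, hv₀R] at h1
    exact h1
  have hwpos : 0 < ‖w‖ := by
    have := le_abs_self (R - ‖w‖)
    linarith
  set α := R / ‖w‖ with hα
  have hαpos : 0 < α := by positivity
  have hαw : α * ‖w‖ = R := by rw [hα]; field_simp
  set w' := α • w with hw'
  have hw'R : ‖w'‖ = R := by rw [hw', norm_smul, Real.norm_of_nonneg hαpos.le, hαw]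
  have hw'v : ‖w' - v₀‖ < δ / 4 := by
    have e1 : w' - v₀ = (α - 1) • w + (w - v₀) := by rw [hw']; module
    have e2 : ‖(α - 1) • w‖ = |R - ‖w‖| := by
      rw [norm_smul, Real.norm_eq_abs, ← abs_of_pos hwpos, ← abs_mul, abs_of_pos hwpos, sub_mul,
        hαw, one_mul]
    have e3 := norm_add_le ((α - 1) • w) (w - v₀)
    rw [e1]
    linarith
  set s := α * s' with hs
  set η := α * η' with hη
  have hspos : 0 < s := by positivity
  have hηpos : 0 < η := by positivity
  have hNLO : ∀ u : X, ‖u‖ = 1 → ‖w' + s • u‖ + ‖w' - s • u‖ ≤ 2 * R + 2 * s - η := by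
    intro u hu
    have e1 : w' + s • u = α • (w + s' • u) := by rw [hw', hs]; module
    have e2 : w' - s • u = α • (w - s' • u) := by rw [hw', hs]; module
    rw [e1, e2, norm_smul, norm_smul, Real.norm_of_nonneg hαpos.le, ← mul_add]
    have := mul_le_mul_of_nonneg_left (hw u hu) hαpos.le
    have e3 : α * (2 * ‖w‖ + 2 * s' - η') = 2 * R + 2 * s - η := by
      rw [hs, hη, ← hαw]; ring
    rw [← e3]
    exact this
  set x := b + w' with hx
  have hxx₀ : dist x x₀ < δ / 4 := by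
    rw [dist_eq_norm]
    have : x - x₀ = w' - v₀ := by rw [hx, hv₀]; abel
    rw [this]
    exact hw'v
  have hxb : dist x b = R := by rw [dist_eq_norm, hx, add_sub_cancel_left, hw'R]
  -- constants
  set τ := min (δ / 4) (s / 2) with hτ
  have hτpos : 0 < τ := by positivity
  have hτδ : τ ≤ δ / 4 := min_le_left _ _
  have hτs : τ ≤ s / 2 := min_le_right _ _
  set σ := min (min (δ / 16) (η / 32)) (τ * R / (2 * s)) with hσ
  have hσpos : 0 < σ := by positivity
  have hσδ : σ ≤ δ / 16 := (min_le_left _ _).trans (min_le_left _ _)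
  have hση : σ ≤ η / 32 := (min_le_left _ _).trans (min_le_right _ _)
  have hστ : σ ≤ τ * R / (2 * s) := min_le_right _ _
  set τ₁ := min σ (η * σ / (16 * R)) with hτ₁
  have hτ₁pos : 0 < τ₁ := by positivity
  have hτ₁σ : τ₁ ≤ σ := min_le_left _ _
  have hτ₁R : τ₁ ≤ η * σ / (16 * R) := min_le_right _ _
  set τ₂ := min (min τ (η * σ / (16 * R))) (η * τ / (8 * s)) with hτ₂
  have hτ₂pos : 0 < τ₂ := by positivity
  have hτ₂τ : τ₂ ≤ τ := (min_le_left _ _).trans (min_le_left _ _)
  have hτ₂R : τ₂ ≤ η * σ / (16 * R) := (min_le_left _ _).trans (min_le_right _ _)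
  have hτ₂s : τ₂ ≤ η * τ / (8 * s) := min_le_right _ _
  -- first member
  obtain ⟨k₁, -, hd₁, q₁, hq₁, hsub₁⟩ := L.approach hX h (y := x) (by linarith) hxb
    (A := ∅) Set.finite_empty hτ₁pos hσpos (by linarith)
  have hq₁b : R + σ < dist q₁ b := by
    have : Disjoint (closedBall b R) (closedBall q₁ σ) := hd₁.mono_right hsub₁
    rw [disjoint_closedBall_closedBall_iff hR.le hσpos.le, dist_comm] at this
    exact this
  set D := dist q₁ b with hD
  have hDpos : 0 < D := by linarith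
  have hDle : D ≤ R + (σ + τ₁) := by
    have := dist_triangle q₁ x b
    linarith
  set v := (R / D) • (q₁ - b) with hv
  have hq₁n : ‖q₁ - b‖ = D := by rw [hD, dist_eq_norm]
  have hvR : ‖v‖ = R := by
    rw [hv, norm_smul, Real.norm_of_nonneg (by positivity), hq₁n]
    field_simp
  set y := b + v with hy
  have hyb : dist y b = R := by rw [dist_eq_norm, hy, add_sub_cancel_left, hvR]
  have hq₁y : q₁ - y = ((D - R) / R) • v := by
    rw [hy, hv, smul_smul]
    have e : (D - R) / R * (R / D) = 1 - R / D := by field_simp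
    rw [e]
    module
  have hq₁y' : dist q₁ y = D - R := by
    rw [dist_eq_norm, hq₁y, norm_smul, hvR, Real.norm_of_nonneg (div_nonneg (by linarith) hR.le)]
    field_simp
  have hyx : dist y x ≤ 4 * σ := by
    have := dist_triangle y q₁ x
    rw [dist_comm y q₁] at this
    linarith
  -- second member
  obtain ⟨k₂, hk₂, hd₂, q₂, hq₂, hsub₂⟩ := L.approach hX h (y := y)
    (by have := dist_triangle y x x₀; linarith) hyb (h.star k₁) hτ₂pos hτpos hτδ
  have hq₂b : R + τ < dist q₂ b := by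
    have : Disjoint (closedBall b R) (closedBall q₂ τ) := hd₂.mono_right hsub₂
    rw [disjoint_closedBall_closedBall_iff hR.le hτpos.le, dist_comm] at this
    exact this
  have hq₁q₂ : σ + τ < dist q₁ q₂ := by
    have hdd : Disjoint (closedBall (c k₁) (r k₁)) (closedBall (c k₂) (r k₂)) := by
      rw [Set.disjoint_iff_inter_eq_empty]
      exact not_nonempty_iff_eq_empty.1 hk₂
    have : Disjoint (closedBall q₁ σ) (closedBall q₂ τ) := hdd.mono hsub₁ hsub₂
    rw [disjoint_closedBall_closedBall_iff hσpos.le hτpos.le] at this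
    exact this
  have hκR : (D - R) / R * R = D - R := by field_simp
  refine core_ineq (v := v) (ν := q₂ - y) (R := R) (κ := (D - R) / R) (σ := σ) (τ := τ)
    (τ₁ := τ₁) (τ₂ := τ₂) (s := s) (η := η) hR hvR (by rw [hκR]; linarith) (by rw [hκR]; linarith)
    hσpos hτpos hτ₁pos hτ₂pos hspos hηpos (by rw [← dist_eq_norm]; exact hq₂) ?_ ?_
    (by linarith) ?_ ?_ ?_ ?_
  · have : v + (q₂ - y) = q₂ - b := by rw [hy]; abel
    rw [this, ← dist_eq_norm]
    exact hq₂b
  · have : ((D - R) / R) • v - (q₂ - y) = q₁ - q₂ := by rw [← hq₁y]; abel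
    rw [this, ← dist_eq_norm]
    exact hq₁q₂
  · have e1 : D - R ≤ 2 * σ := by linarith
    have e2 : 2 * σ * s ≤ τ * R := by
      rw [le_div_iff₀ (by positivity)] at hστ
      linarith
    rw [div_mul_eq_mul_div, div_le_iff₀ hR]
    nlinarith
  · rw [le_div_iff₀ (by positivity)] at hτ₂s
    linarith
  · rw [le_div_iff₀ (by positivity)] at hτ₁R hτ₂R
    linarith
  · intro u hu
    have e0 := hNLO u hu
    have e1 : v + s • u = (w' + s • u) + (v - w') := by abel
    have e2 : v - s • u = (w' - s • u) + (v - w') := by abel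
    have e3 := norm_add_le (w' + s • u) (v - w')
    have e4 := norm_add_le (w' - s • u) (v - w')
    rw [← e1] at e3
    rw [← e2] at e4
    have e5 : ‖v - w'‖ ≤ 4 * σ := by
      have : v - w' = y - x := by rw [hy, hx]; abel
      rw [this, ← dist_eq_norm]
      exact hyx
    linarith


theorem proj_near {v₀ w : X} {R δ : ℝ} (hR : 0 < R) (hv₀R : ‖v₀‖ = R)
    (hwd : ‖w - v₀‖ < min (δ / 8) (R / 2)) :
    0 < ‖w‖ ∧ ‖(R / ‖w‖) • w‖ = R ∧ ‖(R / ‖w‖) • w - v₀‖ < δ / 4 := by
  have hwd1 : ‖w - v₀‖ < δ / 8 := hwd.trans_le (min_le_left _ _)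
  have hwd2 : ‖w - v₀‖ < R / 2 := hwd.trans_le (min_le_right _ _)
  have hwR : |R - ‖w‖| ≤ ‖w - v₀‖ := by
    have h1 := abs_norm_sub_norm_le v₀ w
    rw [norm_sub_rev v₀ w, hv₀R] at h1
    exact h1
  have hwpos : 0 < ‖w‖ := by
    have := le_abs_self (R - ‖w‖)
    linarith
  set α := R / ‖w‖ with hα
  have hαpos : 0 < α := by positivity
  have hαw : α * ‖w‖ = R := by rw [hα]; field_simp
  refine ⟨hwpos, by rw [norm_smul, Real.norm_of_nonneg hαpos.le, hαw], ?_⟩
  have e1 : α • w - v₀ = (α - 1) • w + (w - v₀) := by module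
  have e2 : ‖(α - 1) • w‖ = |R - ‖w‖| := by
    rw [norm_smul, Real.norm_eq_abs, ← abs_of_pos hwpos, ← abs_mul, abs_of_pos hwpos, sub_mul,
      hαw, one_mul]
  have e3 := norm_add_le ((α - 1) • w) (w - v₀)
  rw [e1]
  linarith

theorem angle {p q : X} {R s d : ℝ} (hR : 0 < R) (hs : 0 < s) (hp : ‖p‖ = 1) (hq : ‖q‖ = 1)
    (h : R + s - d ≤ ‖R • p - s • q‖) : 2 - d / min R s ≤ ‖p - q‖ := by
  set m := min R s with hm
  have hm0 : 0 < m := lt_min hR hs
  have hmR : m ≤ R := min_le_left _ _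
  have hms : m ≤ s := min_le_right _ _
  have e1 : R • p - s • q = m • (p - q) + ((R - m) • p - (s - m) • q) := by module
  have e2 := norm_add_le (m • (p - q)) ((R - m) • p - (s - m) • q)
  have e3 := norm_sub_le ((R - m) • p) ((s - m) • q)
  rw [norm_smul, norm_smul, hp, hq, Real.norm_of_nonneg (by linarith : (0:ℝ) ≤ R - m),
    Real.norm_of_nonneg (by linarith : (0:ℝ) ≤ s - m)] at e3
  rw [← e1, norm_smul, Real.norm_of_nonneg hm0.le] at e2
  have e4 : 2 * m - d ≤ m * ‖p - q‖ := by linarith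
  have e5 : m * (2 - d / m) = 2 * m - d := by field_simp
  exact le_of_mul_le_mul_left (by rw [e5]; exact e4) hm0

theorem no_loc_slope_at (hX : ¬ FiniteDimensional ℝ X) (h : Cov c r) {i₀ : ι} {x₀ : X} {δ : ℝ}
    (L : Loc c r i₀ x₀ δ) {w : X} (hw1 : SlopeAt w)
    (hw2 : dist (x₀ - c i₀) w < min (δ / 8) (r i₀ / 2)) : False := by
  classical
  obtain ⟨a, ha, η, hη, H⟩ := hw1
  have hδ := L.dpos
  have hR := h.pos i₀
  set b := c i₀ with hb
  set R := r i₀ with hRdef
  obtain ⟨hwpos, hw'R, hw'v⟩ := proj_near (v₀ := x₀ - b) (w := w) (δ := δ) hR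
    (by rw [← dist_eq_norm]; exact L.dist_eq) (by rw [← dist_eq_norm, dist_comm]; exact hw2)
  set p := ‖w‖⁻¹ • w with hp
  have hp1 : ‖p‖ = 1 := by rw [hp, norm_smul, norm_inv, norm_norm, inv_mul_cancel₀ hwpos.ne']
  have hRp : (R / ‖w‖) • w = R • p := by rw [hp, smul_smul]; congr 1
  rw [hRp] at hw'R hw'v
  set x := b + R • p with hx
  have hxx₀ : dist x x₀ < δ / 4 := by
    rw [dist_eq_norm]
    have : x - x₀ = R • p - (x₀ - b) := by rw [hx]; abel
    rw [this]
    exact hw'v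
  have hxb : dist x b = R := by rw [dist_eq_norm, hx, add_sub_cancel_left, hw'R]
  set m₀ := min R (δ / 8) with hm₀
  have hm₀pos : 0 < m₀ := by positivity
  set d₀ := min (δ / 8) (min (η * m₀) (a * min 1 (δ / 8) / 3)) with hd₀
  have hd₀pos : 0 < d₀ := by positivity
  have hd₀1 : d₀ ≤ δ / 8 := min_le_left _ _
  have hd₀2 : d₀ ≤ η * m₀ := (min_le_right _ _).trans (min_le_left _ _)
  have hd₀3 : d₀ ≤ a * min 1 (δ / 8) / 3 := (min_le_right _ _).trans (min_le_right _ _)
  obtain ⟨z, hz1, hz2⟩ := mem_closure_iff_nhds.1 (mem_closure_compl_closedBall hR hxb)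
    (ball x d₀) (ball_mem_nhds x hd₀pos)
  have hzx : dist z x < d₀ := hz1
  have hxB : x ∈ closedBall b R := by rw [mem_closedBall, hxb]
  have hne : z ≠ x := by
    rintro rfl
    exact hz2 hxB
  set d := dist z x with hd
  have hdpos : 0 < d := dist_pos.2 hne
  have hzx₀ : dist z x₀ < 3 * δ / 8 := by
    have := dist_triangle z x x₀
    linarith
  set J : Set ι := {k | z ∈ closedBall (c k) (r k)} with hJ
  have hJfin : J.Finite := h.pf z
  set G : Set X := ⋃ j ∈ J, closedBall (c j) (r j) with hG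
  have hGcl : IsClosed G := hJfin.isClosed_biUnion fun j _ => isClosed_closedBall
  set I : Set ι := ⋃ j ∈ J, {k | (closedBall (c j) (r j) ∩ closedBall (c k) (r k)).Nonempty} with hI
  have hIfin : I.Finite := hJfin.biUnion fun j _ => h.star j
  have hzball : z ∈ ball x₀ δ := by rw [mem_ball]; linarith
  -- gaps
  have hgap : ∀ᶠ e in 𝓝[>] (0:ℝ), ∀ i ∈ I \ J, e < dist z (c i) - r i := by
    rw [eventually_all_finite (hIfin.subset sdiff_subset)]
    intro i hi
    have hpos : 0 < dist z (c i) - r i := by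
      have : ¬ dist z (c i) ≤ r i := hi.2
      linarith [not_le.1 this]
    filter_upwards [Ioo_mem_nhdsGT hpos] with e he using he.2
  obtain ⟨e, he1, he2⟩ := (hgap.and (Ioo_mem_nhdsGT hdpos)).exists
  set M := ∑ k ∈ hJfin.toFinset, dist z (c k) with hM
  have hM0 : 0 ≤ M := Finset.sum_nonneg fun _ _ => dist_nonneg
  have hMk : ∀ k ∈ J, dist z (c k) ≤ M := fun k hk =>
    Finset.single_le_sum (f := fun k => dist z (c k)) (fun _ _ => dist_nonneg)
      (hJfin.mem_toFinset.2 hk)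
  set e' := e / (1 + M) with he'
  have he'0 : 0 < e' := div_pos he2.1 (by linarith)
  have he'M : (1 + M) * e' = e := by rw [he']; field_simp
  have he'e : e' ≤ e := by nlinarith [mul_nonneg hM0 he'0.le]
  -- facts on the members containing `z`
  have hJf : ∀ k ∈ J, δ / 8 < dist z (c k) ∧ r k < dist z (c k) + d ∧
      2 - η ≤ ‖p - (dist z (c k))⁻¹ • (z - c k)‖ := by
    intro k hk
    obtain ⟨hx0, hdisj⟩ := L.P2 k z hzball hz2 hk
    have hrk := L.radius hX h hdisj hk (by linarith)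
    have hxk : x ∉ closedBall (c k) (r k) := Set.disjoint_left.1 hdisj hxB
    rw [mem_closedBall, not_le] at hxk
    have h1 := dist_triangle x z (c k)
    rw [dist_comm x z] at h1
    have h2 : δ / 8 < dist z (c k) := by linarith
    refine ⟨h2, by linarith, ?_⟩
    rw [disjoint_closedBall_closedBall_iff hR.le (h.pos k).le] at hdisj
    set s := dist z (c k) with hs
    have hs0 : 0 < s := by linarith
    have hsn : ‖z - c k‖ = s := by rw [hs, dist_eq_norm]
    have hq1 : ‖s⁻¹ • (z - c k)‖ = 1 := by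
      rw [norm_smul, norm_inv, Real.norm_of_nonneg hs0.le, hsn, inv_mul_cancel₀ hs0.ne']
    have hzk : s ≤ r k := hk
    have key : R + s - d ≤ ‖R • p - s • (s⁻¹ • (z - c k))‖ := by
      have e0 : s • (s⁻¹ • (z - c k)) = z - c k := by
        rw [smul_smul, mul_inv_cancel₀ hs0.ne', one_smul]
      rw [e0]
      have e1 : R • p - (z - c k) = (c k - b) - (z - x) := by rw [hx]; abel
      have e2 := norm_sub_norm_le (c k - b) (z - x)
      rw [← dist_eq_norm, ← dist_eq_norm, dist_comm (c k) b] at e2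
      rw [e1]
      linarith
    have h3 := angle hR hs0 hp1 hq1 key
    have h4 : d / min R s ≤ η := by
      rw [div_le_iff₀ (lt_min hR hs0)]
      have : m₀ ≤ min R s := min_le_min le_rfl h2.le
      nlinarith
    linarith
  obtain ⟨u, hu, hH1, hH2⟩ := H (hJfin.toFinset.image fun k => (dist z (c k))⁻¹ • (z - c k))
    ((hIfin.union hJfin).toFinset.image fun k => z - c k) (by
      intro y hy
      obtain ⟨k, hk, rfl⟩ := Finset.mem_image.1 hy
      obtain ⟨g1, g2, g3⟩ := hJf k (hJfin.mem_toFinset.1 hk)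
      have hs0 : 0 < dist z (c k) := by linarith
      exact ⟨by rw [norm_smul, norm_inv, Real.norm_of_nonneg hs0.le, ← dist_eq_norm,
        inv_mul_cancel₀ hs0.ne'], g3⟩) e' he'0
  set T := 3 * d / a with hT
  have hTpos : 0 < T := by positivity
  have hTle : T ≤ min 1 (δ / 8) := by
    rw [hT, div_le_iff₀ ha]
    linarith
  have hT1 : T ≤ 1 := hTle.trans (min_le_left _ _)
  have hT8 : T ≤ δ / 8 := hTle.trans (min_le_right _ _)
  have haT : a * T = 3 * d := by rw [hT]; field_simp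
  have hzG : z ∈ G := by
    obtain ⟨k, hk⟩ := h.cov z
    exact mem_biUnion (show k ∈ J from hk) hk
  have hout : z + T • u ∉ G := by
    intro hG'
    obtain ⟨k, hk, hk'⟩ := mem_iUnion₂.1 hG'
    obtain ⟨g1, g2, g3⟩ := hJf k hk
    set s := dist z (c k) with hs
    have hs0 : 0 < s := by linarith
    have h1 := hH1 (s⁻¹ • (z - c k))
      (Finset.mem_image.2 ⟨k, hJfin.mem_toFinset.2 hk, rfl⟩) (T / s) (by positivity)
      (by rw [div_le_one hs0]; linarith)
    have h2 : ‖z + T • u - c k‖ ≤ r k := by rw [← dist_eq_norm]; exact hk'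
    have h3 : z + T • u - c k = s • (s⁻¹ • (z - c k) + (T / s) • u) := by
      rw [smul_add, smul_smul, smul_smul, mul_inv_cancel₀ hs0.ne', one_smul]
      have : s * (T / s) = T := by field_simp
      rw [this]
      abel
    rw [h3, norm_smul, Real.norm_of_nonneg hs0.le] at h2
    have h4 : s * (1 + a * (T / s) - e') = s + a * T - s * e' := by field_simp
    have h5 := mul_le_mul_of_nonneg_left h1 hs0.le
    rw [h4, haT] at h5
    have h6 : s * e' ≤ e := by
      have : s ≤ 1 + M := by linarith [hMk k hk]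
      calc s * e' ≤ (1 + M) * e' := mul_le_mul_of_nonneg_right this he'0.le
        _ = e := he'M
    have := he2.2
    linarith
  apply hout
  apply seg_stay hGcl hzG
  intro y hy hyG hycl
  obtain ⟨s, hs, rfl⟩ := (segment_eq_image' ℝ z (z + T • u)) ▸ hy
  have hy' : z + s • (z + T • u - z) = z + (s * T) • u := by module
  simp only [hy'] at hyG hycl
  set t := s * T with ht
  have ht0 : 0 ≤ t := mul_nonneg hs.1 hTpos.le
  have htT : t ≤ T := by
    have := hs.2
    rw [ht]
    nlinarith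
  obtain ⟨k, hk, hk'⟩ := mem_iUnion₂.1 hyG
  obtain ⟨-, hdisj⟩ := L.P2 k z hzball hz2 hk
  have hyball : z + t • u ∈ ball x₀ δ := by
    rw [mem_ball]
    have h1 : dist (z + t • u) z = t := by
      rw [dist_eq_norm, add_sub_cancel_left, norm_smul, hu, mul_one, Real.norm_of_nonneg ht0]
    have h2 := dist_triangle (z + t • u) z x₀
    linarith
  have hNL : ¬ NL c r (z + t • u) := fun hNL =>
    Set.disjoint_left.1 hdisj (L.P3 _ hyball hNL) hk'
  obtain ⟨i, hiJ, hi⟩ := mem_other h hNL J hycl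
  have hiI : i ∈ I := mem_biUnion hk ⟨_, hk', hi⟩
  have h1 := hH2 (z - c i) (Finset.mem_image.2 ⟨i, by simpa using Or.inl hiI, rfl⟩) t ht0
    (htT.trans hT1)
  have h2 := he1 i ⟨hiI, hiJ⟩
  have h3 : ‖z - c i + t • u‖ ≤ r i := by
    have : z - c i + t • u = z + t • u - c i := by abel
    rw [this, ← dist_eq_norm]
    exact hi
  rw [← dist_eq_norm] at h1
  linarith

theorem no_cover [CompleteSpace X] [TopologicalSpace.SeparableSpace X]
    (hX : ¬ FiniteDimensional ℝ X) (H : Dense {v : X | NLO v ∨ SlopeAt v}) (h : Cov c r) :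
    False := by
  obtain ⟨i₀, x₀, δ, L⟩ := exists_loc hX h
  have hδ := L.dpos
  have hR := h.pos i₀
  obtain ⟨w, hw1, hw2⟩ := H.exists_dist_lt (x₀ - c i₀)
    (show 0 < min (δ / 8) (r i₀ / 2) by positivity)
  rcases hw1 with hw1 | hw1
  · exact no_loc_nlo_at hX h L hw1 hw2
  · exact no_loc_slope_at hX h L hw1 hw2

end Pool.Agent.H621R3.SG
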