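import Mathlib

set_option autoImplicit false
set_option linter.unusedSectionVars false

/-!
Definitions: Tsirelson's norm, its dual norm, and the norm of `T*(T*)`. The coordinate `i : ℕ`
stands for the `(i+1)`-st unit vector.
-/

namespace Pool.Agent.H621R3.Ts

/-- `k ≤ E_1 < ⋯ < E_k`. -/
def Admissible (k : ℕ) (E : Fin k → Finset ℕ) : Prop :=
  (∀ j, ∀ i ∈ E j, k ≤ i + 1) ∧ ∀ j j', j < j' → ∀ i ∈ E j, ∀ i' ∈ E j', i < i'

/-- the restriction `E x` of `x` to `E`. -/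
noncomputable def restr (E : Finset ℕ) (x : ℕ →₀ ℝ) : ℕ →₀ ℝ := x.filter fun i => i ∈ E

/-- `ν` is Tsirelson's norm on `c_00`: `ν x` is the supremum of the numbers `|x_i|` and
`(ν (E_1 x) + ⋯ + ν (E_k x)) / 2`, `k ≤ E_1 < ⋯ < E_k`. -/
def IsTsirelsonNorm (ν : (ℕ →₀ ℝ) → ℝ) : Prop :=
  ∀ x, IsLUB ({t | ∃ i, t = |x i|} ∪
    {t | ∃ (k : ℕ) (E : Fin k → Finset ℕ), Admissible k E ∧
      t = 1 / 2 * ∑ j, ν (restr (E j) x)}) (ν x)

/-- the pairing `∑ x_i y_i`. -/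
noncomputable def pair (y : ℕ → ℝ) (x : ℕ →₀ ℝ) : ℝ := x.sum fun i a => a * y i

/-- the sequence `y` defines a bounded functional for the norm `ν`, that is `y ∈ T*`. -/
def InDual (ν : (ℕ →₀ ℝ) → ℝ) (y : ℕ → ℝ) : Prop := ∃ C : ℝ, ∀ x, |pair y x| ≤ C * ν x

/-- the norm of `y` in `T*`. -/
noncomputable def dualNorm (ν : (ℕ →₀ ℝ) → ℝ) (y : ℕ → ℝ) : ℝ :=
  sInf {C : ℝ | 0 ≤ C ∧ ∀ x, |pair y x| ≤ C * ν x}

/-- the sequence `x` of sequences belongs to `T*(T*)`. -/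
def InSum (ν : (ℕ →₀ ℝ) → ℝ) (x : ℕ → ℕ → ℝ) : Prop :=
  (∀ l, InDual ν (x l)) ∧ InDual ν fun l => dualNorm ν (x l)

/-- the norm of `x` in `T*(T*)`. -/
noncomputable def sumNorm (ν : (ℕ →₀ ℝ) → ℝ) (x : ℕ → ℕ → ℝ) : ℝ :=
  dualNorm ν fun l => dualNorm ν (x l)

/-- the vertices of the Hamming graph `H_k`: the `k`-element subsets of `ℕ`, written as strictly
increasing `k`-tuples. -/
abbrev HamGraph (k : ℕ) : Type := {n : Fin k → ℕ // StrictMono n}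

/-- the Hamming distance. -/
def hamDist {k : ℕ} (m n : HamGraph k) : ℕ := (Finset.univ.filter fun i => m.1 i ≠ n.1 i).card

end Pool.Agent.H621R3.Ts
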