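import Mathlib
import Pool.Agent.H621R3.TsDefs
import Pool.Agent.H621R3.TDTail

set_option autoImplicit false
set_option linter.unusedSectionVars false

/-!
Existence and uniqueness of Tsirelson's norm, and its basic properties.
-/

namespace Pool.Agent.H621R3.Ts

theorem pair_eq (y : ℕ → ℝ) (x : ℕ →₀ ℝ) : pair y x = Finsupp.linearCombination ℝ y x := by
  rw [Finsupp.linearCombination_apply]
  rfl

theorem pair_add (y : ℕ → ℝ) (x x' : ℕ →₀ ℝ) : pair y (x + x') = pair y x + pair y x' := by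
  simp only [pair_eq, map_add]

theorem pair_sub (y : ℕ → ℝ) (x x' : ℕ →₀ ℝ) : pair y (x - x') = pair y x - pair y x' := by
  simp only [pair_eq, map_sub]

theorem pair_smul (y : ℕ → ℝ) (c : ℝ) (x : ℕ →₀ ℝ) : pair y (c • x) = c * pair y x := by
  simp only [pair_eq, map_smul, smul_eq_mul]

theorem pair_sum {ι : Type*} (y : ℕ → ℝ) (s : Finset ι) (x : ι → ℕ →₀ ℝ) :
    pair y (∑ j ∈ s, x j) = ∑ j ∈ s, pair y (x j) := by
  simp only [pair_eq, map_sum]

theorem pair_zero (y : ℕ → ℝ) : pair y 0 = 0 := by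
  rw [pair_eq, map_zero]

theorem pair_eq_sum (y : ℕ → ℝ) (x : ℕ →₀ ℝ) : pair y x = ∑ i ∈ x.support, x i * y i := rfl

theorem pair_eq_sum_of_subset (y : ℕ → ℝ) (x : ℕ →₀ ℝ) {s : Finset ℕ} (h : x.support ⊆ s) :
    pair y x = ∑ i ∈ s, x i * y i := by
  rw [pair_eq_sum]
  refine Finset.sum_subset h fun i _ hi => ?_
  rw [Finsupp.notMem_support_iff.1 hi, zero_mul]

theorem pair_add_left (y y' : ℕ → ℝ) (x : ℕ →₀ ℝ) : pair (y + y') x = pair y x + pair y' x := by
  simp only [pair_eq_sum, Pi.add_apply, mul_add, Finset.sum_add_distrib]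

theorem pair_smul_left (c : ℝ) (y : ℕ → ℝ) (x : ℕ →₀ ℝ) : pair (c • y) x = c * pair y x := by
  simp only [pair_eq_sum, Pi.smul_apply, smul_eq_mul, Finset.mul_sum]
  exact Finset.sum_congr rfl fun i _ => by ring

theorem pair_sum_left {ι : Type*} (s : Finset ι) (y : ι → ℕ → ℝ) (x : ℕ →₀ ℝ) :
    pair (∑ j ∈ s, y j) x = ∑ j ∈ s, pair (y j) x := by
  simp only [pair_eq_sum, Finset.sum_apply, Finset.mul_sum]
  exact Finset.sum_comm

theorem pair_single (y : ℕ → ℝ) (i : ℕ) (a : ℝ) : pair y (Finsupp.single i a) = a * y i := by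
  rw [pair_eq, Finsupp.linearCombination_single, smul_eq_mul]

theorem pair_single_left (i : ℕ) (c : ℝ) (x : ℕ →₀ ℝ) :
    pair (Pi.single i c) x = c * x i := by
  rw [pair_eq_sum]
  by_cases hi : i ∈ x.support
  · rw [Finset.sum_eq_single i]
    · rw [Pi.single_eq_same, mul_comm]
    · intro j _ hj
      rw [Pi.single_eq_of_ne hj, mul_zero]
    · intro h
      exact absurd hi h
  · rw [Finsupp.notMem_support_iff.1 hi, mul_zero]
    refine Finset.sum_eq_zero fun j hj => ?_
    have hji : j ≠ i := by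
      rintro rfl
      exact hi hj
    rw [Pi.single_eq_of_ne hji, mul_zero]

/-- multiplication by a bounded sequence -/
noncomputable def mulS (θ : ℕ → ℝ) (x : ℕ →₀ ℝ) : ℕ →₀ ℝ :=
  Finsupp.onFinset x.support (fun i => θ i * x i) (fun i hi => by
    rw [Finsupp.mem_support_iff]
    intro h
    exact hi (by rw [h, mul_zero]))

theorem mulS_apply (θ : ℕ → ℝ) (x : ℕ →₀ ℝ) (i : ℕ) : mulS θ x i = θ i * x i := rfl

theorem pair_mulS (θ : ℕ → ℝ) (y : ℕ → ℝ) (x : ℕ →₀ ℝ) :
    pair y (mulS θ x) = pair (fun i => θ i * y i) x := by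
  rw [pair_eq_sum_of_subset y (mulS θ x) (s := x.support)
    (Finsupp.support_onFinset_subset), pair_eq_sum]
  refine Finset.sum_congr rfl fun i _ => ?_
  rw [mulS_apply]
  ring

theorem restr_apply (E : Finset ℕ) (x : ℕ →₀ ℝ) (i : ℕ) :
    restr E x i = if i ∈ E then x i else 0 := by
  unfold restr
  rw [Finsupp.filter_apply]

theorem pair_restr_of_supp {E : Finset ℕ} {f : ℕ → ℝ} (h : ∀ i, i ∉ E → f i = 0) (x : ℕ →₀ ℝ) :
    pair f (restr E x) = pair f x := by
  have e : restr E x = mulS (fun i => if i ∈ E then 1 else 0) x := by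
    ext i
    rw [restr_apply, mulS_apply]
    split_ifs <;> simp
  rw [e, pair_mulS]
  congr 1
  funext i
  split_ifs with hi
  · rw [one_mul]
  · rw [h i hi, mul_zero]

/-- the norming set -/
inductive KK : (ℕ → ℝ) → Prop
  | basis (i : ℕ) (c : ℝ) : |c| ≤ 1 → KK (Pi.single i c)
  | op (k : ℕ) (E : Fin k → Finset ℕ) (f : Fin k → ℕ → ℝ) : Admissible k E → (∀ j, KK (f j)) →
      (∀ j i, i ∉ E j → f j i = 0) → KK ((1 / 2 : ℝ) • ∑ j, f j)

theorem Admissible.sum_apply {k : ℕ} {E : Fin k → Finset ℕ} (hE : Admissible k E)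
    {f : Fin k → ℕ → ℝ} (hf : ∀ j i, i ∉ E j → f j i = 0) (i : ℕ) :
    (∑ j, f j i) = 0 ∨ ∃ j, (∑ j, f j i) = f j i := by
  by_cases h : ∃ j, i ∈ E j
  · obtain ⟨j, hj⟩ := h
    right
    refine ⟨j, Finset.sum_eq_single j (fun j' _ hne => ?_) (fun h => absurd (Finset.mem_univ j) h)⟩
    refine hf j' i fun hj' => ?_
    rcases lt_or_gt_of_ne hne with hlt | hlt
    · exact lt_irrefl i (hE.2 j' j hlt i hj' i hj)
    · exact lt_irrefl i (hE.2 j j' hlt i hj i hj')
  · push Not at h
    left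
    exact Finset.sum_eq_zero fun j _ => hf j i (h j)

theorem KK.abs_le {f : ℕ → ℝ} (hf : KK f) (i : ℕ) : |f i| ≤ 1 := by
  induction hf with
  | basis j c hc =>
    rcases eq_or_ne i j with rfl | hj
    · rw [Pi.single_eq_same]
      exact hc
    · rw [Pi.single_eq_of_ne hj, abs_zero]
      exact zero_le_one
  | op k E f hE _ hsupp ih =>
    rw [Pi.smul_apply, Finset.sum_apply, smul_eq_mul, abs_mul]
    have h2 : |(1 / 2 : ℝ)| = 1 / 2 := abs_of_pos (by norm_num)
    rw [h2]
    rcases hE.sum_apply hsupp i with h0 | ⟨j, h1⟩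
    · rw [h0, abs_zero]
      norm_num
    · rw [h1]
      have := ih j
      linarith

theorem KK.mul {f : ℕ → ℝ} (hf : KK f) (θ : ℕ → ℝ) (hθ : ∀ i, |θ i| ≤ 1) :
    KK (fun i => θ i * f i) := by
  induction hf with
  | basis j c hc =>
    have e : (fun i => θ i * (Pi.single j c : ℕ → ℝ) i) = Pi.single j (θ j * c) := by
      funext i
      rcases eq_or_ne i j with rfl | hj
      · simp
      · simp [Pi.single_eq_of_ne hj]
    rw [e]
    refine KK.basis j _ ?_
    rw [abs_mul]
    exact mul_le_one₀ (hθ j) (abs_nonneg _) hc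
  | op k E f hE _ hsupp ih =>
    have e : (fun i => θ i * ((1 / 2 : ℝ) • ∑ j, f j) i) =
        (1 / 2 : ℝ) • ∑ j, fun i => θ i * f j i := by
      funext i
      simp only [Pi.smul_apply, smul_eq_mul, Finset.sum_apply, Finset.mul_sum]
      refine Finset.sum_congr rfl fun j _ => ?_
      ring
    rw [e]
    refine KK.op k E (fun j i => θ i * f j i) hE ih fun j i hi => ?_
    show θ i * f j i = 0
    rw [hsupp j i hi, mul_zero]

theorem KK.neg {f : ℕ → ℝ} (hf : KK f) : KK (-f) := by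
  have h := hf.mul (fun _ => -1) (fun _ => by simp)
  have e : (fun i => -1 * f i) = -f := by
    funext i
    simp
  rwa [e] at h

theorem KK.zero : KK (0 : ℕ → ℝ) := by
  have h := KK.basis 0 0 (by simp)
  rwa [Pi.single_zero] at h

/-- the `ℓ_1` bound -/
theorem KK.pair_le {f : ℕ → ℝ} (hf : KK f) (x : ℕ →₀ ℝ) : pair f x ≤ ∑ i ∈ x.support, |x i| := by
  rw [pair_eq_sum]
  refine Finset.sum_le_sum fun i _ => ?_
  calc x i * f i ≤ |x i * f i| := le_abs_self _
    _ = |x i| * |f i| := abs_mul _ _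
    _ ≤ |x i| * 1 := mul_le_mul_of_nonneg_left (hf.abs_le i) (abs_nonneg _)
    _ = |x i| := mul_one _

/-- Tsirelson's norm -/
noncomputable def tn (x : ℕ →₀ ℝ) : ℝ := sSup {t | ∃ f, KK f ∧ t = pair f x}

theorem tn_bdd (x : ℕ →₀ ℝ) : BddAbove {t | ∃ f, KK f ∧ t = pair f x} :=
  ⟨∑ i ∈ x.support, |x i|, by rintro _ ⟨f, hf, rfl⟩; exact hf.pair_le x⟩

theorem tn_nonempty (x : ℕ →₀ ℝ) : {t | ∃ f, KK f ∧ t = pair f x}.Nonempty :=
  ⟨_, 0, KK.zero, rfl⟩

theorem KK.pair_le_tn {f : ℕ → ℝ} (hf : KK f) (x : ℕ →₀ ℝ) : pair f x ≤ tn x :=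
  le_csSup (tn_bdd x) ⟨f, hf, rfl⟩

theorem tn_le {x : ℕ →₀ ℝ} {c : ℝ} (h : ∀ f, KK f → pair f x ≤ c) : tn x ≤ c :=
  csSup_le (tn_nonempty x) (by rintro _ ⟨f, hf, rfl⟩; exact h f hf)

theorem exists_lt_of_lt_tn {x : ℕ →₀ ℝ} {c : ℝ} (h : c < tn x) : ∃ f, KK f ∧ c < pair f x := by
  obtain ⟨_, ⟨f, hf, rfl⟩, h'⟩ := exists_lt_of_lt_csSup (tn_nonempty x) h
  exact ⟨f, hf, h'⟩

theorem tn_nonneg (x : ℕ →₀ ℝ) : 0 ≤ tn x := by
  have h := KK.zero.pair_le_tn x
  have e : pair 0 x = 0 := by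
    rw [pair_eq_sum]
    exact Finset.sum_eq_zero fun i _ => by simp
  rwa [e] at h

theorem abs_le_tn (x : ℕ →₀ ℝ) (i : ℕ) : |x i| ≤ tn x := by
  have h1 := (KK.basis i 1 (by simp)).pair_le_tn x
  have h2 := (KK.basis i (-1) (by simp)).pair_le_tn x
  rw [pair_single_left] at h1 h2
  rw [abs_le]
  constructor <;> linarith

theorem tn_add (x y : ℕ →₀ ℝ) : tn (x + y) ≤ tn x + tn y :=
  tn_le fun f hf => by
    rw [pair_add]
    exact add_le_add (hf.pair_le_tn x) (hf.pair_le_tn y)

theorem tn_mulS (θ : ℕ → ℝ) (hθ : ∀ i, |θ i| ≤ 1) (x : ℕ →₀ ℝ) : tn (mulS θ x) ≤ tn x :=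
  tn_le fun f hf => by
    rw [pair_mulS]
    exact (hf.mul θ hθ).pair_le_tn x

theorem tn_smul_of_nonneg {c : ℝ} (hc : 0 ≤ c) (x : ℕ →₀ ℝ) : tn (c • x) ≤ c * tn x :=
  tn_le fun f hf => by
    rw [pair_smul]
    exact mul_le_mul_of_nonneg_left (hf.pair_le_tn x) hc

theorem tn_sum_le {ι : Type*} (s : Finset ι) (x : ι → ℕ →₀ ℝ) :
    tn (∑ j ∈ s, x j) ≤ ∑ j ∈ s, tn (x j) :=
  tn_le fun f hf => by
    rw [pair_sum]
    exact Finset.sum_le_sum fun j _ => hf.pair_le_tn (x j)

theorem tn_zero : tn 0 = 0 :=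
  le_antisymm (tn_le fun f _ => by rw [pair_zero]) (tn_nonneg 0)

theorem tn_single (i : ℕ) (a : ℝ) : tn (Finsupp.single i a) = |a| := by
  refine le_antisymm (tn_le fun f hf => ?_) ?_
  · rw [pair_single]
    calc a * f i ≤ |a * f i| := le_abs_self _
      _ = |a| * |f i| := abs_mul _ _
      _ ≤ |a| * 1 := mul_le_mul_of_nonneg_left (hf.abs_le i) (abs_nonneg _)
      _ = |a| := mul_one _
  · have h := abs_le_tn (Finsupp.single i a) i
    rwa [Finsupp.single_eq_same] at h

/-- the lower estimate -/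
theorem tn_adm {k : ℕ} {E : Fin k → Finset ℕ} (hE : Admissible k E) (x : ℕ →₀ ℝ) :
    1 / 2 * ∑ j, tn (restr (E j) x) ≤ tn x := by
  refine le_of_forall_pos_le_add fun ε hε => ?_
  obtain ⟨δ, hδ⟩ : ∃ δ : ℝ, δ = ε / (k + 1) := ⟨_, rfl⟩
  have hδ0 : 0 < δ := by rw [hδ]; positivity
  have hex : ∀ j, ∃ f, KK f ∧ tn (restr (E j) x) - δ < pair f (restr (E j) x) := fun j =>
    exists_lt_of_lt_tn (by linarith)
  choose f hf hfx using hex
  let g : Fin k → ℕ → ℝ := fun j i => (if i ∈ E j then 1 else 0) * f j i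
  have hg : ∀ j, KK (g j) := fun j => (hf j).mul _ fun i => by split_ifs <;> simp
  have hgs : ∀ j i, i ∉ E j → g j i = 0 := fun j i hi => by
    show (if i ∈ E j then (1 : ℝ) else 0) * f j i = 0
    rw [if_neg hi, zero_mul]
  have hgx : ∀ j, pair (g j) x = pair (f j) (restr (E j) x) := fun j => by
    rw [← pair_restr_of_supp (hgs j) x]
    unfold pair Finsupp.sum
    refine Finset.sum_congr rfl fun i hi => ?_
    have h1 : i ∈ E j := by
      by_contra h
      rw [Finsupp.mem_support_iff, restr_apply, if_neg h] at hi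
      exact hi rfl
    show _ * ((if i ∈ E j then (1 : ℝ) else 0) * f j i) = _
    rw [if_pos h1, one_mul]
  have h1 := (KK.op k E g hE hg hgs).pair_le_tn x
  rw [pair_smul_left, pair_sum_left] at h1
  have h2 : ∑ j, (tn (restr (E j) x) - δ) ≤ ∑ j, pair (g j) x :=
    Finset.sum_le_sum fun j _ => by rw [hgx]; exact (hfx j).le
  rw [Finset.sum_sub_distrib, Finset.sum_const, Finset.card_univ, Fintype.card_fin,
    nsmul_eq_mul] at h2
  have h3 : (k : ℝ) * δ ≤ ε := by
    rw [hδ, mul_div_assoc', div_le_iff₀ (by positivity)]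
    nlinarith
  linarith

theorem isTsirelsonNorm_tn : IsTsirelsonNorm tn := by
  intro x
  constructor
  · rintro t (⟨i, rfl⟩ | ⟨k, E, hE, rfl⟩)
    · exact abs_le_tn x i
    · exact tn_adm hE x
  · intro U hU
    refine tn_le fun f hf => ?_
    cases hf with
    | basis i c hc =>
      rw [pair_single_left]
      have h1 : |x i| ≤ U := hU (Or.inl ⟨i, rfl⟩)
      calc c * x i ≤ |c * x i| := le_abs_self _
        _ = |c| * |x i| := abs_mul _ _
        _ ≤ 1 * |x i| := mul_le_mul_of_nonneg_right hc (abs_nonneg _)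
        _ = |x i| := one_mul _
        _ ≤ U := h1
    | op k E f hE hf hsupp =>
      have h1 : 1 / 2 * ∑ j, tn (restr (E j) x) ≤ U := hU (Or.inr ⟨k, E, hE, rfl⟩)
      rw [pair_smul_left, pair_sum_left]
      refine le_trans ?_ h1
      refine mul_le_mul_of_nonneg_left (Finset.sum_le_sum fun j _ => ?_) (by norm_num)
      rw [← pair_restr_of_supp (hsupp j) x]
      exact (hf j).pair_le_tn _

theorem IsTsirelsonNorm.nonneg {ν : (ℕ →₀ ℝ) → ℝ} (h : IsTsirelsonNorm ν) (x : ℕ →₀ ℝ) :
    0 ≤ ν x := (abs_nonneg (x 0)).trans ((h x).1 (Or.inl ⟨0, rfl⟩))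

theorem IsTsirelsonNorm.map_zero {ν : (ℕ →₀ ℝ) → ℝ} (h : IsTsirelsonNorm ν) : ν 0 = 0 := by
  refine le_antisymm ?_ (h.nonneg 0)
  have hA : Admissible 3 (fun _ => (∅ : Finset ℕ)) :=
    ⟨fun j i hi => absurd hi (Finset.notMem_empty i), fun j j' _ i hi =>
      absurd hi (Finset.notMem_empty i)⟩
  have h1 := (h 0).1 (Or.inr ⟨3, fun _ => ∅, hA, rfl⟩)
  have e : restr ∅ 0 = 0 := by
    ext i
    rw [restr_apply]
    simp
  simp only [e, Finset.sum_const, Finset.card_univ, Fintype.card_fin, nsmul_eq_mul] at h1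
  push_cast at h1
  linarith

theorem le_of_isTsirelsonNorm {ν ν' : (ℕ →₀ ℝ) → ℝ} (h : IsTsirelsonNorm ν)
    (h' : IsTsirelsonNorm ν') : ∀ (n : ℕ) (x : ℕ →₀ ℝ), x.support.card = n → ν x ≤ ν' x := by
  intro n
  induction n using Nat.strong_induction_on with
  | _ n ih =>
    intro x hx
    have key : ν x ≤ max (ν' x) (1 / 2 * ν x) := by
      refine (h x).2 ?_
      rintro t (⟨i, rfl⟩ | ⟨k, E, hE, rfl⟩)
      · exact ((h' x).1 (Or.inl ⟨i, rfl⟩)).trans (le_max_left _ _)
      · by_cases hc : ∃ j, x.support ⊆ E j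
        · obtain ⟨j, hj⟩ := hc
          have e1 : restr (E j) x = x := by
            ext i
            rw [restr_apply]
            split_ifs with hi
            · rfl
            · by_contra hne
              exact hi (hj (Finsupp.mem_support_iff.2 (Ne.symm hne)))
          have e2 : ∀ j', j' ≠ j → restr (E j') x = 0 := by
            intro j' hne
            ext i
            rw [restr_apply]
            split_ifs with hi
            · by_contra hx0
              have h2 := hj (Finsupp.mem_support_iff.2 hx0)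
              rcases lt_or_gt_of_ne hne with hlt | hlt
              · exact lt_irrefl i (hE.2 j' j hlt i hi i h2)
              · exact lt_irrefl i (hE.2 j j' hlt i h2 i hi)
            · rfl
          have e3 : ∑ j, ν (restr (E j) x) = ν x := by
            rw [Finset.sum_eq_single j (fun j' _ hne => by rw [e2 j' hne, h.map_zero])
              (fun h => absurd (Finset.mem_univ j) h), e1]
          rw [e3]
          exact le_max_right _ _
        · push Not at hc
          refine le_trans ?_ (le_max_left _ _)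
          have h1 := (h' x).1 (Or.inr ⟨k, E, hE, rfl⟩)
          refine le_trans ?_ h1
          refine mul_le_mul_of_nonneg_left (Finset.sum_le_sum fun j _ => ?_) (by norm_num)
          have hlt : (restr (E j) x).support.card < n := by
            rw [← hx]
            refine Finset.card_lt_card ?_
            rw [Finset.ssubset_iff_subset_ne]
            constructor
            · intro i hi
              rw [Finsupp.mem_support_iff, restr_apply] at hi
              rw [Finsupp.mem_support_iff]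
              intro h0
              rw [h0] at hi
              simp at hi
            · intro heq
              refine hc j ?_
              rw [← heq]
              intro i hi
              by_contra h0
              rw [Finsupp.mem_support_iff, restr_apply, if_neg h0] at hi
              exact hi rfl
          exact ih _ hlt _ rfl
    rcases le_max_iff.1 key with h1 | h1
    · exact h1
    · have h2 := h.nonneg x
      have h3 := h'.nonneg x
      linarith

theorem IsTsirelsonNorm.eq_tn {ν : (ℕ →₀ ℝ) → ℝ} (h : IsTsirelsonNorm ν) : ν = tn :=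
  funext fun x => le_antisymm (le_of_isTsirelsonNorm h isTsirelsonNorm_tn _ x rfl)
    (le_of_isTsirelsonNorm isTsirelsonNorm_tn h _ x rfl)

end Pool.Agent.H621R3.Ts
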