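import Mathlib
import Pool.Agent.H621R3.TsNorm

set_option autoImplicit false
set_option linter.unusedSectionVars false

/-!
The norm of the dual of Tsirelson's space.
-/

namespace Pool.Agent.H621R3.Ts

open Pool.Agent.H621R3.TD (count_pairs)

theorem InDual.of_le {y : ℕ → ℝ} {C : ℝ} (h : ∀ x, |pair y x| ≤ C * tn x) : InDual tn y := ⟨C, h⟩

theorem dual_bdd (y : ℕ → ℝ) : BddBelow {C : ℝ | 0 ≤ C ∧ ∀ x, |pair y x| ≤ C * tn x} :=
  ⟨0, fun _ h => h.1⟩

theorem InDual.nonempty {y : ℕ → ℝ} (h : InDual tn y) :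
    {C : ℝ | 0 ≤ C ∧ ∀ x, |pair y x| ≤ C * tn x}.Nonempty := by
  obtain ⟨C, hC⟩ := h
  refine ⟨max C 0, le_max_right _ _, fun x => (hC x).trans ?_⟩
  exact mul_le_mul_of_nonneg_right (le_max_left _ _) (tn_nonneg x)

theorem dualNorm_nonneg (y : ℕ → ℝ) : 0 ≤ dualNorm tn y :=
  Real.sInf_nonneg fun _ h => h.1

theorem dualNorm_le {y : ℕ → ℝ} {C : ℝ} (hC : 0 ≤ C) (h : ∀ x, |pair y x| ≤ C * tn x) :
    dualNorm tn y ≤ C := csInf_le (dual_bdd y) ⟨hC, h⟩

theorem InDual.pair_le {y : ℕ → ℝ} (h : InDual tn y) (x : ℕ →₀ ℝ) :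
    |pair y x| ≤ dualNorm tn y * tn x := by
  rcases (tn_nonneg x).eq_or_lt with h0 | h0
  · obtain ⟨C, hC⟩ := h
    have := hC x
    rw [← h0, mul_zero] at this ⊢
    exact this
  · have h1 : |pair y x| / tn x ≤ dualNorm tn y := by
      refine le_csInf h.nonempty fun C hC => ?_
      rw [div_le_iff₀ h0]
      exact hC.2 x
    rwa [div_le_iff₀ h0] at h1

theorem InDual.coord_le {y : ℕ → ℝ} (h : InDual tn y) (i : ℕ) : |y i| ≤ dualNorm tn y := by
  have h1 := h.pair_le (Finsupp.single i 1)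
  rw [pair_single, one_mul, tn_single, abs_one, mul_one] at h1
  exact h1

theorem InDual.mono {y y' : ℕ → ℝ} (h : InDual tn y') (hy : ∀ i, |y i| ≤ |y' i|) :
    InDual tn y ∧ dualNorm tn y ≤ dualNorm tn y' := by
  let θ : ℕ → ℝ := fun i => y i / y' i
  have hθ : ∀ i, |θ i| ≤ 1 := by
    intro i
    show |y i / y' i| ≤ 1
    rw [abs_div]
    exact div_le_one_of_le₀ (hy i) (abs_nonneg _)
  have hyθ : y = fun i => θ i * y' i := by
    funext i
    show y i = y i / y' i * y' i
    by_cases h0 : y' i = 0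
    · have := hy i
      rw [h0, abs_zero] at this
      rw [h0, mul_zero]
      exact abs_nonpos_iff.1 this
    · rw [div_mul_cancel₀ _ h0]
  have key : ∀ x, |pair y x| ≤ dualNorm tn y' * tn x := by
    intro x
    rw [hyθ, ← pair_mulS]
    exact (h.pair_le _).trans (mul_le_mul_of_nonneg_left (tn_mulS θ hθ x) (dualNorm_nonneg _))
  exact ⟨⟨_, key⟩, dualNorm_le (dualNorm_nonneg _) key⟩

theorem InDual.add {y y' : ℕ → ℝ} (h : InDual tn y) (h' : InDual tn y') :
    InDual tn (y + y') ∧ dualNorm tn (y + y') ≤ dualNorm tn y + dualNorm tn y' := by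
  have key : ∀ x, |pair (y + y') x| ≤ (dualNorm tn y + dualNorm tn y') * tn x := by
    intro x
    rw [pair_add_left, add_mul]
    exact (abs_add_le _ _).trans (add_le_add (h.pair_le x) (h'.pair_le x))
  exact ⟨⟨_, key⟩, dualNorm_le (add_nonneg (dualNorm_nonneg _) (dualNorm_nonneg _)) key⟩

theorem InDual.neg {y : ℕ → ℝ} (h : InDual tn y) :
    InDual tn (-y) ∧ dualNorm tn (-y) ≤ dualNorm tn y :=
  h.mono fun i => by rw [Pi.neg_apply, abs_neg]

theorem InDual.sub {y y' : ℕ → ℝ} (h : InDual tn y) (h' : InDual tn y') :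
    InDual tn (y - y') ∧ dualNorm tn (y - y') ≤ dualNorm tn y + dualNorm tn y' := by
  rw [sub_eq_add_neg]
  have h1 := h.add h'.neg.1
  exact ⟨h1.1, h1.2.trans (add_le_add le_rfl h'.neg.2)⟩

theorem pair_abs_le (y : ℕ → ℝ) (x : ℕ →₀ ℝ) {B : Finset ℕ} (hB : ∀ i, i ∉ B → y i = 0) :
    |pair y x| ≤ ∑ i ∈ B, |x i| * |y i| := by
  have h1 : pair y x = ∑ i ∈ x.support ∪ B, x i * y i :=
    pair_eq_sum_of_subset y x Finset.subset_union_left
  have h2 : ∑ i ∈ x.support ∪ B, x i * y i = ∑ i ∈ B, x i * y i := by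
    refine (Finset.sum_subset Finset.subset_union_right fun i _ hi => ?_).symm
    rw [hB i hi, mul_zero]
  rw [h1, h2]
  refine (Finset.abs_sum_le_sum_abs _ _).trans (le_of_eq ?_)
  exact Finset.sum_congr rfl fun i _ => abs_mul _ _

/-- the `ℓ_1` bound -/
theorem dual_l1 (y : ℕ → ℝ) {B : Finset ℕ} (hB : ∀ i, i ∉ B → y i = 0) :
    InDual tn y ∧ dualNorm tn y ≤ ∑ i ∈ B, |y i| := by
  have key : ∀ x, |pair y x| ≤ (∑ i ∈ B, |y i|) * tn x := by
    intro x
    refine (pair_abs_le y x hB).trans ?_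
    rw [Finset.sum_mul]
    refine Finset.sum_le_sum fun i _ => ?_
    rw [mul_comm]
    exact mul_le_mul_of_nonneg_left (abs_le_tn x i) (abs_nonneg _)
  exact ⟨⟨_, key⟩, dualNorm_le (Finset.sum_nonneg fun i _ => abs_nonneg _) key⟩

/-- flat vectors supported late have small norm -/
theorem dual_flat (y : ℕ → ℝ) {B : Finset ℕ} (hB : ∀ i, i ∉ B → y i = 0)
    (hlate : ∀ i ∈ B, B.card ≤ i + 1) {c : ℝ} (hc : 0 ≤ c) (hy : ∀ i ∈ B, |y i| ≤ c) :
    InDual tn y ∧ dualNorm tn y ≤ 2 * c := by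
  have key : ∀ x, |pair y x| ≤ 2 * c * tn x := by
    intro x
    have h1 : ∑ i ∈ B, |x i| ≤ 2 * tn x := by
      let E : Fin B.card → Finset ℕ := fun j => {B.orderEmbOfFin rfl j}
      have hE : Admissible B.card E := by
        constructor
        · intro j i hi
          rw [Finset.mem_singleton] at hi
          subst hi
          exact hlate _ (Finset.orderEmbOfFin_mem B rfl j)
        · intro j j' hj i hi i' hi'
          rw [Finset.mem_singleton] at hi hi'
          subst hi hi'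
          exact (B.orderEmbOfFin rfl).strictMono hj
      have h2 := tn_adm hE x
      have h3 : ∀ j, tn (restr (E j) x) = |x (B.orderEmbOfFin rfl j)| := by
        intro j
        have e : restr (E j) x = Finsupp.single (B.orderEmbOfFin rfl j)
            (x (B.orderEmbOfFin rfl j)) := by
          ext i
          rw [restr_apply, Finsupp.single_apply]
          by_cases hi : i = B.orderEmbOfFin rfl j
          · rw [if_pos (Finset.mem_singleton.2 hi), if_pos hi.symm, hi]
          · rw [if_neg (fun h => hi (Finset.mem_singleton.1 h)), if_neg (Ne.symm hi)]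
        rw [e, tn_single]
      have h4 : ∑ j, tn (restr (E j) x) = ∑ i ∈ B, |x i| := by
        simp only [h3]
        have h5 : ∑ i ∈ B, |x i| = ∑ i ∈ Finset.univ.map (B.orderEmbOfFin rfl).toEmbedding,
            |x i| := by rw [Finset.map_orderEmbOfFin_univ]
        rw [h5, Finset.sum_map]
        rfl
      rw [h4] at h2
      linarith
    refine (pair_abs_le y x hB).trans ?_
    calc ∑ i ∈ B, |x i| * |y i| ≤ ∑ i ∈ B, |x i| * c :=
          Finset.sum_le_sum fun i hi => mul_le_mul_of_nonneg_left (hy i hi) (abs_nonneg _)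
      _ = (∑ i ∈ B, |x i|) * c := by rw [Finset.sum_mul]
      _ ≤ 2 * tn x * c := mul_le_mul_of_nonneg_right h1 hc
      _ = _ := by ring
  exact ⟨⟨_, key⟩, dualNorm_le (by positivity) key⟩

/-- the key estimate -/
theorem psi_tn (m r : ℕ) (hr : 0 < r) (x0 : ℕ →₀ ℝ) (x : ℕ → ℕ →₀ ℝ) (h0 : tn x0 ≤ 1)
    (hx : ∀ j, tn (x j) ≤ 1) (hs0 : ∀ i, x0 i ≠ 0 → i < m) (hs : ∀ j i, x j i ≠ 0 → m ≤ i)
    (hss : ∀ j j', j < j' → ∀ i i', x j i ≠ 0 → x j' i' ≠ 0 → i < i') :
    tn (x0 + (r : ℝ)⁻¹ • ∑ j ∈ Finset.range r, x j) ≤ 3 / 2 + m / (2 * r) := by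
  classical
  have hr' : (0 : ℝ) < r := by exact_mod_cast hr
  have hm' : (0 : ℝ) ≤ m := Nat.cast_nonneg m
  have hcc : (0 : ℝ) ≤ m / (2 * r) := by positivity
  refine tn_le fun f hf => ?_
  rw [pair_add, pair_smul, pair_sum]
  have hav : (r : ℝ)⁻¹ * ∑ j ∈ Finset.range r, pair f (x j) ≤ 1 := by
    rw [inv_mul_le_iff₀ hr', mul_one]
    calc ∑ j ∈ Finset.range r, pair f (x j) ≤ ∑ _j ∈ Finset.range r, (1 : ℝ) :=
          Finset.sum_le_sum fun j _ => (hf.pair_le_tn _).trans (hx j)
      _ = r := by simp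
  have hf0 := (hf.pair_le_tn x0).trans h0
  cases hf with
  | basis i c hc =>
    rcases lt_or_ge i m with him | him
    · have h1 : ∑ j ∈ Finset.range r, pair (Pi.single i c) (x j) = 0 := by
        refine Finset.sum_eq_zero fun j _ => ?_
        rw [pair_single_left]
        by_contra h
        have h2 : x j i ≠ 0 := fun h3 => h (by rw [h3, mul_zero])
        have := hs j i h2
        omega
      rw [h1, mul_zero]
      linarith
    · have h1 : pair (Pi.single i c) x0 = 0 := by
        rw [pair_single_left]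
        by_contra h
        have h2 : x0 i ≠ 0 := fun h3 => h (by rw [h3, mul_zero])
        have := hs0 i h2
        omega
      rw [h1]
      linarith
  | op k E f hE hf hsupp =>
    rcases lt_or_ge m k with hmk | hmk
    · have h1 : pair ((1 / 2 : ℝ) • ∑ j, f j) x0 = 0 := by
        rw [pair_eq_sum]
        refine Finset.sum_eq_zero fun i hi => ?_
        have h2 := hs0 i (Finsupp.mem_support_iff.1 hi)
        rw [Pi.smul_apply, Finset.sum_apply, Finset.sum_eq_zero, smul_zero, mul_zero]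
        intro j _
        refine hsupp j i fun h3 => ?_
        have := hE.1 j i h3
        omega
      rw [h1]
      linarith
    · -- few pieces
      let q : ℕ → ℕ → ℝ := fun j b => if h : b < k then pair (f ⟨b, h⟩) (x j) else 0
      have hq : ∀ j, ∑ b, pair (f b) (x j) = ∑ b ∈ Finset.range k, q j b := by
        intro j
        rw [Finset.sum_range]
        refine Finset.sum_congr rfl fun b _ => ?_
        show _ = if h : (b : ℕ) < k then pair (f ⟨b, h⟩) (x j) else 0
        rw [dif_pos b.2]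
      let A : Finset (ℕ × ℕ) := (Finset.range r ×ˢ Finset.range k).filter fun p =>
        ∃ h : p.2 < k, ∃ i ∈ E ⟨p.2, h⟩, x p.1 i ≠ 0
      have hA : A.card ≤ r + k := by
        refine count_pairs r k A ?_ ?_
        · intro p hp
          rw [Finset.mem_filter, Finset.mem_product, Finset.mem_range, Finset.mem_range] at hp
          exact hp.1
        · intro p hp p' hp' hlt
          rw [Finset.mem_filter, Finset.mem_product, Finset.mem_range, Finset.mem_range] at hp hp'
          obtain ⟨⟨hp1, hp2⟩, hk, i, hi, hfi⟩ := hp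
          obtain ⟨⟨hp1', hp2'⟩, hk', i', hi', hfi'⟩ := hp'
          by_contra hc
          push Not at hc
          have h3 := hss p.1 p'.1 hlt i i' hfi hfi'
          have h4 := hE.2 ⟨p'.2, hk'⟩ ⟨p.2, hk⟩ hc i' hi' i hi
          omega
      have h2 : ∑ j ∈ Finset.range r, pair ((1 / 2 : ℝ) • ∑ b, f b) (x j) ≤ 1 / 2 * A.card := by
        have h3 : ∀ j ∈ Finset.range r, pair ((1 / 2 : ℝ) • ∑ b, f b) (x j) =
            1 / 2 * ∑ b ∈ Finset.range k, q j b := by
          intro j _
          rw [pair_smul_left, pair_sum_left, hq]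
        rw [Finset.sum_congr rfl h3, ← Finset.mul_sum]
        refine mul_le_mul_of_nonneg_left ?_ (by norm_num)
        rw [← Finset.sum_product']
        have h4 : ∑ p ∈ Finset.range r ×ˢ Finset.range k, q p.1 p.2 = ∑ p ∈ A, q p.1 p.2 := by
          refine (Finset.sum_filter_of_ne ?_).symm
          intro p _ hne
          by_contra hc
          refine hne ?_
          show (if h : p.2 < k then pair (f ⟨p.2, h⟩) (x p.1) else 0) = 0
          split_ifs with hk
          · rw [pair_eq_sum]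
            refine Finset.sum_eq_zero fun i hi => ?_
            rw [hsupp ⟨p.2, hk⟩ i, mul_zero]
            intro hiE
            exact hc ⟨hk, i, hiE, Finsupp.mem_support_iff.1 hi⟩
          · rfl
        rw [h4]
        calc ∑ p ∈ A, q p.1 p.2 ≤ ∑ _p ∈ A, (1 : ℝ) := by
              refine Finset.sum_le_sum fun p _ => ?_
              show (if h : p.2 < k then pair (f ⟨p.2, h⟩) (x p.1) else 0) ≤ 1
              split_ifs with hk
              · exact ((hf _).pair_le_tn _).trans (hx _)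
              · exact zero_le_one
          _ = A.card := by simp
      have h3 : (A.card : ℝ) ≤ r + m := by
        have h4 : A.card ≤ r + m := hA.trans (by omega)
        exact_mod_cast h4
      have h5 : (r : ℝ)⁻¹ * ∑ j ∈ Finset.range r, pair ((1 / 2 : ℝ) • ∑ b, f b) (x j) ≤
          1 / 2 + m / (2 * r) := by
        rw [inv_mul_le_iff₀ hr']
        have h6 : (r : ℝ) * (1 / 2 + m / (2 * r)) = 1 / 2 * (r + m) := by field_simp
        rw [h6]
        linarith
      linarith

/-- the indicator of `[0, L)` -/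
noncomputable def ind (L : ℕ) : ℕ → ℝ := fun i => if i < L then 1 else 0

theorem ind_mem (L : ℕ) : InDual tn (ind L) :=
  (dual_l1 (ind L) (B := Finset.range L) fun i hi => by
    show (if i < L then (1 : ℝ) else 0) = 0
    rw [if_neg (fun h => hi (Finset.mem_range.2 h))]).1

/-- `T*` does not have the unit vector basis of `c_0`: the norms of the indicators are unbounded -/
theorem ind_unbounded (C : ℝ) : ∃ L, C < dualNorm tn (ind L) := by
  by_contra hcon
  push Not at hcon
  have hC0 : 0 ≤ C := (dualNorm_nonneg _).trans (hcon 0)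
  -- the sum of the coordinates is bounded by the norm
  have hsum : ∀ x : ℕ →₀ ℝ, (∀ i, 0 ≤ x i) → pair (fun _ => 1) x ≤ C * tn x := by
    intro x hx
    obtain ⟨L, hL⟩ : ∃ L, ∀ i ∈ x.support, i < L := by
      refine ⟨x.support.sup id + 1, fun i hi => ?_⟩
      exact Nat.lt_succ_of_le (Finset.le_sup (f := id) hi)
    have e : pair (fun _ => 1) x = pair (ind L) x := by
      rw [pair_eq_sum, pair_eq_sum]
      refine Finset.sum_congr rfl fun i hi => ?_
      show _ = x i * (if i < L then (1 : ℝ) else 0)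
      rw [if_pos (hL i hi)]
    rw [e]
    refine (le_abs_self _).trans (((ind_mem L).pair_le x).trans ?_)
    exact mul_le_mul_of_nonneg_right (hcon L) (tn_nonneg x)
  let cs : ℕ → Set ℝ := fun n => {t | ∃ x : ℕ →₀ ℝ, (∀ i, 0 ≤ x i) ∧ (∀ i < n, x i = 0) ∧
    tn x ≤ 1 ∧ t = pair (fun _ => 1) x}
  have hcsb : ∀ n, BddAbove (cs n) := by
    intro n
    refine ⟨C, ?_⟩
    rintro _ ⟨x, hx, _, hx1, rfl⟩
    calc pair (fun _ => 1) x ≤ C * tn x := hsum x hx
      _ ≤ C * 1 := mul_le_mul_of_nonneg_left hx1 hC0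
      _ = C := mul_one C
  have hcs1 : ∀ n, (1 : ℝ) ∈ cs n := by
    intro n
    refine ⟨Finsupp.single n 1, fun i => ?_, fun i hi => ?_, ?_, ?_⟩
    · rw [Finsupp.single_apply]
      split_ifs <;> norm_num
    · rw [Finsupp.single_apply, if_neg (by omega)]
    · rw [tn_single, abs_one]
    · rw [pair_single, one_mul]
  let c : ℕ → ℝ := fun n => sSup (cs n)
  have hc1 : ∀ n, 1 ≤ c n := fun n => le_csSup (hcsb n) (hcs1 n)
  have hcb : BddBelow (Set.range c) := ⟨1, by rintro _ ⟨n, rfl⟩; exact hc1 n⟩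
  obtain ⟨τ, hτ⟩ : ∃ τ, τ = ⨅ n, c n := ⟨_, rfl⟩
  have hτ1 : 1 ≤ τ := by
    rw [hτ]
    exact le_ciInf hc1
  have hτn : ∀ n, τ ≤ c n := fun n => by
    rw [hτ]
    exact ciInf_le hcb n
  obtain ⟨n0, hn0⟩ : ∃ n, c n < 21 / 20 * τ := by
    refine exists_lt_of_ciInf_lt ?_
    rw [← hτ]
    linarith
  -- sums of vectors supported after `n0`
  have hsum0 : ∀ x : ℕ →₀ ℝ, (∀ i, 0 ≤ x i) → (∀ i < n0, x i = 0) →
      pair (fun _ => 1) x ≤ c n0 * tn x := by
    intro x hx hxn
    rcases (tn_nonneg x).eq_or_lt with h0 | h0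
    · have hx0 : x = 0 := by
        ext i
        have := abs_le_tn x i
        rw [← h0] at this
        exact abs_nonpos_iff.1 this
      rw [hx0, pair_zero, tn_zero, mul_zero]
    · have h1 : (tn x)⁻¹ * pair (fun _ => 1) x ≤ c n0 := by
        refine le_csSup (hcsb n0) ⟨(tn x)⁻¹ • x, fun i => ?_, fun i hi => ?_, ?_, ?_⟩
        · rw [Finsupp.smul_apply, smul_eq_mul]
          exact mul_nonneg (inv_nonneg.2 h0.le) (hx i)
        · rw [Finsupp.smul_apply, hxn i hi, smul_zero]
        · refine (tn_smul_of_nonneg (inv_nonneg.2 h0.le) x).trans ?_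
          rw [inv_mul_cancel₀ h0.ne']
        · rw [pair_smul]
      rw [inv_mul_le_iff₀ h0] at h1
      linarith
  -- vectors with large sum
  have hstep : ∀ a, ∃ (x : ℕ →₀ ℝ) (b : ℕ), a < b ∧ (∀ i, 0 ≤ x i) ∧
      (∀ i, x i ≠ 0 → a ≤ i ∧ i < b) ∧ tn x ≤ 1 ∧ 19 / 20 * τ < pair (fun _ => 1) x := by
    intro a
    have h1 : 19 / 20 * τ < c a := by
      have := hτn a
      linarith
    obtain ⟨_, ⟨x, hx0, hxa, hx1, rfl⟩, hx⟩ := exists_lt_of_lt_csSup ⟨1, hcs1 a⟩ h1
    refine ⟨x, a + x.support.sup id + 1, by omega, hx0, fun i hi => ⟨?_, ?_⟩, hx1, hx⟩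
    · by_contra h
      push Not at h
      exact hi (hxa i h)
    · have := Finset.le_sup (f := id) (Finsupp.mem_support_iff.2 hi)
      simp only [id] at this
      omega
  choose X nb hnb1 hX0 hXs hX1 hX using hstep
  let a : ℕ → ℕ := fun j => nb^[j] n0
  have ha0 : a 0 = n0 := rfl
  have has : ∀ j, a (j + 1) = nb (a j) := fun j => Function.iterate_succ_apply' nb j n0
  have hamono : StrictMono a := strictMono_nat_of_lt_succ fun j => by
    rw [has]
    exact hnb1 _
  have hXa : ∀ j i, X (a j) i ≠ 0 → a j ≤ i ∧ i < a (j + 1) := fun j i hi => by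
    rw [has]
    exact hXs (a j) i hi
  let m := a 1
  let r := 5 * m + 1
  have hr : 0 < r := Nat.succ_pos _
  have hr' : (0 : ℝ) < r := by exact_mod_cast hr
  have hpsi := psi_tn m r hr (X (a 0)) (fun j => X (a (j + 1))) (hX1 _) (fun j => hX1 _)
    (fun i hi => (hXa 0 i hi).2)
    (fun j i hi => (hamono.monotone (by omega : 1 ≤ j + 1)).trans (hXa (j + 1) i hi).1)
    (fun j j' hj i i' hi hi' => by
      have h2 := (hXa (j + 1) i hi).2
      have h3 := (hXa (j' + 1) i' hi').1
      have h4 : a (j + 1 + 1) ≤ a (j' + 1) := hamono.monotone (by omega)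
      omega)
  obtain ⟨x, hxdef⟩ : ∃ x, x = X (a 0) + (r : ℝ)⁻¹ • ∑ j ∈ Finset.range r, X (a (j + 1)) :=
    ⟨_, rfl⟩
  rw [← hxdef] at hpsi
  have hxapp : ∀ i, x i = X (a 0) i + (r : ℝ)⁻¹ * ∑ j ∈ Finset.range r, X (a (j + 1)) i := by
    intro i
    rw [hxdef, Finsupp.add_apply, Finsupp.smul_apply, Finsupp.finsetSum_apply, smul_eq_mul]
  have hx0 : ∀ i, 0 ≤ x i := by
    intro i
    rw [hxapp]
    exact add_nonneg (hX0 _ i) (mul_nonneg (inv_nonneg.2 hr'.le)
      (Finset.sum_nonneg fun j _ => hX0 _ i))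
  have hxn0 : ∀ i < n0, x i = 0 := by
    intro i hi
    have h1 : ∀ j, X (a j) i = 0 := by
      intro j
      by_contra h
      have h2 := (hXa j i h).1
      have h3 : a 0 ≤ a j := hamono.monotone (Nat.zero_le j)
      omega
    rw [hxapp, h1, Finset.sum_eq_zero fun j _ => h1 (j + 1)]
    simp
  have h1 := hsum0 x hx0 hxn0
  have h2 : 2 * (19 / 20 * τ) ≤ pair (fun _ => 1) x := by
    rw [hxdef, pair_add, pair_smul, pair_sum]
    have h3 := (hX (a 0)).le
    have h4 : 19 / 20 * τ ≤ (r : ℝ)⁻¹ * ∑ j ∈ Finset.range r, pair (fun _ => 1) (X (a (j + 1))) := by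
      rw [le_inv_mul_iff₀ hr']
      calc (r : ℝ) * (19 / 20 * τ) = ∑ _j ∈ Finset.range r, (19 / 20 * τ : ℝ) := by simp
        _ ≤ _ := Finset.sum_le_sum fun j _ => (hX (a (j + 1))).le
    linarith
  have h4 : (m : ℝ) / (2 * r) ≤ 1 / 10 := by
    rw [div_le_div_iff₀ (by positivity) (by norm_num)]
    have : (r : ℝ) = 5 * m + 1 := by
      show ((5 * m + 1 : ℕ) : ℝ) = _
      push_cast
      ring
    rw [this]
    linarith
  have h5 : tn x ≤ 8 / 5 := by linarith
  have h6 : c n0 * tn x ≤ 21 / 20 * τ * (8 / 5) :=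
    mul_le_mul hn0.le h5 (tn_nonneg x) (by positivity)
  linarith

end Pool.Agent.H621R3.Ts
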