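import Mathlib
import Pool.Agent.H621R3.TsDual

set_option autoImplicit false
set_option linter.unusedSectionVars false

/-!
The embedding of the Hamming graphs into `T*(T*)`.
-/

namespace Pool.Agent.H621R3.Ts

open Filter

section Row

variable {k : ℕ}

/-- the finite set of possible histories -/
def SS (k q : ℕ) : Finset (Fin k → ℕ) := Fintype.piFinset fun _ => Finset.range (q + 1)

theorem mem_SS {q : ℕ} {s : Fin k → ℕ} : s ∈ SS k q ↔ ∀ i, s i ≤ q := by
  unfold SS
  rw [Fintype.mem_piFinset]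
  simp only [Finset.mem_range, Nat.lt_succ_iff]

theorem card_SS (k q : ℕ) : (SS k q).card = (q + 1) ^ k := by
  unfold SS
  rw [Fintype.card_piFinset]
  simp

/-- the position of a history -/
def pos (k q : ℕ) (s : Fin k → ℕ) : ℕ := Nat.pair q ((q + 1) ^ k + Encodable.encode s)

theorem pos_inj {q q' : ℕ} {s s' : Fin k → ℕ} (h : pos k q s = pos k q' s') :
    q = q' ∧ s = s' := by
  obtain ⟨h1, h2⟩ := Nat.pair_eq_pair.1 h
  subst h1
  exact ⟨rfl, Encodable.encode_injective (Nat.add_left_cancel h2)⟩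

theorem le_pos (q : ℕ) (s : Fin k → ℕ) : (q + 1) ^ k ≤ pos k q s :=
  (Nat.le_add_right _ _).trans (Nat.right_le_pair _ _)

/-- the set of positions -/
noncomputable def BS (k q : ℕ) : Finset ℕ := (SS k q).image (pos k q)

theorem card_BS (k q : ℕ) : (BS k q).card ≤ (q + 1) ^ k := by
  unfold BS
  exact Finset.card_image_le.trans (card_SS k q).le

theorem BS_late {q : ℕ} : ∀ i ∈ BS k q, (BS k q).card ≤ i + 1 := by
  intro i hi
  obtain ⟨s, _, rfl⟩ := Finset.mem_image.1 hi
  exact ((card_BS k q).trans (le_pos q s)).trans (Nat.le_succ _)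

/-- the coefficient -/
noncomputable def co (w : ℝ) (h s : Fin k → ℕ) : ℝ := min (w * hammingDist h s) 1

theorem co_nonneg {w : ℝ} (hw : 0 ≤ w) (h s : Fin k → ℕ) : 0 ≤ co w h s :=
  le_min (by positivity) zero_le_one

theorem co_le_one (w : ℝ) (h s : Fin k → ℕ) : co w h s ≤ 1 := min_le_right _ _

theorem co_self (w : ℝ) (h : Fin k → ℕ) : co w h h = 0 := by
  unfold co
  rw [hammingDist_self, Nat.cast_zero, mul_zero]
  exact min_eq_left zero_le_one

theorem co_sub {w : ℝ} (hw : 0 ≤ w) (h h' s : Fin k → ℕ) :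
    |co w h s - co w h' s| ≤ w * hammingDist h h' := by
  have h1 : (hammingDist h s : ℝ) ≤ hammingDist h h' + hammingDist h' s := by
    exact_mod_cast hammingDist_triangle h h' s
  have h2 : (hammingDist h' s : ℝ) ≤ hammingDist h h' + hammingDist h s := by
    have := hammingDist_triangle h' h s
    rw [hammingDist_comm h' h] at this
    exact_mod_cast this
  have h3 := abs_min_sub_min_le_max (w * hammingDist h s) 1 (w * hammingDist h' s) 1
  rw [sub_self, abs_zero, max_eq_left (abs_nonneg _)] at h3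
  refine h3.trans ?_
  rw [← mul_sub, abs_mul, abs_of_nonneg hw]
  refine mul_le_mul_of_nonneg_left ?_ hw
  rw [abs_le]
  constructor <;> linarith

/-- a row of the embedding -/
noncomputable def rowv (w : ℝ) (q : ℕ) (h : Fin k → ℕ) : ℕ → ℝ :=
  ∑ s ∈ SS k q, Pi.single (pos k q s) (1 + co w h s)

theorem rowv_pos (w : ℝ) (q : ℕ) (h : Fin k → ℕ) {s : Fin k → ℕ} (hs : s ∈ SS k q) :
    rowv w q h (pos k q s) = 1 + co w h s := by
  unfold rowv
  rw [Finset.sum_apply, Finset.sum_eq_single s]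
  · rw [Pi.single_eq_same]
  · intro s' _ hne
    refine Pi.single_eq_of_ne (fun h => hne (pos_inj h).2.symm) _
  · intro h
    exact absurd hs h

theorem rowv_zero (w : ℝ) (q : ℕ) (h : Fin k → ℕ) {p : ℕ} (hp : p ∉ BS k q) :
    rowv w q h p = 0 := by
  unfold rowv
  rw [Finset.sum_apply]
  refine Finset.sum_eq_zero fun s hs => Pi.single_eq_of_ne ?_ _
  rintro rfl
  exact hp (Finset.mem_image_of_mem _ hs)

theorem rowv_bound {w : ℝ} (hw : 0 ≤ w) (q : ℕ) (h : Fin k → ℕ) :
    InDual tn (rowv w q h) ∧ dualNorm tn (rowv w q h) ≤ 4 := by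
  have h1 := dual_flat (rowv w q h) (B := BS k q) (fun i hi => rowv_zero w q h hi) BS_late
    (c := 2) (by norm_num) (fun i hi => by
      obtain ⟨s, hs, rfl⟩ := Finset.mem_image.1 hi
      rw [rowv_pos w q h hs, abs_of_nonneg (by have := co_nonneg hw h s; linarith)]
      have := co_le_one w h s
      linarith)
  norm_num at h1
  exact h1

theorem row_same {w : ℝ} (hw : 0 ≤ w) (q : ℕ) (h h' : Fin k → ℕ) :
    InDual tn (rowv w q h - rowv w q h') ∧
      dualNorm tn (rowv w q h - rowv w q h') ≤ 2 * (w * hammingDist h h') := by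
  refine dual_flat _ (B := BS k q) (fun i hi => ?_) BS_late (by positivity) (fun i hi => ?_)
  · rw [Pi.sub_apply, rowv_zero w q h hi, rowv_zero w q h' hi, sub_self]
  · obtain ⟨s, hs, rfl⟩ := Finset.mem_image.1 hi
    rw [Pi.sub_apply, rowv_pos w q h hs, rowv_pos w q h' hs, add_sub_add_left_eq_sub]
    exact co_sub hw h h' s

theorem row_same_lower {w : ℝ} (hw : 0 ≤ w) {q : ℕ} (h : Fin k → ℕ) {h' : Fin k → ℕ}
    (hh' : h' ∈ SS k q) (hd : 1 ≤ w * hammingDist h h') :
    1 ≤ dualNorm tn (rowv w q h - rowv w q h') := by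
  have h1 := (row_same hw q h h').1.coord_le (pos k q h')
  rw [Pi.sub_apply, rowv_pos w q h hh', rowv_pos w q h' hh', add_sub_add_left_eq_sub,
    co_self, sub_zero] at h1
  have h2 : co w h h' = 1 := min_eq_right hd
  rw [h2, abs_one] at h1
  exact h1

theorem row_diff {w : ℝ} (hw : 0 ≤ w) (q q' : ℕ) (h h' : Fin k → ℕ) :
    InDual tn (rowv w q h - rowv w q' h') ∧ dualNorm tn (rowv w q h - rowv w q' h') ≤ 8 := by
  have h1 := rowv_bound hw q h
  have h2 := rowv_bound hw q' h'
  have h3 := h1.1.sub h2.1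
  exact ⟨h3.1, h3.2.trans (by linarith [h1.2, h2.2])⟩

theorem row_diff_lower {w : ℝ} (hw : 0 ≤ w) {q q' : ℕ} (hq : q ≠ q') (h h' : Fin k → ℕ) :
    1 ≤ dualNorm tn (rowv w q h - rowv w q' h') := by
  have hs : (fun _ => 0 : Fin k → ℕ) ∈ SS k q := mem_SS.2 fun _ => Nat.zero_le q
  have h1 := (row_diff hw q q' h h').1.coord_le (pos k q fun _ => 0)
  have h2 : pos k q (fun _ => 0) ∉ BS k q' := by
    intro hm
    obtain ⟨s, _, hs'⟩ := Finset.mem_image.1 hm
    exact hq (pos_inj hs').1.symm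
  rw [Pi.sub_apply, rowv_pos w q h hs, rowv_zero w q' h' h2, sub_zero] at h1
  have h3 := co_nonneg hw h (fun _ => 0)
  rw [abs_of_nonneg (by linarith)] at h1
  linarith

end Row

section Emb

variable {k : ℕ}

/-- the history of the coordinate `j` -/
def hist (n : Fin k → ℕ) (j : Fin k) : Fin k → ℕ := fun i => if i < j then n i else 0

/-- the coordinate belonging to the row `l` -/
def rj (l : ℕ) (hl : l < k) : Fin k := ⟨k - 1 - l, by omega⟩

/-- the weights -/
noncomputable def ww (l : ℕ) : ℝ := (1 / 2) ^ (l + 1)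

theorem ww_nonneg (l : ℕ) : 0 ≤ ww l := by
  unfold ww
  positivity

theorem sum_ww (k : ℕ) : ∑ l ∈ Finset.range k, ww l ≤ 1 := by
  have h : ∑ l ∈ Finset.range k, ww l = 1 - (1 / 2) ^ k := by
    induction k with
    | zero => simp
    | succ k ih =>
      rw [Finset.sum_range_succ, ih]
      unfold ww
      ring
  rw [h]
  have : (0 : ℝ) ≤ (1 / 2) ^ k := by positivity
  linarith

/-- the embedding -/
noncomputable def emb (n : HamGraph k) : ℕ → ℕ → ℝ := fun l =>
  if hl : l < k then rowv (ww l) (n.1 (rj l hl)) (hist n.1 (rj l hl)) else 0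

theorem emb_of_lt (n : HamGraph k) {l : ℕ} (hl : l < k) :
    emb n l = rowv (ww l) (n.1 (rj l hl)) (hist n.1 (rj l hl)) := dif_pos hl

theorem emb_of_ge (n : HamGraph k) {l : ℕ} (hl : ¬ l < k) : emb n l = 0 := dif_neg hl

theorem hist_mem (n : HamGraph k) (j : Fin k) : hist n.1 j ∈ SS k (n.1 j) := by
  rw [mem_SS]
  intro i
  unfold hist
  split_ifs with h
  · exact (n.2 h).le
  · exact Nat.zero_le _

theorem zero_dual : InDual tn (0 : ℕ → ℝ) ∧ dualNorm tn (0 : ℕ → ℝ) = 0 := by
  have h := dual_l1 (0 : ℕ → ℝ) (B := ∅) (fun _ _ => rfl)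
  rw [Finset.sum_empty] at h
  exact ⟨h.1, le_antisymm h.2 (dualNorm_nonneg _)⟩

theorem emb_row_mem (n : HamGraph k) (l : ℕ) : InDual tn (emb n l) := by
  by_cases hl : l < k
  · rw [emb_of_lt n hl]
    exact (rowv_bound (ww_nonneg l) _ _).1
  · rw [emb_of_ge n hl]
    exact zero_dual.1

theorem emb_diff_mem (m n : HamGraph k) (l : ℕ) : InDual tn ((emb m - emb n) l) :=
  ((emb_row_mem m l).sub (emb_row_mem n l)).1

theorem emb_sum (m n : HamGraph k) :
    InSum tn (emb n) ∧ InSum tn (emb m - emb n) ∧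
      sumNorm tn (emb m - emb n) ≤
        ∑ l ∈ Finset.range k, dualNorm tn ((emb m - emb n) l) := by
  have h1 : ∀ i, i ∉ Finset.range k → dualNorm tn (emb n i) = 0 := by
    intro i hi
    rw [emb_of_ge n (fun h => hi (Finset.mem_range.2 h))]
    exact zero_dual.2
  have h2 : ∀ i, i ∉ Finset.range k → dualNorm tn ((emb m - emb n) i) = 0 := by
    intro i hi
    rw [Pi.sub_apply, emb_of_ge n (fun h => hi (Finset.mem_range.2 h)),
      emb_of_ge m (fun h => hi (Finset.mem_range.2 h)), sub_zero]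
    exact zero_dual.2
  have h3 := dual_l1 (fun l => dualNorm tn (emb n l)) (B := Finset.range k) h1
  have h4 := dual_l1 (fun l => dualNorm tn ((emb m - emb n) l)) (B := Finset.range k) h2
  refine ⟨⟨emb_row_mem n, h3.1⟩, ⟨emb_diff_mem m n, h4.1⟩, h4.2.trans (le_of_eq ?_)⟩
  exact Finset.sum_congr rfl fun l _ => abs_of_nonneg (dualNorm_nonneg _)

theorem hamming_hist (m n : HamGraph k) (j : Fin k) :
    hammingDist (hist m.1 j) (hist n.1 j) ≤ hamDist m n := by
  unfold hammingDist hamDist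
  refine Finset.card_le_card fun i hi => ?_
  rw [Finset.mem_filter] at hi ⊢
  refine ⟨hi.1, fun h => hi.2 ?_⟩
  unfold hist
  rw [h]

theorem rj_inj {l l' : ℕ} (hl : l < k) (hl' : l' < k) (h : rj l hl = rj l' hl') : l = l' := by
  unfold rj at h
  have := congrArg Fin.val h
  simp only at this
  omega

theorem emb_upper (m n : HamGraph k) : sumNorm tn (emb m - emb n) ≤ 10 * hamDist m n := by
  classical
  refine (emb_sum m n).2.2.trans ?_
  have h1 : ∀ l ∈ Finset.range k, dualNorm tn ((emb m - emb n) l) ≤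
      (if ∃ hl : l < k, m.1 (rj l hl) ≠ n.1 (rj l hl) then 8 else 0) +
        2 * (ww l * hamDist m n) := by
    intro l hl
    have hlk := Finset.mem_range.1 hl
    rw [Pi.sub_apply, emb_of_lt m hlk, emb_of_lt n hlk]
    by_cases h : m.1 (rj l hlk) = n.1 (rj l hlk)
    · rw [if_neg (by rintro ⟨_, h'⟩; exact h' h), zero_add, h]
      refine (row_same (ww_nonneg l) _ _ _).2.trans ?_
      have h2 : (hammingDist (hist m.1 (rj l hlk)) (hist n.1 (rj l hlk)) : ℝ) ≤ hamDist m n := by
        exact_mod_cast hamming_hist m n _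
      have := ww_nonneg l
      gcongr
    · rw [if_pos ⟨hlk, h⟩]
      refine (row_diff (ww_nonneg l) _ _ _ _).2.trans ?_
      have := ww_nonneg l
      have h3 : (0 : ℝ) ≤ 2 * (ww l * hamDist m n) := by positivity
      linarith
  refine (Finset.sum_le_sum h1).trans ?_
  rw [Finset.sum_add_distrib, ← Finset.mul_sum, ← Finset.sum_mul]
  have h2 : (∑ l ∈ Finset.range k,
      if ∃ hl : l < k, m.1 (rj l hl) ≠ n.1 (rj l hl) then (8 : ℝ) else 0) ≤ 8 * hamDist m n := by
    rw [← Finset.sum_filter, Finset.sum_const, nsmul_eq_mul, mul_comm]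
    refine mul_le_mul_of_nonneg_left ?_ (by norm_num)
    have h3 : ((Finset.range k).filter fun l =>
        ∃ hl : l < k, m.1 (rj l hl) ≠ n.1 (rj l hl)).card ≤ hamDist m n := by
      unfold hamDist
      have h4 : ((Finset.range k).filter fun l =>
          ∃ hl : l < k, m.1 (rj l hl) ≠ n.1 (rj l hl)) ⊆
          (Finset.univ.filter fun i => m.1 i ≠ n.1 i).image fun i : Fin k => k - 1 - (i : ℕ) := by
        intro l hl
        obtain ⟨_, hlk, hne⟩ := Finset.mem_filter.1 hl
        refine Finset.mem_image.2 ⟨rj l hlk, Finset.mem_filter.2 ⟨Finset.mem_univ _, hne⟩, ?_⟩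
        show k - 1 - (k - 1 - l) = l
        omega
      exact (Finset.card_le_card h4).trans Finset.card_image_le
    exact_mod_cast h3
  have h4 := sum_ww k
  have h5 : (∑ l ∈ Finset.range k, ww l) * (hamDist m n : ℝ) ≤ 1 * hamDist m n :=
    mul_le_mul_of_nonneg_right h4 (Nat.cast_nonneg _)
  linarith

theorem hist_lower (m n : HamGraph k) {l : ℕ} (hl : l < k) :
    hamDist m n ≤ hammingDist (hist m.1 (rj l hl)) (hist n.1 (rj l hl)) + (l + 1) := by
  classical
  have h1 : (Finset.univ.filter fun i => m.1 i ≠ n.1 i) ⊆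
      (Finset.univ.filter fun i => hist m.1 (rj l hl) i ≠ hist n.1 (rj l hl) i) ∪
        Finset.Ici (rj l hl) := by
    intro i hi
    rw [Finset.mem_filter] at hi
    rw [Finset.mem_union, Finset.mem_filter, Finset.mem_Ici]
    rcases lt_or_ge i (rj l hl) with h | h
    · left
      refine ⟨Finset.mem_univ _, ?_⟩
      unfold hist
      rw [if_pos h, if_pos h]
      exact hi.2
    · right
      exact h
  have h2 : (Finset.Ici (rj l hl)).card = l + 1 := by
    rw [Fin.card_Ici]
    show k - (k - 1 - l) = l + 1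
    omega
  have h3 := (Finset.card_le_card h1).trans (Finset.card_union_le _ _)
  rw [h2] at h3
  exact h3

theorem hamDist_le (m n : HamGraph k) : hamDist m n ≤ k := by
  unfold hamDist
  refine (Finset.card_le_univ _).trans ?_
  rw [Fintype.card_fin]

theorem emb_lower (m n : HamGraph k) :
    dualNorm tn (ind (Nat.log 2 (hamDist m n) - 1)) ≤ sumNorm tn (emb m - emb n) := by
  refine ((emb_sum m n).2.1.2.mono fun l => ?_).2
  show |ind (Nat.log 2 (hamDist m n) - 1) l| ≤ |dualNorm tn ((emb m - emb n) l)|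
  rw [abs_of_nonneg (dualNorm_nonneg _)]
  unfold ind
  split_ifs with hl
  · rw [abs_one]
    have hd0 : hamDist m n ≠ 0 := by
      intro h0
      rw [h0] at hl
      simp at hl
    have h1 : 2 ^ (l + 2) ≤ hamDist m n :=
      (Nat.pow_le_pow_right (by norm_num) (by omega : l + 2 ≤ Nat.log 2 (hamDist m n))).trans
        (Nat.pow_log_le_self 2 hd0)
    have h2 : l + 1 ≤ 2 ^ (l + 1) := (Nat.lt_two_pow_self).le
    have h3 : 2 ^ (l + 2) = 2 * 2 ^ (l + 1) := by ring
    have hlk : l < k := by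
      have := hamDist_le m n
      omega
    rw [Pi.sub_apply, emb_of_lt m hlk, emb_of_lt n hlk]
    by_cases h : m.1 (rj l hlk) = n.1 (rj l hlk)
    · rw [h]
      refine row_same_lower (ww_nonneg l) _ (hist_mem n _) ?_
      have h4 := hist_lower m n hlk
      have h5 : 2 ^ (l + 1) ≤ hammingDist (hist m.1 (rj l hlk)) (hist n.1 (rj l hlk)) := by omega
      have h6 : (2 : ℝ) ^ (l + 1) ≤
          (hammingDist (hist m.1 (rj l hlk)) (hist n.1 (rj l hlk)) : ℝ) := by exact_mod_cast h5
      unfold ww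
      calc (1 : ℝ) = (1 / 2) ^ (l + 1) * 2 ^ (l + 1) := by
            rw [← mul_pow]
            norm_num
        _ ≤ _ := mul_le_mul_of_nonneg_left h6 (by positivity)
    · exact row_diff_lower (ww_nonneg l) h _ _
  · rw [abs_zero]
    exact dualNorm_nonneg _

/-- the compression function -/
noncomputable def rhoF (t : ℝ) : ℝ := dualNorm tn (ind (Nat.log 2 ⌊t⌋₊ - 1))

theorem ind_mono {L L' : ℕ} (h : L ≤ L') : dualNorm tn (ind L) ≤ dualNorm tn (ind L') := by
  refine ((ind_mem L').mono fun i => ?_).2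
  unfold ind
  split_ifs with h1 h2 h2
  · exact le_rfl
  · exact absurd (h1.trans_le h) h2
  · rw [abs_zero, abs_one]
    exact zero_le_one
  · exact le_rfl

theorem rhoF_mono : Monotone rhoF := by
  intro s t hst
  refine ind_mono ?_
  have h1 := Nat.log_mono_right (b := 2) (Nat.floor_mono hst)
  omega

theorem rhoF_tendsto : Tendsto rhoF atTop atTop := by
  refine tendsto_atTop_atTop.2 fun b => ?_
  obtain ⟨L, hL⟩ := ind_unbounded b
  refine ⟨((2 ^ (L + 1) : ℕ) : ℝ), fun t ht => hL.le.trans ?_⟩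
  have h1 : 2 ^ (L + 1) ≤ ⌊t⌋₊ := Nat.le_floor ht
  have h2 : L + 1 ≤ Nat.log 2 ⌊t⌋₊ := by
    have h3 := Nat.log_mono_right (b := 2) h1
    rwa [Nat.log_pow (by norm_num)] at h3
  exact ind_mono (by omega)

end Emb

end Pool.Agent.H621R3.Ts
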