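import Mathlib
import Pool.Agent.H621R3.TsDual

set_option autoImplicit false
set_option linter.unusedSectionVars false

/-!
The Banach space `T*(T*)`.
-/

namespace Pool.Agent.H621R3.Ts

open Filter Topology

theorem InDual.smul {y : ℕ → ℝ} (h : InDual tn y) (c : ℝ) :
    InDual tn (c • y) ∧ dualNorm tn (c • y) ≤ |c| * dualNorm tn y := by
  have key : ∀ x, |pair (c • y) x| ≤ |c| * dualNorm tn y * tn x := by
    intro x
    rw [pair_smul_left, abs_mul, mul_assoc]
    exact mul_le_mul_of_nonneg_left (h.pair_le x) (abs_nonneg _)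
  exact ⟨⟨_, key⟩, dualNorm_le (mul_nonneg (abs_nonneg _) (dualNorm_nonneg _)) key⟩

theorem InSum.add {x y : ℕ → ℕ → ℝ} (hx : InSum tn x) (hy : InSum tn y) :
    InSum tn (x + y) ∧ sumNorm tn (x + y) ≤ sumNorm tn x + sumNorm tn y := by
  have h1 : ∀ l, InDual tn ((x + y) l) ∧
      dualNorm tn ((x + y) l) ≤ dualNorm tn (x l) + dualNorm tn (y l) := fun l =>
    (hx.1 l).add (hy.1 l)
  have h2 := hx.2.add hy.2
  have h3 := h2.1.mono (y := fun l => dualNorm tn ((x + y) l)) fun l => by
    show |dualNorm tn ((x + y) l)| ≤ |dualNorm tn (x l) + dualNorm tn (y l)|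
    rw [abs_of_nonneg (dualNorm_nonneg _),
      abs_of_nonneg (add_nonneg (dualNorm_nonneg _) (dualNorm_nonneg _))]
    exact (h1 l).2
  exact ⟨⟨fun l => (h1 l).1, h3.1⟩, h3.2.trans h2.2⟩

theorem InSum.smul {x : ℕ → ℕ → ℝ} (hx : InSum tn x) (c : ℝ) :
    InSum tn (c • x) ∧ sumNorm tn (c • x) ≤ |c| * sumNorm tn x := by
  have h1 : ∀ l, InDual tn ((c • x) l) ∧ dualNorm tn ((c • x) l) ≤ |c| * dualNorm tn (x l) :=
    fun l => (hx.1 l).smul c
  have h2 := hx.2.smul |c|
  have h3 := h2.1.mono (y := fun l => dualNorm tn ((c • x) l)) fun l => by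
    show |dualNorm tn ((c • x) l)| ≤ |(|c| * dualNorm tn (x l))|
    rw [abs_of_nonneg (dualNorm_nonneg _),
      abs_of_nonneg (mul_nonneg (abs_nonneg _) (dualNorm_nonneg _))]
    exact (h1 l).2
  refine ⟨⟨fun l => (h1 l).1, h3.1⟩, h3.2.trans (h2.2.trans (le_of_eq ?_))⟩
  rw [abs_abs]
  rfl

theorem zero_dual' : InDual tn (0 : ℕ → ℝ) ∧ dualNorm tn (0 : ℕ → ℝ) = 0 := by
  have h := dual_l1 (0 : ℕ → ℝ) (B := ∅) (fun _ _ => rfl)
  rw [Finset.sum_empty] at h
  exact ⟨h.1, le_antisymm h.2 (dualNorm_nonneg _)⟩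

theorem InSum.zero : InSum tn (0 : ℕ → ℕ → ℝ) ∧ sumNorm tn (0 : ℕ → ℕ → ℝ) = 0 := by
  have h : (fun l => dualNorm tn ((0 : ℕ → ℕ → ℝ) l)) = 0 := by
    funext l
    exact zero_dual'.2
  refine ⟨⟨fun _ => zero_dual'.1, ?_⟩, ?_⟩
  · rw [h]
    exact zero_dual'.1
  · unfold sumNorm
    rw [h]
    exact zero_dual'.2

theorem InSum.row_le {x : ℕ → ℕ → ℝ} (hx : InSum tn x) (l : ℕ) :
    dualNorm tn (x l) ≤ sumNorm tn x :=
  (le_abs_self _).trans (hx.2.coord_le l)

theorem InSum.coord_le {x : ℕ → ℕ → ℝ} (hx : InSum tn x) (l i : ℕ) : |x l i| ≤ sumNorm tn x :=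
  ((hx.1 l).coord_le i).trans (hx.row_le l)

/-- the subspace -/
def TTs : Submodule ℝ (ℕ → ℕ → ℝ) where
  carrier := {x | InSum tn x}
  zero_mem' := InSum.zero.1
  add_mem' hx hy := (InSum.add hx hy).1
  smul_mem' c _ hx := (InSum.smul hx c).1

/-- the Banach space `T*(T*)` -/
def TT : Type := TTs

noncomputable instance : AddCommGroup TT := inferInstanceAs (AddCommGroup TTs)
noncomputable instance : Module ℝ TT := inferInstanceAs (Module ℝ TTs)

/-- the coordinates of an element of `T*(T*)` -/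
def seq : TT →ₗ[ℝ] (ℕ → ℕ → ℝ) := TTs.subtype

theorem seq_mem (x : TT) : InSum tn (seq x) := x.2

theorem seq_inj : Function.Injective seq := Subtype.val_injective

noncomputable instance : NormedAddCommGroup TT :=
  AddGroupNorm.toNormedAddCommGroup
    { toFun := fun x => sumNorm tn (seq x)
      map_zero' := by
        rw [map_zero]
        exact InSum.zero.2
      add_le' := fun x y => by
        rw [map_add]
        exact (InSum.add (seq_mem x) (seq_mem y)).2
      neg' := fun x => by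
        have h : ∀ x : TT, sumNorm tn (seq (-x)) ≤ sumNorm tn (seq x) := by
          intro x
          have h1 := (InSum.smul (seq_mem x) (-1)).2
          rw [abs_neg, abs_one, one_mul] at h1
          rw [map_neg]
          have e : -(seq x) = (-1 : ℝ) • seq x := by rw [neg_one_smul]
          rw [e]
          exact h1
        refine le_antisymm (h x) ?_
        have h2 := h (-x)
        rwa [neg_neg] at h2
      eq_zero_of_map_eq_zero' := fun x hx => by
        refine seq_inj ?_
        rw [map_zero]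
        funext l i
        have h1 := (seq_mem x).coord_le l i
        have hx' : sumNorm tn (seq x) = 0 := hx
        rw [hx'] at h1
        exact abs_nonpos_iff.1 h1 }

theorem norm_TT (x : TT) : ‖x‖ = sumNorm tn (seq x) := rfl

noncomputable instance : NormedSpace ℝ TT where
  norm_smul_le c x := by
    rw [norm_TT, map_smul]
    exact (InSum.smul (seq_mem x) c).2

/-- semicontinuity of the dual norm -/
theorem dual_of_tendsto {y : ℕ → ℕ → ℝ} {z : ℕ → ℝ} {C : ℝ} (hC : 0 ≤ C)
    (hy : ∀ i, Tendsto (fun m => y m i) atTop (𝓝 (z i)))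
    (h : ∀ᶠ m in atTop, InDual tn (y m) ∧ dualNorm tn (y m) ≤ C) :
    InDual tn z ∧ dualNorm tn z ≤ C := by
  have key : ∀ x, |pair z x| ≤ C * tn x := by
    intro x
    have h1 : Tendsto (fun m => |pair (y m) x|) atTop (𝓝 |pair z x|) := by
      refine Tendsto.abs ?_
      simp only [pair_eq_sum]
      exact tendsto_finsetSum _ fun i _ => (hy i).const_mul _
    refine le_of_tendsto h1 ?_
    filter_upwards [h] with m hm
    exact (hm.1.pair_le x).trans (mul_le_mul_of_nonneg_right hm.2 (tn_nonneg x))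
  exact ⟨⟨_, key⟩, dualNorm_le hC key⟩

instance : CompleteSpace TT := by
  refine Metric.complete_of_cauchySeq_tendsto fun u hu => ?_
  have hc : ∀ l i, ∃ L : ℝ, Tendsto (fun n => seq (u n) l i) atTop (𝓝 L) := by
    intro l i
    refine cauchySeq_tendsto_of_complete ?_
    have hl : LipschitzWith 1 (fun x : TT => seq x l i) := by
      refine LipschitzWith.of_dist_le_mul fun x y => ?_
      rw [NNReal.coe_one, one_mul, dist_eq_norm, dist_eq_norm]
      have h1 := (seq_mem (x - y)).coord_le l i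
      rw [map_sub] at h1
      exact h1
    exact hl.uniformContinuous.comp_cauchySeq hu
  choose L hL using hc
  -- the rows
  have hrow : ∀ ε : ℝ, 0 < ε → ∃ N, ∀ n ≥ N, ∀ l,
      InDual tn ((seq (u n) - L) l) ∧ dualNorm tn ((seq (u n) - L) l) ≤ ε := by
    intro ε hε
    obtain ⟨N, hN⟩ := Metric.cauchySeq_iff.1 hu ε hε
    refine ⟨N, fun n hn l => ?_⟩
    refine dual_of_tendsto (y := fun m => (seq (u n - u m)) l) hε.le ?_ ?_
    · intro i
      exact (hL l i).const_sub _
    · filter_upwards [eventually_ge_atTop N] with m hm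
      have h1 := hN n hn m hm
      rw [dist_eq_norm, norm_TT] at h1
      exact ⟨(seq_mem _).1 l, ((seq_mem _).row_le l).trans h1.le⟩
  have hrowlim : ∀ n l, InDual tn ((seq (u n) - L) l) → Tendsto
      (fun m => dualNorm tn (seq (u n - u m) l)) atTop (𝓝 (dualNorm tn ((seq (u n) - L) l))) := by
    intro n l hd
    rw [Metric.tendsto_atTop]
    intro ε hε
    obtain ⟨N, hN⟩ := hrow (ε / 2) (by linarith)
    refine ⟨N, fun m hm => ?_⟩
    obtain ⟨h1, h2⟩ := hN m hm l
    have e1 : seq (u n - u m) l = (seq (u n) - L) l - (seq (u m) - L) l := by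
      rw [map_sub]
      simp only [Pi.sub_apply]
      abel
    have e2 : (seq (u n) - L) l = seq (u n - u m) l + (seq (u m) - L) l := by
      rw [e1]
      abel
    have h3 := (hd.sub h1).2
    rw [← e1] at h3
    have h4 := (((seq_mem (u n - u m)).1 l).add h1).2
    rw [← e2] at h4
    rw [Real.dist_eq, abs_lt]
    constructor <;> linarith
  have key : ∀ ε : ℝ, 0 < ε → ∃ N, ∀ n ≥ N, InSum tn (seq (u n) - L) ∧
      sumNorm tn (seq (u n) - L) ≤ ε := by
    intro ε hε
    obtain ⟨N, hN⟩ := Metric.cauchySeq_iff.1 hu ε hε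
    obtain ⟨N', hN'⟩ := hrow 1 one_pos
    refine ⟨max N N', fun n hn => ?_⟩
    have hnN : N ≤ n := (le_max_left _ _).trans hn
    have hnN' : N' ≤ n := (le_max_right _ _).trans hn
    have hd : ∀ l, InDual tn ((seq (u n) - L) l) := fun l => (hN' n hnN' l).1
    have h1 := dual_of_tendsto (y := fun m l => dualNorm tn (seq (u n - u m) l))
      (z := fun l => dualNorm tn ((seq (u n) - L) l)) hε.le
      (fun l => hrowlim n l (hd l)) (by
        filter_upwards [eventually_ge_atTop N] with m hm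
        have h2 := hN n hnN m hm
        rw [dist_eq_norm, norm_TT] at h2
        exact ⟨(seq_mem _).2, h2.le⟩)
    exact ⟨⟨hd, h1.1⟩, h1.2⟩
  obtain ⟨N, hN⟩ := key 1 one_pos
  have hLm : InSum tn L := by
    have h1 := (hN N le_rfl).1
    have h2 := (InSum.smul h1 (-1)).1
    have h3 := (InSum.add (seq_mem (u N)) h2).1
    have e : seq (u N) + (-1 : ℝ) • (seq (u N) - L) = L := by
      rw [neg_one_smul]
      abel
    rwa [e] at h3
  let x : TT := ⟨L, hLm⟩
  have hx : seq x = L := rfl
  refine ⟨x, ?_⟩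
  rw [Metric.tendsto_atTop]
  intro ε hε
  obtain ⟨N', hN'⟩ := key (ε / 2) (by linarith)
  refine ⟨N', fun n hn => ?_⟩
  have h1 := (hN' n hn).2
  rw [dist_eq_norm, norm_TT, map_sub, hx]
  linarith

end Pool.Agent.H621R3.Ts
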