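import Pool.Agent.H621R3.WS1

set_option autoImplicit false
open Filter Topology
open scoped ENNReal

namespace Pool.H621R3.WS

/-- the odd power function -/
noncomputable def ph (θ t : ℝ) : ℝ := if 0 ≤ t then t ^ θ else -((-t) ^ θ)

lemma ph_of_nonneg {θ t : ℝ} (h : 0 ≤ t) : ph θ t = t ^ θ := if_pos h

lemma ph_of_neg {θ t : ℝ} (h : t < 0) : ph θ t = -((-t) ^ θ) := if_neg (not_le.2 h)

lemma ph_abs (θ t : ℝ) : |ph θ t| = |t| ^ θ := by
  rcases le_or_gt 0 t with h | h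
  · rw [ph_of_nonneg h, abs_of_nonneg h, abs_of_nonneg (Real.rpow_nonneg h _)]
  · rw [ph_of_neg h, abs_neg, abs_of_neg h,
      abs_of_nonneg (Real.rpow_nonneg (by linarith : (0:ℝ) ≤ -t) _)]

lemma core1 {θ a b : ℝ} (h0 : 0 < θ) (h1 : θ ≤ 1) (hb : 0 ≤ b) (hab : b ≤ a) :
    a ^ θ - b ^ θ ≤ (a - b) ^ θ := by
  have := Real.rpow_add_le_add_rpow (sub_nonneg.2 hab) hb h0.le h1
  rw [sub_add_cancel] at this
  linarith

lemma core2 {θ a b : ℝ} (h0 : 0 < θ) (h1 : θ < 1) (hb : 0 ≤ b) (hab : b ≤ a) :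
    a - b ≤ (1 / θ) * ((a ^ θ - b ^ θ) * (a + b) ^ (1 - θ)) := by
  rcases (hb.trans hab).eq_or_lt with ha | ha
  · have hb0 : b = 0 := le_antisymm (ha ▸ hab) hb
    subst hb0
    rw [← ha]
    simp
  have ht0 : 0 ≤ b / a := by positivity
  have hbern := _root_.rpow_one_add_le_one_add_mul_self (s := b / a - 1) (by linarith) h0.le h1.le
  rw [add_sub_cancel] at hbern
  have hb2 : b ^ θ = a ^ θ * (b / a) ^ θ := by
    rw [← Real.mul_rpow ha.le ht0, mul_div_cancel₀ _ ha.ne']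
  have haθ : 0 < a ^ θ := Real.rpow_pos_of_pos ha _
  have h3 : θ * ((a - b) / a) * a ^ θ ≤ a ^ θ - b ^ θ := by
    have : a ^ θ * (b / a) ^ θ ≤ a ^ θ * (1 + θ * (b / a - 1)) := by gcongr
    rw [hb2]
    have e : (a - b) / a = 1 - b / a := by field_simp
    rw [e]
    nlinarith
  have h4 : a ^ (1 - θ) ≤ (a + b) ^ (1 - θ) :=
    Real.rpow_le_rpow ha.le (by linarith) (by linarith)
  have h5 : 0 ≤ θ * ((a - b) / a) * a ^ θ := by
    have : 0 ≤ a - b := by linarith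
    positivity
  calc a - b = (1 / θ) * ((θ * ((a - b) / a) * a ^ θ) * a ^ (1 - θ)) := by
        have e : a ^ θ * a ^ (1 - θ) = a := by
          rw [← Real.rpow_add ha]
          simp
        rw [mul_assoc (θ * ((a - b) / a)), e]
        field_simp
    _ ≤ (1 / θ) * ((a ^ θ - b ^ θ) * (a + b) ^ (1 - θ)) := by
        apply mul_le_mul_of_nonneg_left _ (by positivity)
        exact mul_le_mul h3 h4 (Real.rpow_nonneg ha.le _) (h5.trans h3)

lemma core3 {θ a c : ℝ} (h0 : 0 < θ) (h1 : θ < 1) (ha : 0 ≤ a) (hc : 0 ≤ c) :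
    a + c ≤ (1 / θ) * ((a ^ θ + c ^ θ) * (a + c) ^ (1 - θ)) := by
  have e : ∀ t : ℝ, 0 ≤ t → t = t ^ θ * t ^ (1 - θ) := by
    intro t ht
    rcases ht.eq_or_lt with h | h
    · rw [← h, Real.zero_rpow h0.ne', zero_mul]
    · rw [← Real.rpow_add h]
      simp
  have h2 : a ≤ a ^ θ * (a + c) ^ (1 - θ) := by
    conv_lhs => rw [e a ha]
    exact mul_le_mul_of_nonneg_left (Real.rpow_le_rpow ha (by linarith) (by linarith))
      (Real.rpow_nonneg ha _)
  have h3 : c ≤ c ^ θ * (a + c) ^ (1 - θ) := by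
    conv_lhs => rw [e c hc]
    exact mul_le_mul_of_nonneg_left (Real.rpow_le_rpow hc (by linarith) (by linarith))
      (Real.rpow_nonneg hc _)
  have h4 : 0 ≤ (a ^ θ + c ^ θ) * (a + c) ^ (1 - θ) := by positivity
  have h5 : 1 ≤ 1 / θ := by rw [le_div_iff₀ h0]; linarith
  calc a + c ≤ (a ^ θ + c ^ θ) * (a + c) ^ (1 - θ) := by rw [add_mul]; linarith
    _ = 1 * ((a ^ θ + c ^ θ) * (a + c) ^ (1 - θ)) := (one_mul _).symm
    _ ≤ _ := mul_le_mul_of_nonneg_right h5 h4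

lemma ph_sub_le {θ : ℝ} (h0 : 0 < θ) (h1 : θ ≤ 1) (a b : ℝ) :
    |ph θ a - ph θ b| ≤ 2 * |a - b| ^ θ := by
  wlog hab : b ≤ a generalizing a b
  · rw [abs_sub_comm, abs_sub_comm a b]
    exact this b a (not_le.1 hab).le
  rw [abs_of_nonneg (sub_nonneg.2 hab)]
  have hd : 0 ≤ (a - b) ^ θ := Real.rpow_nonneg (sub_nonneg.2 hab) _
  rcases le_or_gt 0 b with hb | hb
  · have ha := hb.trans hab
    rw [ph_of_nonneg hb, ph_of_nonneg ha, abs_of_nonneg
      (sub_nonneg.2 (Real.rpow_le_rpow hb hab h0.le))]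
    linarith [core1 h0 h1 hb hab]
  · rcases le_or_gt 0 a with ha | ha
    · rw [ph_of_nonneg ha, ph_of_neg hb, sub_neg_eq_add, abs_of_nonneg
        (add_nonneg (Real.rpow_nonneg ha _) (Real.rpow_nonneg (by linarith) _))]
      have e1 : a ^ θ ≤ (a - b) ^ θ := Real.rpow_le_rpow ha (by linarith) h0.le
      have e2 : (-b) ^ θ ≤ (a - b) ^ θ := Real.rpow_le_rpow (by linarith) (by linarith) h0.le
      linarith
    · rw [ph_of_neg ha, ph_of_neg hb]
      have h := core1 h0 h1 (b := -a) (a := -b) (by linarith) (by linarith)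
      have h2 : (-a) ^ θ ≤ (-b) ^ θ := Real.rpow_le_rpow (by linarith) (by linarith) h0.le
      rw [show -b - -a = a - b by ring] at h
      rw [show -(-a) ^ θ - -(-b) ^ θ = (-b) ^ θ - (-a) ^ θ by ring, abs_of_nonneg (by linarith)]
      linarith

lemma le_ph_sub {θ : ℝ} (h0 : 0 < θ) (h1 : θ < 1) (a b : ℝ) :
    |a - b| ≤ (1 / θ) * (|ph θ a - ph θ b| * (|a| + |b|) ^ (1 - θ)) := by
  wlog hab : b ≤ a generalizing a b
  · rw [abs_sub_comm, abs_sub_comm (ph θ a), add_comm]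
    exact this b a (not_le.1 hab).le
  rw [abs_of_nonneg (sub_nonneg.2 hab)]
  rcases le_or_gt 0 b with hb | hb
  · have ha := hb.trans hab
    rw [ph_of_nonneg hb, ph_of_nonneg ha, abs_of_nonneg
      (sub_nonneg.2 (Real.rpow_le_rpow hb hab h0.le)), abs_of_nonneg ha, abs_of_nonneg hb]
    exact core2 h0 h1 hb hab
  · rcases le_or_gt 0 a with ha | ha
    · rw [ph_of_nonneg ha, ph_of_neg hb, sub_neg_eq_add, abs_of_nonneg
        (add_nonneg (Real.rpow_nonneg ha _) (Real.rpow_nonneg (by linarith) _)),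
        abs_of_nonneg ha, abs_of_neg hb]
      have := core3 h0 h1 ha (c := -b) (by linarith)
      rwa [← sub_eq_add_neg] at this ⊢
    · rw [ph_of_neg ha, ph_of_neg hb, abs_of_neg ha, abs_of_neg hb]
      have h := core2 h0 h1 (b := -a) (a := -b) (by linarith) (by linarith)
      have h2 : (-a) ^ θ ≤ (-b) ^ θ := Real.rpow_le_rpow (by linarith) (by linarith) h0.le
      rw [show -(-a) ^ θ - -(-b) ^ θ = (-b) ^ θ - (-a) ^ θ by ring, abs_of_nonneg (by linarith)]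
      rw [add_comm (-a)]
      linarith

section Mazur

variable {p q : ℝ≥0∞} [hp1 : Fact (1 ≤ p)] [hq1 : Fact (1 ≤ q)] {θ : ℝ}

lemma mz_mem (hp : p ≠ ∞) (hq : q ≠ ∞) (hθ : θ * q.toReal = p.toReal)
    (x : lp (fun _ : ℕ => ℝ) p) : Memℓp (fun i => ph θ (x i)) q := by
  apply memℓp_gen
  have h := (lp.memℓp x).summable (toReal_pos hp)
  refine h.congr (fun i => ?_)
  rw [Real.norm_eq_abs, Real.norm_eq_abs, ph_abs, ← Real.rpow_mul (abs_nonneg _), hθ]

/-- Mazur map -/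
noncomputable def mz (hp : p ≠ ∞) (hq : q ≠ ∞) (hθ : θ * q.toReal = p.toReal)
    (x : lp (fun _ : ℕ => ℝ) p) : lp (fun _ : ℕ => ℝ) q :=
  ⟨fun i => ph θ (x i), mz_mem hp hq hθ x⟩

lemma mz_apply (hp : p ≠ ∞) (hq : q ≠ ∞) (hθ : θ * q.toReal = p.toReal)
    (x : lp (fun _ : ℕ => ℝ) p) (i : ℕ) : (mz hp hq hθ x) i = ph θ (x i) := rfl

lemma mz_norm (hp : p ≠ ∞) (hq : q ≠ ∞) (hθ : θ * q.toReal = p.toReal)
    (x : lp (fun _ : ℕ => ℝ) p) : ‖mz hp hq hθ x‖ = ‖x‖ ^ θ := by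
  rw [← Real.rpow_left_inj (norm_nonneg _) (Real.rpow_nonneg (norm_nonneg _) _)
    (toReal_pos hq).ne', ← Real.rpow_mul (norm_nonneg _), hθ,
    lp.norm_rpow_eq_tsum (toReal_pos hq), lp.norm_rpow_eq_tsum (toReal_pos hp)]
  refine tsum_congr (fun i => ?_)
  rw [mz_apply, Real.norm_eq_abs, Real.norm_eq_abs, ph_abs, ← Real.rpow_mul (abs_nonneg _), hθ]

lemma mz_sub_le (hp : p ≠ ∞) (hq : q ≠ ∞) (hθ : θ * q.toReal = p.toReal)
    (h0 : 0 < θ) (h1 : θ ≤ 1) (x y : lp (fun _ : ℕ => ℝ) p) :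
    ‖mz hp hq hθ x - mz hp hq hθ y‖ ≤ 2 * ‖x - y‖ ^ θ := by
  apply lp.norm_le_of_forall_sum_le (toReal_pos hq) (by positivity)
  intro s
  rw [Real.mul_rpow (by norm_num) (by positivity), ← Real.rpow_mul (norm_nonneg _), hθ]
  have h2 := lp.sum_rpow_le_norm_rpow (toReal_pos hp) (x - y) s
  calc ∑ i ∈ s, ‖(mz hp hq hθ x - mz hp hq hθ y) i‖ ^ q.toReal
      ≤ ∑ i ∈ s, 2 ^ q.toReal * ‖(x - y) i‖ ^ p.toReal := by
        refine Finset.sum_le_sum (fun i _ => ?_)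
        rw [← hθ, Real.rpow_mul (norm_nonneg _), ← Real.mul_rpow (by norm_num) (by positivity)]
        apply Real.rpow_le_rpow (norm_nonneg _) _ (toReal_pos hq).le
        exact ph_sub_le h0 h1 _ _
    _ = 2 ^ q.toReal * ∑ i ∈ s, ‖(x - y) i‖ ^ p.toReal := by rw [Finset.mul_sum]
    _ ≤ _ := by gcongr

lemma le_mz_sub (hp : p ≠ ∞) (hq : q ≠ ∞) (hθ : θ * q.toReal = p.toReal)
    (h0 : 0 < θ) (h1 : θ < 1) (x y : lp (fun _ : ℕ => ℝ) p) :
    ‖x - y‖ ≤ (1 / θ) * (‖mz hp hq hθ x - mz hp hq hθ y‖ * (‖x‖ + ‖y‖) ^ (1 - θ)) := by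
  have hpp := toReal_pos hp
  have hp1' : 1 ≤ p.toReal := by
    have := ENNReal.toReal_mono hp hp1.out
    simpa using this
  set u := mz hp hq hθ x with hu
  set v := mz hp hq hθ y with hv
  apply lp.norm_le_of_forall_sum_le hpp (by positivity)
  intro s
  have hH := Real.inner_le_Lp_mul_Lq_of_nonneg (s := s)
    (f := fun i => |u i - v i| ^ p.toReal) (g := fun i => (|x i| + |y i|) ^ ((1 - θ) * p.toReal))
    (p := 1 / θ) (q := 1 / (1 - θ))
    ⟨by simp, by positivity, by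
      have : 0 < 1 - θ := by linarith
      positivity⟩ (fun i _ => by positivity) (fun i _ => by positivity)
  have e1 : ∀ i, (|u i - v i| ^ p.toReal) ^ (1 / θ) = ‖(u - v) i‖ ^ q.toReal := by
    intro i
    rw [← Real.rpow_mul (abs_nonneg _)]
    congr 1
    rw [← hθ]
    field_simp
  have e2 : ∀ i, ((|x i| + |y i|) ^ ((1 - θ) * p.toReal)) ^ (1 / (1 - θ)) =
      |(|x i| + |y i|)| ^ p.toReal := by
    intro i
    have h3 : 1 - θ ≠ 0 := by linarith
    rw [← Real.rpow_mul (by positivity), abs_of_nonneg (by positivity : (0:ℝ) ≤ |x i| + |y i|)]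
    congr 1
    field_simp
  simp only [e1, e2] at hH
  have h3 : ∑ i ∈ s, ‖(u - v) i‖ ^ q.toReal ≤ ‖u - v‖ ^ q.toReal :=
    lp.sum_rpow_le_norm_rpow (toReal_pos hq) (u - v) s
  have h4 : ∑ i ∈ s, |(|x i| + |y i|)| ^ p.toReal ≤ (‖x‖ + ‖y‖) ^ p.toReal := by
    have hM := Real.Lp_add_le s (fun i => |x i|) (fun i => |y i|) hp1'
    have hx : ∀ z : lp (fun _ : ℕ => ℝ) p,
        (∑ i ∈ s, |(|z i|)| ^ p.toReal) ^ (1 / p.toReal) ≤ ‖z‖ := by
      intro z
      rw [one_div, Real.rpow_inv_le_iff_of_pos (Finset.sum_nonneg fun i _ => by positivity)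
        (norm_nonneg _) hpp]
      simp only [abs_abs]
      exact lp.sum_rpow_le_norm_rpow hpp z s
    have hM2 := hM.trans (add_le_add (hx x) (hx y))
    rwa [one_div, Real.rpow_inv_le_iff_of_pos (Finset.sum_nonneg fun i _ => by positivity)
        (by positivity) hpp] at hM2
  have h5 : ∀ i, ‖(x - y) i‖ ^ p.toReal ≤
      (1 / θ) ^ p.toReal * (|u i - v i| ^ p.toReal *
        (|x i| + |y i|) ^ ((1 - θ) * p.toReal)) := by
    intro i
    rw [Real.rpow_mul (by positivity), ← Real.mul_rpow (by positivity) (by positivity),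
      ← Real.mul_rpow (by positivity) (by positivity)]
    apply Real.rpow_le_rpow (norm_nonneg _) _ hpp.le
    exact le_ph_sub h0 h1 _ _
  have h6 : (∑ i ∈ s, ‖(u - v) i‖ ^ q.toReal) ^ (1 / (1 / θ)) ≤ ‖u - v‖ ^ p.toReal := by
    rw [one_div_one_div, ← hθ, mul_comm, Real.rpow_mul (norm_nonneg _)]
    exact Real.rpow_le_rpow (Finset.sum_nonneg fun i _ => by positivity) h3 h0.le
  have h7 : (∑ i ∈ s, |(|x i| + |y i|)| ^ p.toReal) ^ (1 / (1 / (1 - θ))) ≤
      ((‖x‖ + ‖y‖) ^ (1 - θ)) ^ p.toReal := by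
    rw [one_div_one_div, ← Real.rpow_mul (by positivity), mul_comm (1 - θ),
      Real.rpow_mul (by positivity)]
    exact Real.rpow_le_rpow (Finset.sum_nonneg fun i _ => by positivity) h4 (by linarith)
  rw [Real.mul_rpow (by positivity) (by positivity), Real.mul_rpow (by positivity) (by positivity)]
  calc ∑ i ∈ s, ‖(x - y) i‖ ^ p.toReal
      ≤ ∑ i ∈ s, (1 / θ) ^ p.toReal * (|u i - v i| ^ p.toReal *
        (|x i| + |y i|) ^ ((1 - θ) * p.toReal)) := Finset.sum_le_sum fun i _ => h5 i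
    _ = (1 / θ) ^ p.toReal * ∑ i ∈ s, (|u i - v i| ^ p.toReal *
        (|x i| + |y i|) ^ ((1 - θ) * p.toReal)) := by rw [Finset.mul_sum]
    _ ≤ (1 / θ) ^ p.toReal * (‖u - v‖ ^ p.toReal * ((‖x‖ + ‖y‖) ^ (1 - θ)) ^ p.toReal) := by
        apply mul_le_mul_of_nonneg_left _ (by positivity)
        refine hH.trans ?_
        exact mul_le_mul h6 h7 (Real.rpow_nonneg (Finset.sum_nonneg fun i _ => by positivity) _)
          (by positivity)

end Mazur

end Pool.H621R3.WS
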