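import Pool.Agent.H621R3.WS2

set_option autoImplicit false
open Filter Topology
open scoped ENNReal

namespace Pool.H621R3.WS

/-- exponents of the components, decreasing to `4` -/
noncomputable def q (n : ℕ) : ℝ≥0∞ := ENNReal.ofReal (4 * (n + 2) / (n + 1))

noncomputable def th (n : ℕ) : ℝ := (n + 1) / (n + 2)

lemma q_real (n : ℕ) : (q n).toReal = 4 * (n + 2) / (n + 1) :=
  ENNReal.toReal_ofReal (by positivity)

lemma q_top (n : ℕ) : q n ≠ ∞ := ENNReal.ofReal_ne_top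

lemma q_gt (n : ℕ) : 4 < (q n).toReal := by
  rw [q_real, lt_div_iff₀ (by positivity)]
  linarith

instance q_fact (n : ℕ) : Fact (1 ≤ q n) := ⟨by
  rw [q, ENNReal.one_le_ofReal, le_div_iff₀ (by positivity)]
  have : (0 : ℝ) ≤ n := Nat.cast_nonneg n
  linarith⟩

instance four_fact : Fact ((1 : ℝ≥0∞) ≤ 4) := ⟨by norm_num⟩

lemma four_top : (4 : ℝ≥0∞) ≠ ∞ := by norm_num

lemma four_real : (4 : ℝ≥0∞).toReal = 4 := by norm_num

lemma th_pos (n : ℕ) : 0 < th n := by unfold th; positivity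

lemma th_lt (n : ℕ) : th n < 1 := by
  unfold th
  rw [div_lt_one (by positivity)]
  linarith

lemma th_q (n : ℕ) : th n * (q n).toReal = (4 : ℝ≥0∞).toReal := by
  rw [q_real, four_real, th]
  field_simp

lemma one_sub_th (n : ℕ) : 1 - th n = 1 / (n + 2) := by
  unfold th
  field_simp
  ring

noncomputable abbrev XX : Type := ↥(lp (fun _ : ℕ => ℝ) 4)

noncomputable abbrev CC (n : ℕ) : Type := ↥(lp (fun _ : ℕ => ℝ) (q n))

noncomputable abbrev YY : Type := ↥(lp CC 2)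

noncomputable def rho (n : ℕ) (r : ℝ) : ℝ :=
  max 0 (min 1 (min (2 * r / 2 ^ n - 1) (2 - r / 2 ^ (n + 1))))

lemma rho_nonneg (n : ℕ) (r : ℝ) : 0 ≤ rho n r := le_max_left _ _

lemma rho_le_one (n : ℕ) (r : ℝ) : rho n r ≤ 1 := max_le zero_le_one (min_le_left _ _)

lemma rho_one (n : ℕ) (r : ℝ) (h1 : 2 ^ n ≤ r) (h2 : r ≤ 2 ^ (n + 1)) : rho n r = 1 := by
  have hp : (0 : ℝ) < 2 ^ n := by positivity
  have e1 : 1 ≤ r / 2 ^ n := by rwa [le_div_iff₀ hp, one_mul]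
  have e2 : r / 2 ^ (n + 1) ≤ 1 := by rwa [div_le_one (by positivity)]
  have e3 : 1 ≤ 2 * r / 2 ^ n - 1 := by rw [mul_div_assoc]; linarith
  have e4 : 1 ≤ 2 - r / 2 ^ (n + 1) := by linarith
  rw [rho, min_eq_left (le_min e3 e4), max_eq_right zero_le_one]

lemma rho_zero_left (n : ℕ) (r : ℝ) (h : 2 * r ≤ 2 ^ n) : rho n r = 0 := by
  have hp : (0 : ℝ) < 2 ^ n := by positivity
  have e1 : 2 * r / 2 ^ n ≤ 1 := by rwa [div_le_one hp]
  rw [rho, max_eq_left]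
  exact (min_le_right _ _).trans ((min_le_left _ _).trans (by linarith))

lemma rho_zero_right (n : ℕ) (r : ℝ) (h : 2 ^ (n + 2) ≤ r) : rho n r = 0 := by
  have e1 : 2 ≤ r / 2 ^ (n + 1) := by
    rw [le_div_iff₀ (by positivity)]
    calc (2 : ℝ) * 2 ^ (n + 1) = 2 ^ (n + 2) := by ring
      _ ≤ r := h
  rw [rho, max_eq_left]
  exact (min_le_right _ _).trans ((min_le_right _ _).trans (by linarith))

lemma rho_lip (n : ℕ) (r t : ℝ) : |rho n r - rho n t| ≤ 2 / 2 ^ n * |r - t| := by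
  have hp : (0 : ℝ) < 2 ^ n := by positivity
  unfold rho
  have h0 : (0 : ℝ) ≤ 2 / 2 ^ n * |r - t| := by positivity
  refine (abs_max_sub_max_le_max _ _ _ _).trans (max_le (by simp [h0]) ?_)
  refine (abs_min_sub_min_le_max _ _ _ _).trans (max_le (by simp [h0]) ?_)
  refine (abs_min_sub_min_le_max _ _ _ _).trans (max_le ?_ ?_)
  · rw [show 2 * r / 2 ^ n - 1 - (2 * t / 2 ^ n - 1) = 2 / 2 ^ n * (r - t) by ring, abs_mul,
      abs_of_nonneg (by positivity : (0 : ℝ) ≤ 2 / 2 ^ n)]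
  · rw [show 2 - r / 2 ^ (n + 1) - (2 - t / 2 ^ (n + 1)) = -(1 / 2 ^ (n + 1) * (r - t)) by ring,
      abs_neg, abs_mul, abs_of_nonneg (by positivity : (0 : ℝ) ≤ 1 / 2 ^ (n + 1))]
    apply mul_le_mul_of_nonneg_right _ (abs_nonneg _)
    rw [div_le_div_iff₀ (by positivity) hp, pow_succ]
    linarith

lemma rho_supp (r : ℝ) : ∃ k : ℕ, ∀ n, rho n r ≠ 0 → k ≤ n ∧ n ≤ k + 2 := by
  classical
  have hex : ∃ k : ℕ, r < 2 ^ (k + 2) := by
    obtain ⟨k, hk⟩ := pow_unbounded_of_one_lt r (one_lt_two)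
    exact ⟨k, hk.trans_le (pow_le_pow_right₀ one_le_two (by omega))⟩
  refine ⟨Nat.find hex, fun n hn => ?_⟩
  have h1 : r < 2 ^ (n + 2) := by
    by_contra h
    exact hn (rho_zero_right n r (not_lt.1 h))
  have h2 : (2 : ℝ) ^ n < 2 * r := by
    by_contra h
    exact hn (rho_zero_left n r (not_lt.1 h))
  have h3 := Nat.find_spec hex
  refine ⟨Nat.find_min' hex h1, ?_⟩
  have h4 : (2 : ℝ) ^ n < 2 ^ (Nat.find hex + 3) := by
    calc (2 : ℝ) ^ n < 2 * r := h2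
      _ < 2 * 2 ^ (Nat.find hex + 2) := by linarith
      _ = 2 ^ (Nat.find hex + 3) := by ring
  have := (pow_lt_pow_iff_right₀ (one_lt_two : (1 : ℝ) < 2)).1 h4
  omega

/-- the Mazur map into the `n`-th component -/
noncomputable def MM (n : ℕ) (x : XX) : CC n := mz four_top (q_top n) (th_q n) x

lemma MM_norm (n : ℕ) (x : XX) : ‖MM n x‖ = ‖x‖ ^ th n := mz_norm _ _ _ _

lemma MM_norm_le (n : ℕ) (x : XX) {R : ℝ} (hR : 1 ≤ R) (hx : ‖x‖ ≤ R) : ‖MM n x‖ ≤ R := by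
  rw [MM_norm]
  calc ‖x‖ ^ th n ≤ R ^ th n := Real.rpow_le_rpow (norm_nonneg _) hx (th_pos n).le
    _ ≤ R ^ (1 : ℝ) := Real.rpow_le_rpow_of_exponent_le hR (th_lt n).le
    _ = R := Real.rpow_one R

lemma MM_sub_le (n : ℕ) (x y : XX) : ‖MM n x - MM n y‖ ≤ 2 * (‖x - y‖ + 1) := by
  refine (mz_sub_le four_top (q_top n) (th_q n) (th_pos n) (th_lt n).le x y).trans ?_
  have h0 := norm_nonneg (x - y)
  have : ‖x - y‖ ^ th n ≤ ‖x - y‖ + 1 := by
    calc ‖x - y‖ ^ th n ≤ (‖x - y‖ + 1) ^ th n :=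
          Real.rpow_le_rpow h0 (by linarith) (th_pos n).le
      _ ≤ (‖x - y‖ + 1) ^ (1 : ℝ) :=
          Real.rpow_le_rpow_of_exponent_le (by linarith) (th_lt n).le
      _ = _ := Real.rpow_one _
  linarith

lemma le_MM_sub (n : ℕ) (x y : XX) (h : ‖x‖ + ‖y‖ ≤ 2 ^ (n + 2)) :
    ‖x - y‖ ≤ 4 * ‖MM n x - MM n y‖ := by
  refine (le_mz_sub four_top (q_top n) (th_q n) (th_pos n) (th_lt n) x y).trans ?_
  have h1 : 1 / th n ≤ 2 := by
    unfold th
    rw [one_div_div, div_le_iff₀ (by positivity)]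
    have : (0 : ℝ) ≤ n := Nat.cast_nonneg n
    linarith
  have h2 : (‖x‖ + ‖y‖) ^ (1 - th n) ≤ 2 := by
    rw [one_sub_th]
    calc (‖x‖ + ‖y‖) ^ (1 / ((n : ℝ) + 2)) ≤ ((2 : ℝ) ^ (n + 2)) ^ (1 / ((n : ℝ) + 2)) :=
          Real.rpow_le_rpow (by positivity) h (by positivity)
      _ = 2 := by
        rw [← Real.rpow_natCast, ← Real.rpow_mul (by norm_num)]
        push_cast
        rw [mul_one_div_cancel (by positivity), Real.rpow_one]
  have h3 : 0 ≤ ‖MM n x - MM n y‖ := norm_nonneg _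
  have h4 : 0 ≤ 1 / th n := (one_div_pos.2 (th_pos n)).le
  change 1 / th n * (‖MM n x - MM n y‖ * (‖x‖ + ‖y‖) ^ (1 - th n)) ≤ _
  calc 1 / th n * (‖MM n x - MM n y‖ * (‖x‖ + ‖y‖) ^ (1 - th n))
      ≤ 2 * (‖MM n x - MM n y‖ * 2) := by gcongr
    _ = _ := by ring

noncomputable def Fc (x : XX) : ∀ n, CC n
  | 0 => lp.single (q 0) 0 ‖x‖
  | (n + 1) => rho n ‖x‖ • MM (n + 1) x

lemma Fc_mem (x : XX) : Memℓp (Fc x) 2 := by
  obtain ⟨k, hk⟩ := rho_supp ‖x‖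
  have h0 : Memℓp (Fc x) 0 := by
    apply memℓp_zero
    refine (Set.finite_Iic (k + 3)).subset (fun n hn => ?_)
    rw [Set.mem_ofPred_eq] at hn
    rw [Set.mem_Iic]
    cases n with
    | zero => omega
    | succ n =>
      have h1 : rho n ‖x‖ ≠ 0 := by
        intro h
        apply hn
        simp [Fc, h]
      have := (hk n h1).2
      omega
  exact h0.of_exponent_ge zero_le

noncomputable def F (x : XX) : YY := ⟨Fc x, Fc_mem x⟩

lemma F_zero (x : XX) : (F x) 0 = lp.single (q 0) 0 ‖x‖ := rfl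

lemma F_succ (x : XX) (n : ℕ) : (F x) (n + 1) = rho n ‖x‖ • MM (n + 1) x := rfl

lemma comp_zero (x y : XX) : ‖(F x - F y) 0‖ = |‖x‖ - ‖y‖| := by
  rw [lp.coeFn_sub, Pi.sub_apply, F_zero, F_zero, ← lp.single_sub,
    lp.norm_single (zero_lt_one.trans_le (q_fact 0).out), Real.norm_eq_abs]

lemma comp_succ (x y : XX) (n : ℕ) : ‖(F x - F y) (n + 1)‖ ≤ 18 * ‖x - y‖ + 2 := by
  wlog hab : ‖y‖ ≤ ‖x‖ generalizing x y
  · have := this y x (not_le.1 hab).le
    rw [norm_sub_rev y x] at this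
    rw [← neg_sub (F y) (F x), lp.coeFn_neg, Pi.neg_apply, norm_neg]
    exact this
  rw [lp.coeFn_sub, Pi.sub_apply, F_succ, F_succ]
  have h0 := norm_nonneg (x - y)
  rcases le_or_gt ‖y‖ (2 ^ (n + 3)) with hy | hy
  · have e : rho n ‖x‖ • MM (n + 1) x - rho n ‖y‖ • MM (n + 1) y =
        rho n ‖x‖ • (MM (n + 1) x - MM (n + 1) y) +
          (rho n ‖x‖ - rho n ‖y‖) • MM (n + 1) y := by
      rw [smul_sub, sub_smul]; abel
    rw [e]
    refine (norm_add_le _ _).trans ?_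
    rw [norm_smul, norm_smul, Real.norm_eq_abs, Real.norm_eq_abs, abs_of_nonneg (rho_nonneg _ _)]
    have h1 := MM_sub_le (n + 1) x y
    have h2 : ‖MM (n + 1) y‖ ≤ 2 ^ (n + 3) := MM_norm_le _ _ (one_le_pow₀ one_le_two) hy
    have h3 := rho_lip n ‖x‖ ‖y‖
    have h4 : |‖x‖ - ‖y‖| ≤ ‖x - y‖ := abs_norm_sub_norm_le x y
    have h5 : rho n ‖x‖ * ‖MM (n + 1) x - MM (n + 1) y‖ ≤ 1 * (2 * (‖x - y‖ + 1)) :=
      mul_le_mul (rho_le_one _ _) h1 (norm_nonneg _) zero_le_one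
    have h6 : |rho n ‖x‖ - rho n ‖y‖| * ‖MM (n + 1) y‖ ≤
        (2 / 2 ^ n * ‖x - y‖) * 2 ^ (n + 3) := by
      apply mul_le_mul _ h2 (norm_nonneg _) (by positivity)
      refine h3.trans ?_
      gcongr
    have h7 : (2 / 2 ^ n * ‖x - y‖) * 2 ^ (n + 3) = 16 * ‖x - y‖ := by
      have : (2 : ℝ) ^ n ≠ 0 := by positivity
      rw [pow_add]
      field_simp
      ring
    linarith
  · have h1 : rho n ‖y‖ = 0 := rho_zero_right _ _ (le_trans
      (pow_le_pow_right₀ one_le_two (by omega)) hy.le)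
    have h2 : rho n ‖x‖ = 0 := rho_zero_right _ _ (le_trans
      (pow_le_pow_right₀ one_le_two (by omega)) (hy.le.trans hab))
    rw [h1, h2, zero_smul, zero_smul, sub_zero, norm_zero]
    positivity

lemma two_top : (2 : ℝ≥0∞) ≠ ∞ := by norm_num

lemma norm_le_sum (z : YY) (A : Finset ℕ) (h : ∀ n, n ∉ A → z n = 0) :
    ‖z‖ ≤ ∑ n ∈ A, ‖z n‖ := by
  have e : z = T CC 2 A z := by
    apply lp.ext
    funext n
    rw [T_coe]
    by_cases hn : n ∈ A
    · simp [hn]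
    · simp [hn, h n hn]
  conv_lhs => rw [e, T_apply]
  refine (norm_sum_le _ _).trans (Finset.sum_le_sum fun n _ => ?_)
  rw [lp.norm_single (by norm_num)]

lemma F_upper (x y : XX) : ‖F x - F y‖ ≤ 126 * ‖x - y‖ + 14 := by
  obtain ⟨k, hk⟩ := rho_supp ‖x‖
  obtain ⟨l, hl⟩ := rho_supp ‖y‖
  set A : Finset ℕ := {0} ∪ (Finset.Icc (k + 1) (k + 3) ∪ Finset.Icc (l + 1) (l + 3)) with hA
  have hA0 : ∀ n, n ∉ A → (F x - F y) n = 0 := by
    intro n hn
    cases n with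
    | zero => exact absurd (by simp [hA]) hn
    | succ n =>
      have hx : rho n ‖x‖ = 0 := by
        by_contra h
        have := hk n h
        apply hn
        simp only [hA, Finset.mem_union, Finset.mem_Icc]
        omega
      have hy : rho n ‖y‖ = 0 := by
        by_contra h
        have := hl n h
        apply hn
        simp only [hA, Finset.mem_union, Finset.mem_Icc]
        omega
      rw [lp.coeFn_sub, Pi.sub_apply, F_succ, F_succ, hx, hy, zero_smul, zero_smul, sub_zero]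
  have hcard : A.card ≤ 7 := by
    refine (Finset.card_union_le _ _).trans ?_
    have := Finset.card_union_le (Finset.Icc (k + 1) (k + 3)) (Finset.Icc (l + 1) (l + 3))
    simp only [Nat.card_Icc, Finset.card_singleton] at this ⊢
    omega
  have hterm : ∀ n ∈ A, ‖(F x - F y) n‖ ≤ 18 * ‖x - y‖ + 2 := by
    intro n _
    cases n with
    | zero =>
      rw [comp_zero]
      have := abs_norm_sub_norm_le x y
      have := norm_nonneg (x - y)
      linarith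
    | succ n => exact comp_succ x y n
  refine (norm_le_sum _ A hA0).trans ((Finset.sum_le_card_nsmul _ _ _ hterm).trans ?_)
  rw [nsmul_eq_mul]
  have h1 : (A.card : ℝ) ≤ 7 := by exact_mod_cast hcard
  have h2 := norm_nonneg (x - y)
  nlinarith

lemma F_lower (x y : XX) : 1 / 20 * ‖x - y‖ - 1 ≤ ‖F x - F y‖ := by
  wlog hab : ‖y‖ ≤ ‖x‖ generalizing x y
  · have := this y x (not_le.1 hab).le
    rwa [norm_sub_rev y x, norm_sub_rev (F y)] at this
  have hF0 := norm_nonneg (F x - F y)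
  rcases lt_or_ge ‖x‖ 1 with hx | hx
  · have := norm_sub_le x y
    linarith
  obtain ⟨n, hn1, hn2⟩ := exists_nat_pow_near hx (one_lt_two)
  have h0 : |‖x‖ - ‖y‖| ≤ ‖F x - F y‖ := by
    rw [← comp_zero]
    exact lp.norm_apply_le_norm (by norm_num) _ _
  rw [abs_of_nonneg (sub_nonneg.2 hab)] at h0
  have h1 : ‖(F x - F y) (n + 1)‖ ≤ ‖F x - F y‖ := lp.norm_apply_le_norm (by norm_num) _ _
  rw [lp.coeFn_sub, Pi.sub_apply, F_succ, F_succ, rho_one n ‖x‖ hn1 hn2.le, one_smul] at h1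
  have e : MM (n + 1) x - MM (n + 1) y =
      (MM (n + 1) x - rho n ‖y‖ • MM (n + 1) y) -
        (rho n ‖x‖ - rho n ‖y‖) • MM (n + 1) y := by
    rw [rho_one n ‖x‖ hn1 hn2.le, sub_smul, one_smul]; abel
  have h2 : ‖MM (n + 1) x - MM (n + 1) y‖ ≤ ‖F x - F y‖ +
      |rho n ‖x‖ - rho n ‖y‖| * ‖MM (n + 1) y‖ := by
    rw [e]
    refine (norm_sub_le _ _).trans ?_
    rw [norm_smul, Real.norm_eq_abs]
    linarith
  have h3 : ‖MM (n + 1) y‖ ≤ 2 ^ (n + 1) :=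
    MM_norm_le _ _ (one_le_pow₀ one_le_two) (hab.trans hn2.le)
  have h4 := rho_lip n ‖x‖ ‖y‖
  rw [abs_of_nonneg (sub_nonneg.2 hab)] at h4
  have h5 : |rho n ‖x‖ - rho n ‖y‖| * ‖MM (n + 1) y‖ ≤
      (2 / 2 ^ n * (‖x‖ - ‖y‖)) * 2 ^ (n + 1) := by
    apply mul_le_mul h4 h3 (norm_nonneg _)
    have := sub_nonneg.2 hab
    positivity
  have h6 : (2 / 2 ^ n * (‖x‖ - ‖y‖)) * 2 ^ (n + 1) = 4 * (‖x‖ - ‖y‖) := by
    have : (2 : ℝ) ^ n ≠ 0 := by positivity
    rw [pow_succ]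
    field_simp
    ring
  have h7 : ‖x - y‖ ≤ 4 * ‖MM (n + 1) x - MM (n + 1) y‖ := by
    apply le_MM_sub
    calc ‖x‖ + ‖y‖ ≤ 2 * 2 ^ (n + 1) := by linarith
      _ = 2 ^ (n + 2) := by ring
      _ ≤ 2 ^ (n + 1 + 2) := pow_le_pow_right₀ one_le_two (by omega)
  linarith

end Pool.H621R3.WS
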