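import Pool.Agent.H621R3.WS3

set_option autoImplicit false
open Filter Topology
open scoped ENNReal

namespace Pool.H621R3.WS

lemma smooth {q : ℝ≥0∞} [Fact (1 ≤ q)] (hq : q ≠ ∞) {B : ℝ} (v : lp (fun _ : ℕ => ℝ) q)
    (y : ℕ → lp (fun _ : ℕ => ℝ) q) (hB : ∀ j, ‖y j‖ ≤ B)
    (hy : ∀ i, Tendsto (fun j => (y j) i) atTop (𝓝 0)) :
    ∀ᶠ j in atTop, ‖v + y j‖ ^ q.toReal ≤
      ‖v‖ ^ q.toReal + ((B + 1) ^ q.toReal + 1) := by
  have hr := toReal_pos hq
  have hB0 : 0 ≤ B := (norm_nonneg _).trans (hB 0)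
  obtain ⟨δ, hδ0, hδ1, hδ⟩ : ∃ δ : ℝ, 0 < δ ∧ δ ≤ 1 ∧
      (‖v‖ + δ) ^ q.toReal ≤ ‖v‖ ^ q.toReal + 1 := by
    have hcont : Continuous (fun t : ℝ => (‖v‖ + t) ^ q.toReal) :=
      (continuous_const.add continuous_id).rpow_const (fun _ => Or.inr hr.le)
    have h1 := hcont.tendsto 0
    simp only [add_zero] at h1
    have h2 := h1.eventually (gt_mem_nhds (show ‖v‖ ^ q.toReal < ‖v‖ ^ q.toReal + 1 by linarith))
    rw [Metric.eventually_nhds_iff] at h2
    obtain ⟨ε, hε, h3⟩ := h2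
    refine ⟨min 1 (ε / 2), by positivity, min_le_left _ _, (h3 ?_).le⟩
    rw [Real.dist_eq, sub_zero, abs_of_nonneg (by positivity)]
    have := min_le_right 1 (ε / 2)
    linarith
  have hT := T_tendsto hq v
  rw [Metric.tendsto_atTop] at hT
  obtain ⟨s, hs⟩ := hT δ hδ0
  have hs' : ‖v - T (fun _ : ℕ => ℝ) q s v‖ ≤ δ := by
    have := hs s le_rfl
    rw [dist_comm, dist_eq_norm] at this
    exact this.le
  have hlim : Tendsto (fun j => ∑ i ∈ s, |(y j) i|) atTop (𝓝 0) := by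
    have : Tendsto (fun j => ∑ i ∈ s, |(y j) i|) atTop (𝓝 (∑ i ∈ s, 0)) := by
      apply tendsto_finsetSum
      intro i _
      simpa using (hy i).abs
    simpa using this
  filter_upwards [hlim.eventually (gt_mem_nhds hδ0)] with j hj
  have h1 : ‖T (fun _ : ℕ => ℝ) q s (y j)‖ ≤ δ := by
    rw [T_apply]
    refine (norm_sum_le _ _).trans (le_trans (Finset.sum_le_sum fun i _ => ?_) hj.le)
    rw [lp.norm_single (zero_lt_one.trans_le Fact.out), Real.norm_eq_abs]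
  rw [T_split hq s (v + y j)]
  have h2 : ‖T (fun _ : ℕ => ℝ) q s (v + y j)‖ ≤ ‖v‖ + δ := by
    rw [map_add]
    exact (norm_add_le _ _).trans (add_le_add (T_le hq _ _) h1)
  have h3 : ‖v + y j - T (fun _ : ℕ => ℝ) q s (v + y j)‖ ≤ B + 1 := by
    rw [map_add, add_sub_add_comm]
    refine (norm_add_le _ _).trans ?_
    have := (Tc_le hq s (y j)).trans (hB j)
    linarith
  have h4 := Real.rpow_le_rpow (norm_nonneg _) h2 hr.le
  have h5 := Real.rpow_le_rpow (norm_nonneg _) h3 hr.le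
  linarith

/-- sums of unit vectors -/
noncomputable def HH (S : Finset ℕ) : XX := ∑ i ∈ S, lp.single 4 i (1 : ℝ)

lemma HH_pow (S : Finset ℕ) : ‖HH S‖ ^ 4 = S.card := by
  have h := lp.norm_sum_single (p := 4) (E := fun _ : ℕ => ℝ) (by norm_num)
    (fun _ => (1 : ℝ)) S
  have e : ((4 : ℝ≥0∞).toReal) = ((4 : ℕ) : ℝ) := by norm_num
  rw [e, Real.rpow_natCast] at h
  rw [HH, h]
  simp

lemma HH_norm (S : Finset ℕ) : ‖HH S‖ = (S.card : ℝ) ^ (1 / 4 : ℝ) := by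
  rw [← HH_pow, ← Real.rpow_natCast, ← Real.rpow_mul (norm_nonneg _)]
  norm_num

lemma HH_trunc (S S₀ : Finset ℕ) (h : Disjoint S₀ S) : T (fun _ : ℕ => ℝ) 4 S₀ (HH S) = 0 := by
  apply lp.ext
  funext i
  rw [T_coe]
  by_cases hi : i ∈ S₀
  · have h2 : i ∉ S := Finset.disjoint_left.1 h hi
    rw [if_pos hi, HH]
    simp only [lp.coeFn_sum, lp.coeFn_single, Finset.sum_apply, Finset.sum_pi_single]
    simp [h2]
  · simp [hi]

lemma HH_fix (S : Finset ℕ) : T (fun _ : ℕ => ℝ) 4 S (HH S) = HH S := by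
  apply lp.ext
  funext i
  rw [T_coe]
  by_cases hi : i ∈ S
  · simp [hi]
  · rw [if_neg hi, HH]
    simp only [lp.coeFn_sum, lp.coeFn_single, Finset.sum_apply, Finset.sum_pi_single]
    simp [hi]

lemma split2 (s : Finset ℕ) (z : YY) : ‖z‖ ^ 2 = ‖T CC 2 s z‖ ^ 2 + ‖z - T CC 2 s z‖ ^ 2 := by
  have h := T_split (E := CC) (p := 2) two_top s z
  have e : ((2 : ℝ≥0∞).toReal) = ((2 : ℕ) : ℝ) := by norm_num
  rw [e, Real.rpow_natCast, Real.rpow_natCast, Real.rpow_natCast] at h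
  exact h

lemma add4 (s : Finset ℕ) (x w : XX) (hx : T (fun _ : ℕ => ℝ) 4 s x = x)
    (hw : T (fun _ : ℕ => ℝ) 4 s w = 0) : ‖x + w‖ ^ 4 = ‖x‖ ^ 4 + ‖w‖ ^ 4 := by
  have h := T_add (E := fun _ : ℕ => ℝ) (p := 4) four_top s x w hx hw
  have e : ((4 : ℝ≥0∞).toReal) = ((4 : ℕ) : ℝ) := by norm_num
  rw [e, Real.rpow_natCast, Real.rpow_natCast, Real.rpow_natCast] at h
  exact h

/-- sums of `N` unit vectors, tending to infinity, are weakly null -/
lemma HH_weak (N : ℕ) (S : ℕ → Finset ℕ) (hc : ∀ J, (S J).card = N) (hS : ∀ J, ∀ i ∈ S J, J ≤ i)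
    (g : XX →L[ℝ] ℝ) : Tendsto (fun J => g (HH (S J))) atTop (𝓝 0) := by
  have h1 := unit_weak (p := 4) four_top (by norm_num) g 1
  rw [Metric.tendsto_atTop] at h1 ⊢
  intro ε hε
  obtain ⟨J₀, hJ⟩ := h1 (ε / (N + 1)) (by positivity)
  refine ⟨J₀, fun J hJJ => ?_⟩
  rw [Real.dist_eq, sub_zero, HH, map_sum]
  refine lt_of_le_of_lt (Finset.abs_sum_le_sum_abs _ _) ?_
  have h2 : ∀ i ∈ S J, |g (lp.single 4 i (1 : ℝ))| ≤ ε / (N + 1) := by
    intro i hi
    have := hJ i (hJJ.trans (hS J i hi))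
    rw [Real.dist_eq, sub_zero] at this
    exact this.le
  refine lt_of_le_of_lt (Finset.sum_le_card_nsmul _ _ _ h2) ?_
  rw [hc, nsmul_eq_mul, mul_div_assoc', div_lt_iff₀ (by positivity)]
  nlinarith

section Main

variable (f : XX → YY) (a b c : ℝ) (ha : 0 < a) (hb : 0 < b) (hc : 0 ≤ c)
  (hf : ∀ x x' : XX, a * ‖x - x'‖ - c ≤ ‖f x - f x'‖ ∧ ‖f x - f x'‖ ≤ b * ‖x - x'‖ + c)
  (W : ∀ (u : ℕ → XX) (x : XX),
    (∀ φ : XX →L[ℝ] ℝ, Tendsto (fun n => φ (u n)) atTop (𝓝 (φ x))) →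
    ∀ ψ : YY →L[ℝ] ℝ, Tendsto (fun n => ψ (f (u n))) atTop (𝓝 (ψ (f x))))

include hf W in
lemma steps (A : Finset ℕ) (x : XX) (J N : ℕ) : ∃ S : Finset ℕ, S.card = N ∧
    (∀ i ∈ S, J ≤ i) ∧ ∀ n ∈ A, ‖(f (x + HH S) - f x) n‖ ^ (q n).toReal ≤
      N * ((b + c + 1) ^ (q n).toReal + 1) := by
  induction N with
  | zero =>
    refine ⟨∅, rfl, by simp, fun n _ => ?_⟩
    have : (f (x + HH ∅) - f x) n = 0 := by simp [HH]
    rw [this, norm_zero, Real.zero_rpow (toReal_pos (q_top n)).ne']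
    simp
  | succ N ih =>
    obtain ⟨S, hS1, hS2, hS3⟩ := ih
    set z := x + HH S with hz
    have hW := W (fun j => z + lp.single 4 j (1 : ℝ)) z (fun φ => by
      have := unit_weak (p := 4) four_top (by norm_num) φ 1
      simpa using this.const_add (φ z))
    have hB : ∀ n j, ‖(f (z + lp.single 4 j (1 : ℝ)) - f z) n‖ ≤ b + c := by
      intro n j
      refine (lp.norm_apply_le_norm (by norm_num) _ _).trans ((hf _ _).2.trans ?_)
      rw [add_sub_cancel_left, lp.norm_single (by norm_num)]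
      simp
    have hev : ∀ᶠ j in atTop, ∀ n ∈ A,
        ‖(f z - f x) n + (f (z + lp.single 4 j (1 : ℝ)) - f z) n‖ ^ (q n).toReal ≤
          ‖(f z - f x) n‖ ^ (q n).toReal + ((b + c + 1) ^ (q n).toReal + 1) := by
      rw [Filter.eventually_all_finset]
      intro n _
      refine smooth (q_top n) _ _ (hB n) (fun i => ?_)
      have := hW ((lp.evalCLM ℝ (fun _ : ℕ => ℝ) (q n) i).comp (lp.evalCLM ℝ CC 2 n))
      have h2 := this.sub_const (((lp.evalCLM ℝ (fun _ : ℕ => ℝ) (q n) i).comp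
        (lp.evalCLM ℝ CC 2 n)) (f z))
      rw [sub_self] at h2
      exact h2
    obtain ⟨j, hj1, hj2⟩ := (hev.and (eventually_ge_atTop (max J (S.sup id + 1)))).exists
    have hjS : j ∉ S := by
      intro h
      have := Finset.le_sup (f := id) h
      simp only [id] at this
      have := le_of_max_le_right hj2
      omega
    refine ⟨insert j S, by rw [Finset.card_insert_of_notMem hjS, hS1], ?_, fun n hn => ?_⟩
    · intro i hi
      rcases Finset.mem_insert.1 hi with h | h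
      · rw [h]; exact le_of_max_le_left hj2
      · exact hS2 i h
    · have e : x + HH (insert j S) = z + lp.single 4 j (1 : ℝ) := by
        rw [HH, Finset.sum_insert hjS, hz, HH]
        abel
      have e2 : (f (x + HH (insert j S)) - f x) n =
          (f z - f x) n + (f (z + lp.single 4 j (1 : ℝ)) - f z) n := by
        rw [e, lp.coeFn_sub, lp.coeFn_sub, lp.coeFn_sub, Pi.sub_apply, Pi.sub_apply, Pi.sub_apply]
        abel
      rw [e2]
      refine (hj1 n hn).trans ?_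
      have := hS3 n hn
      rw [Nat.cast_add, Nat.cast_one]
      linarith

include ha hb hc hf W in
/-- far-out vectors whose increment is mostly outside the components in `A` -/
lemma far (A : Finset ℕ) : ∃ N : ℕ, 1 ≤ N ∧ ∀ (x : XX) (J : ℕ), ∃ S : Finset ℕ, S.card = N ∧
    (∀ i ∈ S, J ≤ i) ∧ a / 2 * (N : ℝ) ^ (1 / 4 : ℝ) ≤
      ‖(f (x + HH S) - f x) - T CC 2 A (f (x + HH S) - f x)‖ := by
  have hev1 : ∀ᶠ N : ℕ in atTop, ∀ n ∈ A,
      ((b + c + 1) ^ (q n).toReal + 1) ^ (1 / (q n).toReal) * (N : ℝ) ^ (1 / (q n).toReal) + 0 ≤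
        a / (4 * (A.card + 1)) * (N : ℝ) ^ (1 / 4 : ℝ) := by
    rw [Filter.eventually_all_finset]
    intro n _
    apply ev_pow (by positivity) _ (by norm_num)
    have := q_gt n
    exact one_div_lt_one_div_of_lt (by norm_num) this
  have hev2 : ∀ᶠ N : ℕ in atTop, 0 * (N : ℝ) ^ (0 : ℝ) + c ≤ a / 4 * (N : ℝ) ^ (1 / 4 : ℝ) :=
    ev_pow (by positivity) (by norm_num) (by norm_num) _ _
  obtain ⟨N, ⟨hN1, hN2⟩, hN3⟩ := ((hev1.and hev2).and (eventually_ge_atTop 1)).exists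
  refine ⟨N, hN3, fun x J => ?_⟩
  obtain ⟨S, hS1, hS2, hS3⟩ := steps f a b c hf W A x J N
  refine ⟨S, hS1, hS2, ?_⟩
  set Δ := f (x + HH S) - f x with hΔ
  have h1 : a * (N : ℝ) ^ (1 / 4 : ℝ) - c ≤ ‖Δ‖ := by
    have := (hf (x + HH S) x).1
    rwa [add_sub_cancel_left, HH_norm, hS1] at this
  have h2 : ‖T CC 2 A Δ‖ ≤ a / 4 * (N : ℝ) ^ (1 / 4 : ℝ) := by
    have h3 : ‖T CC 2 A Δ‖ ≤ ∑ n ∈ A, ‖Δ n‖ := by
      rw [T_apply]
      refine (norm_sum_le _ _).trans (Finset.sum_le_sum fun n _ => ?_)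
      rw [lp.norm_single (by norm_num)]
    have h4 : ∀ n ∈ A, ‖Δ n‖ ≤ a / (4 * (A.card + 1)) * (N : ℝ) ^ (1 / 4 : ℝ) := by
      intro n hn
      have h5 := hS3 n hn
      have h6 := hN1 n hn
      have hq := toReal_pos (q_top n)
      have h7 : ‖Δ n‖ ≤ (N * ((b + c + 1) ^ (q n).toReal + 1)) ^ (1 / (q n).toReal) := by
        rw [one_div, Real.le_rpow_inv_iff_of_pos (norm_nonneg _) (by positivity) hq]
        exact h5
      rw [Real.mul_rpow (by positivity) (by positivity)] at h7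
      linarith
    refine h3.trans ((Finset.sum_le_card_nsmul _ _ _ h4).trans ?_)
    rw [nsmul_eq_mul]
    have h8 : (A.card : ℝ) * (a / (4 * (A.card + 1)) * (N : ℝ) ^ (1 / 4 : ℝ)) =
        (A.card / (A.card + 1)) * (a / 4 * (N : ℝ) ^ (1 / 4 : ℝ)) := by
      field_simp
    rw [h8]
    apply mul_le_of_le_one_left (by positivity)
    rw [div_le_one (by positivity)]
    linarith
  have h9 : ‖Δ‖ ≤ ‖T CC 2 A Δ‖ + ‖Δ - T CC 2 A Δ‖ := by
    have := norm_add_le (T CC 2 A Δ) (Δ - T CC 2 A Δ)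
    rwa [add_sub_cancel] at this
  linarith

end Main

end Pool.H621R3.WS
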