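import Pool.Agent.H621R3.WS4

set_option autoImplicit false
open Filter Topology
open scoped ENNReal

namespace Pool.H621R3.WS

/-- along a chain of `M` steps with far apart ends, some step is long -/
lemma chain {V : Type} [SeminormedAddCommGroup V] (w : ℕ → V) (M : ℕ) {t : ℝ}
    (h : M * t ≤ ‖w M - w 0‖) (hM : 1 ≤ M) : ∃ l, l < M ∧ t ≤ ‖w (l + 1) - w l‖ := by
  by_contra hcon
  push Not at hcon
  have h1 : ‖w M - w 0‖ ≤ ∑ l ∈ Finset.range M, ‖w (l + 1) - w l‖ := by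
    rw [← Finset.sum_range_sub]
    exact norm_sum_le _ _
  have h2 : ∑ l ∈ Finset.range M, ‖w (l + 1) - w l‖ < ∑ l ∈ Finset.range M, t := by
    apply Finset.sum_lt_sum_of_nonempty
    · exact ⟨0, Finset.mem_range.2 hM⟩
    · intro l hl
      exact hcon l (Finset.mem_range.1 hl)
  rw [Finset.sum_const, Finset.card_range, nsmul_eq_mul] at h2
  linarith

lemma half {V : Type} [SeminormedAddCommGroup V] (P : V → ℝ) (hP : ∀ u v, P (u + v) ≤ P u + P v)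
    (hPn : ∀ u, P (-u) = P u) (u v w : V) {t : ℝ} (h : 2 * t ≤ P (u - v)) :
    t ≤ P (u - w) ∨ t ≤ P (v - w) := by
  by_contra hcon
  push Not at hcon
  have h1 := hP (u - w) (-(v - w))
  rw [hPn] at h1
  have e : u - w + -(v - w) = u - v := by abel
  rw [e] at h1
  linarith [hcon.1, hcon.2]

section Main

variable (f : XX → YY) (a b c : ℝ) (ha : 0 < a) (hb : 0 < b) (hc : 0 ≤ c)
  (hf : ∀ x x' : XX, a * ‖x - x'‖ - c ≤ ‖f x - f x'‖ ∧ ‖f x - f x'‖ ≤ b * ‖x - x'‖ + c)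
  (W : ∀ (u : ℕ → XX) (x : XX),
    (∀ φ : XX →L[ℝ] ℝ, Tendsto (fun n => φ (u n)) atTop (𝓝 (φ x))) →
    ∀ ψ : YY →L[ℝ] ℝ, Tendsto (fun n => ψ (f (u n))) atTop (𝓝 (ψ (f x))))

include W in
/-- weak lower semicontinuity -/
lemma lsc (A : Finset ℕ) (x x' : XX) (u u' : ℕ → XX)
    (hu : ∀ φ : XX →L[ℝ] ℝ, Tendsto (fun n => φ (u n)) atTop (𝓝 0))
    (hu' : ∀ φ : XX →L[ℝ] ℝ, Tendsto (fun n => φ (u' n)) atTop (𝓝 0)) {κ : ℝ} (hκ : 0 < κ) :
    ∀ᶠ J in atTop, ‖T CC 2 A (f x - f x')‖ ^ 2 - κ ≤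
      ‖T CC 2 A (f (x + u J) - f (x' + u' J))‖ ^ 2 := by
  obtain ⟨ψ, hψ1, hψ2⟩ := exists_dual_vector'' ℝ (T CC 2 A (f x - f x'))
  have h1 := W (fun J => x + u J) x (fun φ => by simpa using (hu φ).const_add (φ x))
    (ψ.comp (T CC 2 A))
  have h2 := W (fun J => x' + u' J) x' (fun φ => by simpa using (hu' φ).const_add (φ x'))
    (ψ.comp (T CC 2 A))
  have h3 := ((h1.sub h2).pow 2)
  have e : ((ψ.comp (T CC 2 A)) (f x) - (ψ.comp (T CC 2 A)) (f x')) ^ 2 =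
      ‖T CC 2 A (f x - f x')‖ ^ 2 := by
    rw [← map_sub, ContinuousLinearMap.comp_apply, hψ2]
    rfl
  rw [e] at h3
  filter_upwards [h3.eventually (lt_mem_nhds (show ‖T CC 2 A (f x - f x')‖ ^ 2 - κ <
    ‖T CC 2 A (f x - f x')‖ ^ 2 by linarith))] with J hJ
  refine hJ.le.trans ?_
  rw [← map_sub, ContinuousLinearMap.comp_apply, ← sq_abs]
  apply pow_le_pow_left₀ (abs_nonneg _)
  rw [← Real.norm_eq_abs]
  refine (ψ.le_opNorm _).trans ?_
  exact mul_le_of_le_one_left (norm_nonneg _) hψ1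

include ha hb hc hf W in
lemma extend (K : ℕ) (x x' : XX) (S A : Finset ℕ) (hx : T (fun _ : ℕ => ℝ) 4 S x = x)
    (hx' : T (fun _ : ℕ => ℝ) 4 S x' = x') (hK : ‖x - x'‖ ^ 4 ≤ K)
    (hL : K * ((a / 8) ^ 2 / 3) ≤ ‖T CC 2 A (f x - f x')‖ ^ 2) :
    ∃ (y y' : XX) (S' A' : Finset ℕ), T (fun _ : ℕ => ℝ) 4 S' y = y ∧
      T (fun _ : ℕ => ℝ) 4 S' y' = y' ∧ ‖y - y'‖ ^ 4 ≤ ((K + 1 : ℕ) : ℝ) ∧
      ((K + 1 : ℕ) : ℝ) * ((a / 8) ^ 2 / 3) ≤ ‖T CC 2 A' (f y - f y')‖ ^ 2 := by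
  obtain ⟨N, hN, hfar⟩ := far f a b c ha hb hc hf W A
  choose S₁ hS1 hS2 hS3 using fun J => hfar x J
  set R : ℝ := (N : ℝ) ^ (1 / 4 : ℝ) with hR
  have hR1 : 1 ≤ R := Real.one_le_rpow (by exact_mod_cast hN) (by norm_num)
  set M : ℕ := ⌈R⌉₊ with hM
  have hM1 : R ≤ M := Nat.le_ceil R
  have hM2 : (M : ℝ) < R + 1 := Nat.ceil_lt_add_one (by linarith)
  have hMpos : (0 : ℝ) < M := by linarith
  have hM0 : 1 ≤ M := by
    have : (0 : ℝ) < (M : ℝ) := hMpos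
    exact_mod_cast this
  -- the points
  let u : ℕ → ℕ → XX := fun l J => ((l : ℝ) / M) • HH (S₁ J)
  have huw : ∀ l, ∀ φ : XX →L[ℝ] ℝ, Tendsto (fun J => φ (u l J)) atTop (𝓝 0) := by
    intro l φ
    have := (HH_weak N S₁ hS1 hS2 φ).const_mul ((l : ℝ) / M)
    simpa [u] using this
  have hκ : 0 < (a / 8) ^ 2 / 3 := by positivity
  have hev : ∀ᶠ J in atTop, ∀ l ∈ Finset.range (M + 1), ∀ l' ∈ Finset.range (M + 1),
      ‖T CC 2 A (f x - f x')‖ ^ 2 - (a / 8) ^ 2 / 3 ≤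
      ‖T CC 2 A (f (x + u l J) - f (x' + u l' J))‖ ^ 2 := by
    rw [Filter.eventually_all_finset]
    intro l _
    rw [Filter.eventually_all_finset]
    intro l' _
    exact lsc f W A x x' (u l) (u l') (huw l) (huw l') hκ
  obtain ⟨J, hJ1, hJ2⟩ := (hev.and (eventually_ge_atTop (S.sup id + 1))).exists
  have hdisj : Disjoint S (S₁ J) := by
    rw [Finset.disjoint_left]
    intro i hi hi2
    have h1 := Finset.le_sup (f := id) hi
    simp only [id] at h1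
    have h2 := hS2 J i hi2
    omega
  -- long step in the chain
  set Q : YY → YY := fun z => z - T CC 2 A z with hQ
  have hQsub : ∀ z w, Q (z - w) = Q z - Q w := by
    intro z w
    simp only [hQ, map_sub]
    abel
  have hends : (M : ℝ) * (a / 4) ≤ ‖Q (f (x + u M J)) - Q (f (x + u 0 J))‖ := by
    have e1 : u M J = HH (S₁ J) := by
      simp only [u]
      rw [div_self hMpos.ne', one_smul]
    have e2 : u 0 J = 0 := by simp [u]
    rw [← hQsub, e1, e2, add_zero]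
    refine le_trans ?_ (hS3 J)
    nlinarith
  obtain ⟨l, hl, hlt⟩ := chain (fun l => Q (f (x + u l J))) M hends hM0
  have hhalf := half (fun z : YY => ‖Q z‖) (by
      intro z w
      have : Q (z + w) = Q z + Q w := by
        simp only [hQ, map_add]
        abel
      rw [this]
      exact norm_add_le _ _) (by
      intro z
      have : Q (-z) = -(Q z) := by
        simp only [hQ, map_neg]
        abel
      rw [this, norm_neg]) (f (x + u (l + 1) J)) (f (x + u l J)) (f (x' + u l J)) (t := a / 8)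
    (by
      have : ‖Q (f (x + u (l + 1) J) - f (x + u l J))‖ = ‖Q (f (x + u (l + 1) J)) -
        Q (f (x + u l J))‖ := by rw [hQsub]
      change 2 * (a / 8) ≤ ‖Q (f (x + u (l + 1) J) - f (x + u l J))‖
      rw [this]
      linarith)
  -- common conclusion
  have hfin : ∀ m : ℕ, m ∈ Finset.range (M + 1) → (m = l ∨ m = l + 1) →
      a / 8 ≤ ‖Q (f (x + u m J) - f (x' + u l J))‖ →
      ∃ (y y' : XX) (S' A' : Finset ℕ), T (fun _ : ℕ => ℝ) 4 S' y = y ∧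
      T (fun _ : ℕ => ℝ) 4 S' y' = y' ∧ ‖y - y'‖ ^ 4 ≤ ((K + 1 : ℕ) : ℝ) ∧
      ((K + 1 : ℕ) : ℝ) * ((a / 8) ^ 2 / 3) ≤ ‖T CC 2 A' (f y - f y')‖ ^ 2 := by
    intro m hm hml hbig
    set z : YY := f (x + u m J) - f (x' + u l J) with hz
    have h1 := hJ1 m hm l (Finset.mem_range.2 (by omega))
    rw [← hz] at h1
    have h2 := split2 A z
    have h3 : (a / 8) ^ 2 ≤ ‖z - T CC 2 A z‖ ^ 2 := pow_le_pow_left₀ (by positivity) hbig 2
    have h4 : ((K + 1 : ℕ) : ℝ) * ((a / 8) ^ 2 / 3) < ‖z‖ ^ 2 := by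
      rw [Nat.cast_add, Nat.cast_one]
      nlinarith
    have h5 : Tendsto (fun s : Finset ℕ => ‖T CC 2 s z‖ ^ 2) atTop (𝓝 (‖z‖ ^ 2)) :=
      ((T_tendsto (E := CC) (p := 2) two_top z).norm).pow 2
    obtain ⟨A', hA'⟩ := (h5.eventually (lt_mem_nhds h4)).exists
    have hsupp : ∀ (t : ℝ) (v : XX), T (fun _ : ℕ => ℝ) 4 S v = v →
        T (fun _ : ℕ => ℝ) 4 (S ∪ S₁ J) (v + t • HH (S₁ J)) = v + t • HH (S₁ J) := by
      intro t v hv
      rw [map_add, map_smul]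
      congr 1
      · conv_lhs => rw [← hv]
        rw [T_T, Finset.inter_eq_right.2 Finset.subset_union_left, hv]
      · conv_lhs => rw [← HH_fix]
        rw [T_T, Finset.inter_eq_right.2 Finset.subset_union_right, HH_fix]
    refine ⟨x + u m J, x' + u l J, S ∪ S₁ J, A', hsupp _ _ hx, hsupp _ _ hx', ?_, hA'.le⟩
    have e : x + u m J - (x' + u l J) = (x - x') + (((m : ℝ) / M) - (l : ℝ) / M) • HH (S₁ J) := by
      simp only [u]
      rw [sub_smul]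
      abel
    have hT0 : T (fun _ : ℕ => ℝ) 4 S ((((m : ℝ) / M) - (l : ℝ) / M) • HH (S₁ J)) = 0 := by
      rw [map_smul, HH_trunc _ _ hdisj, smul_zero]
    rw [e, add4 S _ _ (by rw [map_sub, hx, hx']) hT0, norm_smul, mul_pow, HH_pow, hS1]
    have hcoef : |((m : ℝ) / M) - (l : ℝ) / M| ≤ 1 / M := by
      rcases hml with h | h
      · rw [h, sub_self, abs_zero]
        positivity
      · rw [h, ← sub_div]
        push_cast
        rw [add_sub_cancel_left, abs_of_nonneg (by positivity)]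
    have hN4 : (N : ℝ) = R ^ 4 := by
      rw [hR, ← Real.rpow_natCast, ← Real.rpow_mul (by positivity)]
      norm_num
    have h6 : ‖((m : ℝ) / M) - (l : ℝ) / M‖ ^ 4 * (N : ℝ) ≤ 1 := by
      rw [Real.norm_eq_abs, hN4, ← mul_pow]
      apply pow_le_one₀ (by positivity)
      calc |((m : ℝ) / M) - (l : ℝ) / M| * R ≤ 1 / M * M := by gcongr
        _ = 1 := by field_simp
    rw [Nat.cast_add, Nat.cast_one]
    linarith
  rcases hhalf with h | h
  · exact hfin (l + 1) (Finset.mem_range.2 (by omega)) (Or.inr rfl) h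
  · exact hfin l (Finset.mem_range.2 (by omega)) (Or.inl rfl) h

include ha hb hc hf W in
theorem impossible : False := by
  have hinv : ∀ K : ℕ, ∃ (x x' : XX) (S A : Finset ℕ), T (fun _ : ℕ => ℝ) 4 S x = x ∧
      T (fun _ : ℕ => ℝ) 4 S x' = x' ∧ ‖x - x'‖ ^ 4 ≤ (K : ℝ) ∧
      (K : ℝ) * ((a / 8) ^ 2 / 3) ≤ ‖T CC 2 A (f x - f x')‖ ^ 2 := by
    intro K
    induction K with
    | zero => exact ⟨0, 0, ∅, ∅, by simp, by simp, by simp, by simp⟩
    | succ K ih =>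
      obtain ⟨x, x', S, A, h1, h2, h3, h4⟩ := ih
      exact extend f a b c ha hb hc hf W K x x' S A h1 h2 h3 h4
  have hκ : 0 < (a / 8) ^ 2 / 3 := by positivity
  have hev := ev_pow (a := Real.sqrt ((a / 8) ^ 2 / 3)) (α := 1 / 2) (β := 1 / 4)
    (Real.sqrt_pos.2 hκ) (by norm_num) (by norm_num) b (c + 1)
  obtain ⟨K, hK⟩ := hev.exists
  obtain ⟨x, x', S, A, -, -, h3, h4⟩ := hinv K
  have h5 : ‖x - x'‖ ≤ (K : ℝ) ^ (1 / 4 : ℝ) := by
    rw [one_div, Real.le_rpow_inv_iff_of_pos (norm_nonneg _) (by positivity) (by norm_num)]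
    calc ‖x - x'‖ ^ (4 : ℝ) = ‖x - x'‖ ^ 4 := by
          rw [← Real.rpow_natCast]; norm_num
      _ ≤ K := h3
  have h6 : Real.sqrt ((a / 8) ^ 2 / 3) * (K : ℝ) ^ (1 / 2 : ℝ) ≤ ‖f x - f x'‖ := by
    rw [← Real.sqrt_eq_rpow, ← Real.sqrt_mul hκ.le, mul_comm]
    rw [Real.sqrt_le_iff]
    refine ⟨norm_nonneg _, h4.trans ?_⟩
    exact pow_le_pow_left₀ (norm_nonneg _) (T_le two_top A _) 2
  have h7 := (hf x x').2
  have h8 : b * ‖x - x'‖ ≤ b * (K : ℝ) ^ (1 / 4 : ℝ) := by gcongr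
  linarith

end Main

end Pool.H621R3.WS
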